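import Pool.Agent.Work.MP_d2a4bb_nt.QA.Stmts

/-!
# Item APPR: approximation by elements of the order
-/

set_option autoImplicit false

open Filter Topology

namespace Pool.Agent.Work.MP_d2a4bb_nt.QA

/-- item APPR -/
theorem APPR_pf : S_APPR := by
  intro O hO h ε hε
  obtain ⟨b, hb⟩ := hO.lat
  obtain ⟨N, hN⟩ := exists_nat_gt ((∑ k, ∑ i, ∑ j, |b k i j|) / ε)
  have hC : 0 ≤ ∑ k, ∑ i, ∑ j, |b k i j| := by positivity
  have hN0 : (0 : ℝ) < N := lt_of_le_of_lt (by positivity) hN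
  refine ⟨N, by exact_mod_cast hN0, ∑ k, ⌊(N : ℝ) * b.repr h k⌋ • b k, ?_, ?_⟩
  · rw [hb]
    exact Submodule.sum_mem _ fun k _ =>
      Submodule.smul_mem _ _ (Submodule.subset_span (Set.mem_range_self k))
  · intro i j
    have e1 : h i j = ∑ k, b.repr h k * b k i j := by
      conv_lhs => rw [← b.sum_repr h]
      rw [Matrix.sum_apply]
      simp
    have e2 : (∑ k, ⌊(N : ℝ) * b.repr h k⌋ • b k) i j =
        ∑ k, (⌊(N : ℝ) * b.repr h k⌋ : ℝ) * b k i j := by
      rw [Matrix.sum_apply]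
      simp [Matrix.smul_apply, zsmul_eq_mul]
    rw [e1, e2, Finset.mul_sum, ← Finset.sum_sub_distrib]
    have e3 : ∀ k, |(⌊(N : ℝ) * b.repr h k⌋ : ℝ) * b k i j - N * (b.repr h k * b k i j)| ≤
        ∑ i, ∑ j, |b k i j| := by
      intro k
      have e4 : (⌊(N : ℝ) * b.repr h k⌋ : ℝ) * b k i j - N * (b.repr h k * b k i j) =
          ((⌊(N : ℝ) * b.repr h k⌋ : ℝ) - N * b.repr h k) * b k i j := by ring
      have e5 : |(⌊(N : ℝ) * b.repr h k⌋ : ℝ) - N * b.repr h k| ≤ 1 := by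
        rw [abs_le]
        constructor
        · linarith [Int.lt_floor_add_one ((N : ℝ) * b.repr h k)]
        · linarith [Int.floor_le ((N : ℝ) * b.repr h k)]
      rw [e4, abs_mul]
      calc |(⌊(N : ℝ) * b.repr h k⌋ : ℝ) - N * b.repr h k| * |b k i j| ≤ 1 * |b k i j| :=
            mul_le_mul_of_nonneg_right e5 (abs_nonneg _)
        _ = |b k i j| := one_mul _
        _ ≤ ∑ j, |b k i j| := Finset.single_le_sum (f := fun j => |b k i j|)
            (fun _ _ => abs_nonneg _) (Finset.mem_univ j)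
        _ ≤ ∑ i, ∑ j, |b k i j| := Finset.single_le_sum (f := fun i => ∑ j, |b k i j|)
            (fun _ _ => Finset.sum_nonneg fun _ _ => abs_nonneg _) (Finset.mem_univ i)
    refine (Finset.abs_sum_le_sum_abs _ _).trans ((Finset.sum_le_sum fun k _ => e3 k).trans ?_)
    have e6 := (div_lt_iff₀ hε).mp hN
    linarith

end Pool.Agent.Work.MP_d2a4bb_nt.QA
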