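import Pool.Agent.Work.MP_d2a4bb_nt.QA.Stmts

/-!
# Item CLS: finitely many classes of elements of bounded norm
-/

set_option autoImplicit false

open Filter Topology

namespace Pool.Agent.Work.MP_d2a4bb_nt.QA

namespace I_CLS

/-- integer part of the coordinates -/
noncomputable def co (b : Module.Basis (Fin 4) ℝ Mt) (x : Mt) (i : Fin 4) : ℤ := ⌊b.repr x i⌋

/-- the coordinates of the elements of the lattice are integers -/
theorem repr_eq (b : Module.Basis (Fin 4) ℝ Mt) {x : Mt}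
    (hx : x ∈ Submodule.span ℤ (Set.range b)) (i : Fin 4) : b.repr x i = (co b x i : ℝ) := by
  have h : ∃ n : ℤ, b.repr x i = (n : ℝ) := by
    have h1 := (b.mem_span_iff_repr_mem ℤ x).1 hx i
    obtain ⟨n, hn⟩ := h1
    exact ⟨n, by rw [← hn]; simp⟩
  obtain ⟨n, hn⟩ := h
  unfold co
  rw [hn, Int.floor_intCast]

theorem mem_of_coeff (b : Module.Basis (Fin 4) ℝ Mt) (d : Fin 4 → ℤ) :
    ∑ i, (d i : ℝ) • b i ∈ Submodule.span ℤ (Set.range b) := by
  refine Submodule.sum_mem _ fun i _ => ?_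
  rw [Int.cast_smul_eq_zsmul]
  exact Submodule.smul_mem _ _ (Submodule.subset_span ⟨i, rfl⟩)

/-- the key of an element -/
noncomputable def key (b : Module.Basis (Fin 4) ℝ Mt) (x : Mt) : ℤ × (Fin 4 → ℤ) :=
  (⌊x.det⌋, fun i => co b x i % ⌊x.det⌋)

end I_CLS

open I_CLS in
theorem CLS_pf (h1 : S_INT) (h2 : S_GE) : S_CLS := by
  classical
  intro O hO N
  obtain ⟨b, hb⟩ := hO.lat
  obtain ⟨hadj, hGam, -⟩ := h2 O hO
  set T : Set Mt := {x | x ∈ O ∧ x ≠ 0 ∧ |x.det| ≤ N} with hT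
  have hdet : ∀ x ∈ T, x.det = ((⌊x.det⌋ : ℤ) : ℝ) ∧ ⌊x.det⌋ ≠ 0 := by
    intro x hx
    obtain ⟨-, n, hn⟩ := h1 O hO x hx.1
    have h3 : ⌊x.det⌋ = n := by rw [hn, Int.floor_intCast]
    refine ⟨by rw [h3, hn], fun h0 => ?_⟩
    rw [h3] at h0
    apply hO.div x hx.1 hx.2.1
    rw [hn, h0, Int.cast_zero]
  have hfin : (key b '' T).Finite := by
    have hF : ((Set.Icc (-⌈N⌉) ⌈N⌉) ×ˢ (Set.pi Set.univ fun _ : Fin 4 =>
        Set.Icc (0 : ℤ) ⌈N⌉) : Set (ℤ × (Fin 4 → ℤ))).Finite :=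
      (Set.finite_Icc _ _).prod (Set.Finite.pi fun _ => Set.finite_Icc _ _)
    refine hF.subset ?_
    rintro k ⟨x, hx, rfl⟩
    obtain ⟨e1, e2⟩ := hdet x hx
    have hle : |((⌊x.det⌋ : ℤ) : ℝ)| ≤ N := by rw [← e1]; exact hx.2.2
    have hle2 : |⌊x.det⌋| ≤ ⌈N⌉ := by
      have h5 : ((|⌊x.det⌋| : ℤ) : ℝ) ≤ (⌈N⌉ : ℝ) := by
        rw [Int.cast_abs]
        exact hle.trans (Int.le_ceil N)
      exact_mod_cast h5
    refine ⟨abs_le.1 hle2, fun i _ => ⟨Int.emod_nonneg _ e2, ?_⟩⟩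
    exact (Int.emod_lt_abs _ e2).le.trans hle2
  set F : Finset (ℤ × (Fin 4 → ℤ)) := hfin.toFinset with hFd
  refine ⟨F.image (Function.invFunOn (key b) T), ?_, ?_⟩
  · intro y hy
    obtain ⟨k, hk, rfl⟩ := Finset.mem_image.1 hy
    rw [hFd, Set.Finite.mem_toFinset] at hk
    obtain ⟨x, hx, rfl⟩ := hk
    have := Function.invFunOn_mem (f := key b) ⟨x, hx, rfl⟩
    exact ⟨this.1, this.2.1⟩
  · intro x hxO hx0 hxN
    have hx : x ∈ T := ⟨hxO, hx0, hxN⟩
    have hex : ∃ a ∈ T, key b a = key b x := ⟨x, hx, rfl⟩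
    set y : Mt := Function.invFunOn (key b) T (key b x) with hy
    have hyT : y ∈ T := Function.invFunOn_mem hex
    have hyk : key b y = key b x := Function.invFunOn_eq hex
    refine ⟨y, Finset.mem_image.2 ⟨key b x, ?_, rfl⟩, ?_⟩
    · rw [hFd, Set.Finite.mem_toFinset]
      exact ⟨x, hx, rfl⟩
    obtain ⟨e1, e2⟩ := hdet x hx
    obtain ⟨e3, e4⟩ := hdet y hyT
    have k1 : ⌊y.det⌋ = ⌊x.det⌋ := congrArg Prod.fst hyk
    have k2 : ∀ i, co b y i % ⌊x.det⌋ = co b x i % ⌊x.det⌋ := by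
      intro i
      have := congrFun (congrArg Prod.snd hyk) i
      simp only [key] at this
      rw [k1] at this
      exact this
    set n : ℤ := ⌊x.det⌋ with hn
    have hd : ∀ i, ∃ d : ℤ, co b x i - co b y i = n * d := fun i =>
      Int.ModEq.dvd (k2 i)
    choose d hd using hd
    set z : Mt := ∑ i, (d i : ℝ) • b i with hz
    have hzO : z ∈ O := (hb z).2 (mem_of_coeff b d)
    have hn0 : (n : ℝ) ≠ 0 := by exact_mod_cast e2
    have hxy : x - y = (n : ℝ) • z := by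
      have a1 : x = ∑ i, (co b x i : ℝ) • b i := by
        conv_lhs => rw [← b.sum_repr x]
        exact Finset.sum_congr rfl fun i _ => by rw [repr_eq b ((hb x).1 hxO) i]
      have a2 : y = ∑ i, (co b y i : ℝ) • b i := by
        conv_lhs => rw [← b.sum_repr y]
        exact Finset.sum_congr rfl fun i _ => by rw [repr_eq b ((hb y).1 hyT.1) i]
      rw [a1, a2, ← Finset.sum_sub_distrib, hz, Finset.smul_sum]
      refine Finset.sum_congr rfl fun i _ => ?_
      rw [← sub_smul, smul_smul]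
      congr 1
      have := hd i
      exact_mod_cast this
    have hydet : y.det = (n : ℝ) := by rw [e3, k1]
    have hxdet : x.det = (n : ℝ) := e1
    set c : Mt := 1 + z * y.adjugate with hc
    have hcO : c ∈ O := O.add_mem O.one_mem (O.mul_mem hzO (hadj y hyT.1))
    have h5 : (n : ℝ) • c = x * y.adjugate := by
      rw [hc, smul_add, ← smul_mul_assoc, ← hxy, sub_mul, Matrix.mul_adjugate, hydet]
      abel
    have h6 : (n : ℝ) • (c * y) = (n : ℝ) • x := by
      rw [← smul_mul_assoc, h5, mul_assoc, Matrix.adjugate_mul, hydet, mul_smul_comm, mul_one]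
    have h7 : c * y = x := smul_right_injective _ hn0 h6
    have h8 : c.det = 1 := by
      have := congrArg Matrix.det h7
      rw [Matrix.det_mul, hydet, hxdet] at this
      exact mul_right_cancel₀ hn0 (by rw [this, one_mul])
    refine ⟨⟨c, h8⟩, hGam _ hcO, ?_⟩
    exact h7.symm

end Pool.Agent.Work.MP_d2a4bb_nt.QA
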