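import Pool.Agent.Work.MP_d2a4bb_nt.QA.Stmts

set_option autoImplicit false

open Filter Topology

namespace Pool.Agent.Work.MP_d2a4bb_nt.QA

/-- finitely many classes: a bounded representative -/
theorem COC_pf (hM : S_MINK) (hC : S_CLS) : S_COC := by
  intro O hO
  obtain ⟨C0, hC0, hmink⟩ := hM O hO
  obtain ⟨S, hS, hcls⟩ := hC O hO (2 * C0 ^ 2)
  set M : ℝ := 1 + ∑ y ∈ S, ∑ i, ∑ j, |(y⁻¹ : Mt) i j| with hMdef
  have hM1 : 1 ≤ M := by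
    have : 0 ≤ ∑ y ∈ S, ∑ i, ∑ j, |(y⁻¹ : Mt) i j| :=
      Finset.sum_nonneg fun y _ => Finset.sum_nonneg fun i _ => Finset.sum_nonneg fun j _ =>
        abs_nonneg _
    linarith
  refine ⟨C0 * M, by positivity, fun g => ?_⟩
  obtain ⟨x, hxO, hx0, hxb⟩ := hmink g
  have hdet : |x.det| ≤ 2 * C0 ^ 2 := by
    have h1 : ((g : Mt) * x).det = x.det := by
      rw [Matrix.det_mul, g.2, one_mul]
    rw [← h1, Matrix.det_fin_two]
    set a := ((g : Mt) * x) 0 0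
    set b := ((g : Mt) * x) 0 1
    set c := ((g : Mt) * x) 1 0
    set d := ((g : Mt) * x) 1 1
    have ha : |a| ≤ C0 := hxb 0 0
    have hb : |b| ≤ C0 := hxb 0 1
    have hc : |c| ≤ C0 := hxb 1 0
    have hd : |d| ≤ C0 := hxb 1 1
    calc |a * d - b * c| ≤ |a * d| + |b * c| := abs_sub _ _
      _ = |a| * |d| + |b| * |c| := by rw [abs_mul, abs_mul]
      _ ≤ C0 * C0 + C0 * C0 := by gcongr
      _ = 2 * C0 ^ 2 := by ring
  obtain ⟨y, hyS, c, hc, hxy⟩ := hcls x hxO hx0 hdet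
  refine ⟨c, hc, fun i j => ?_⟩
  have hydet : y.det ≠ 0 := hO.div y (hS y hyS).1 (hS y hyS).2
  have hyi : y * y⁻¹ = 1 := Matrix.mul_nonsing_inv y (isUnit_iff_ne_zero.mpr hydet)
  have h2 : ((g * c : SL2) : Mt) = ((g : Mt) * x) * y⁻¹ := by
    rw [hxy, Matrix.SpecialLinearGroup.coe_mul, Matrix.mul_assoc, Matrix.mul_assoc, hyi,
      Matrix.mul_one]
  rw [h2, Matrix.mul_apply]
  have h3 : ∑ k, |(y⁻¹ : Mt) k j| ≤ M := by
    have h4 : ∑ k, |(y⁻¹ : Mt) k j| ≤ ∑ k, ∑ l, |(y⁻¹ : Mt) k l| := by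
      refine Finset.sum_le_sum fun k _ => ?_
      exact Finset.single_le_sum (f := fun l => |(y⁻¹ : Mt) k l|) (fun l _ => abs_nonneg _)
        (Finset.mem_univ j)
    have h5 : ∑ k, ∑ l, |(y⁻¹ : Mt) k l| ≤ ∑ y ∈ S, ∑ i, ∑ j, |(y⁻¹ : Mt) i j| :=
      Finset.single_le_sum (f := fun y : Mt => ∑ i, ∑ j, |(y⁻¹ : Mt) i j|)
        (fun y _ => Finset.sum_nonneg fun i _ => Finset.sum_nonneg fun j _ => abs_nonneg _) hyS
    linarith
  calc |∑ k, ((g : Mt) * x) i k * (y⁻¹ : Mt) k j|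
      ≤ ∑ k, |((g : Mt) * x) i k * (y⁻¹ : Mt) k j| := Finset.abs_sum_le_sum_abs _ _
    _ = ∑ k, |((g : Mt) * x) i k| * |(y⁻¹ : Mt) k j| := by simp only [abs_mul]
    _ ≤ ∑ k, C0 * |(y⁻¹ : Mt) k j| :=
        Finset.sum_le_sum fun k _ => mul_le_mul_of_nonneg_right (hxb i k) (abs_nonneg _)
    _ = C0 * ∑ k, |(y⁻¹ : Mt) k j| := by rw [Finset.mul_sum]
    _ ≤ C0 * M := mul_le_mul_of_nonneg_left h3 hC0.le

end Pool.Agent.Work.MP_d2a4bb_nt.QA
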