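import Pool.Agent.Work.MP_d2a4bb_nt.QA.Defs

/-!
# Orders of quaternion division algebras: statements with proofs (arithmetic half of `MP_d2a4bb_nt`)

Every item `S_XXX` is proved in its own file `QA/I_XXX.lean` as `theorem XXX_pf ... : S_XXX`; the
hypotheses may be any earlier statements of this file.  Notation of the comments: `x^* = adjugate x`,
`tr`, `det`; for a unit `x x^* = det x`, and `x + x^* = tr x`.
-/

set_option autoImplicit false

open Filter Topology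

namespace Pool.Agent.Work.MP_d2a4bb_nt.QA

/-! ## Integrality, finiteness -/

/-- [INT] Let `x ∈ O`, `t = tr x`, `n = det x`. Left multiplication by `x` has in the basis `b` a
matrix with integer entries (`x * b j ∈ O`), and its trace is `2 t` (computed in the standard basis
of `Mt`). So `2 tr x ∈ ℤ` for ALL `x ∈ O`. For `x^2`: `tr (x^2) = t^2 - 2 n`. So `a = 2 t ∈ ℤ` and
`c = 2 tr (x^2) = 2 t^2 - 4 n ∈ ℤ`, `8 n = a^2 - 2 c ∈ ℤ`. For `x^j ∈ O` this says `8 n^j ∈ ℤ` for all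
`j`. So `n ∈ ℤ`: `n = u / v` in lowest terms, `v^j` divides `8` for all `j`. Now `a^2 = 2 c + 8 n` is
even, so `a` is even and `t ∈ ℤ`. -/
def S_INT : Prop := ∀ O : Subring Mt, QOrd O → ∀ x ∈ O,
  (∃ t : ℤ, x.trace = (t : ℝ)) ∧ ∃ n : ℤ, x.det = (n : ℝ)

/-- [GE] `x^* = tr x - x ∈ O` by `INT`; `g⁻¹ = g^*` for `g ∈ SL2`; `√p g⁻¹ = (√p g)^*`. -/
def S_GE : Prop := ∀ O : Subring Mt, QOrd O → (∀ x ∈ O, x.adjugate ∈ O) ∧
  (∀ g : SL2, (g : Mt) ∈ O → g ∈ Gam O) ∧ ∀ p : ℕ, (∀ g ∈ Ep O p, g⁻¹ ∈ Ep O p) ∧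
  (∀ c ∈ Gam O, ∀ g ∈ Ep O p, c * g ∈ Ep O p ∧ g * c ∈ Ep O p) ∧
  ∀ g : SL2, (Real.sqrt p • (g : Mt)).det = p

/-- [DISC] a lattice has finitely many points in a bounded set (`Metric.finite_isBounded_inter_isClosed`
and the discrete topology of the `ℤ`-span of a basis; or compare coordinates: the coordinates in the
basis `b` are linear functions of the entries, so they are bounded integers). -/
def S_DISC : Prop := ∀ O : Subring Mt, QOrd O → ∀ C : ℝ,
  {x : Mt | x ∈ O ∧ ∀ i j, |x i j| ≤ C}.Finite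

/-- [DISG] from `DISC`: `g ↦ c g` is injective. -/
def S_DISG : Prop := ∀ O : Subring Mt, QOrd O → ∀ c C : ℝ, c ≠ 0 →
  {g : SL2 | c • (g : Mt) ∈ O ∧ ∀ i j, |(g : Mt) i j| ≤ C}.Finite

/-- [MINK] Minkowski. Let `b` be the basis and `e : Mt → ℝ^4` the entries. The linear map
`y ↦ e (g * ∑ y_i b_i)` of `ℝ^4` has the determinant `± det(g)^2 V = ± V`, `V = |det (y ↦ e (∑ y_i b_i))|`
(left multiplication by `g` on `Mt = ℝ^2 + ℝ^2` is the block matrix `diag (g, g)`). So the lattice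
`g O` has covolume `V`, and Minkowski (`MeasureTheory.exists_ne_zero_mem_lattice_of_measure_mul_two_pow_lt_measure`)
gives a nonzero point in the cube `|entries| ≤ C` if `(2 C)^4 > 16 V`. -/
def S_MINK : Prop := ∀ O : Subring Mt, QOrd O → ∃ C : ℝ, 0 < C ∧ ∀ g : SL2, ∃ x ∈ O, x ≠ 0 ∧
  ∀ i j, |((g : Mt) * x) i j| ≤ C

/-- [CLS] Let `n = det x ∈ ℤ` (`INT`, nonzero by `div`), `|n| ≤ N`. If `x, y ∈ O`, `det x = det y = n`
and `x = y + n z` with `z ∈ O`, let `γ = 1 + z y^* ∈ O`. As `y y^* = n`, `n γ = x y^*`, so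
`n γ y = x y^* y = n x`, `γ y = x`, `det γ = 1` and `γ ∈ Γ` (`GE`). There are finitely many pairs
(`n`, class of `x` modulo `n O`) (coordinates in the basis modulo `n`); take one `x` for each. -/
def S_CLS : Prop := ∀ O : Subring Mt, QOrd O → ∀ N : ℝ, ∃ S : Finset Mt,
  (∀ y ∈ S, y ∈ O ∧ y ≠ 0) ∧ ∀ x ∈ O, x ≠ 0 → |x.det| ≤ N →
    ∃ y ∈ S, ∃ c ∈ Gam O, x = ((c : SL2) : Mt) * y

/-- [REPS] finitely many classes: for `g ∈ Ep O p` the matrix `√p g ∈ O` has determinant `p`; by `CLS`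
with `N = p` it is `γ y` with `y` in a finite set. Choose one element for each class which occurs. -/
def S_REPS : Prop := ∀ O : Subring Mt, QOrd O → ∀ p : ℕ, 0 < p → ∃ R : Finset SL2, IsReps O p R

/-- [COC] Let `C₀` be as in `MINK` and `x ∈ O`, `x ≠ 0` with `|entries of g x| ≤ C₀`. Then
`|det x| = |det (g x)| ≤ 2 C₀^2`, and by `CLS` `x = γ y`, `y ∈ S`. So `g γ = (g x) y⁻¹` has entries at
most `2 C₀ max |entries of y⁻¹|`. -/
def S_COC : Prop := ∀ O : Subring Mt, QOrd O → ∃ C : ℝ, 0 < C ∧ ∀ g : SL2, ∃ c ∈ Gam O,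
  ∀ i j, |((g * c : SL2) : Mt) i j| ≤ C

/-- [COCH] Let `z = h • i` (`h` upper triangular). `COC` for `h⁻¹` gives `γ` with
`|entries of h⁻¹ γ| ≤ C`; so `k = (h⁻¹ γ)⁻¹ = γ⁻¹ h` has entries at most `C` and `γ⁻¹ z = k • i` lies in
the image of the compact set `{k ∈ SL2 : |entries| ≤ C}` under the continuous map `k ↦ k • i`
(or: `K = {z : |z| ≤ C', C'' ≤ im z}`, `im (k • i) = 1 / (c^2 + d^2) ≥ 1 / (2 C^2)`,
`k • i = (a i + b) / (c i + d)`, `|k • i|^2 = (a^2 + b^2) / (c^2 + d^2)` and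
`1 = (a d - b c)^2 ≤ (a^2 + b^2) (c^2 + d^2)`, so `c^2 + d^2 ≥ 1 / (2 C^2)`). -/
def S_COCH : Prop := ∀ O : Subring Mt, QOrd O → ∃ K : Set UpperHalfPlane, IsCompact K ∧
  ∀ z : UpperHalfPlane, ∃ c ∈ Gam O, c • z ∈ K

/-! ## The tree -/

/-- [RK] Induction on `L`: `vm A L v = 0` iff `A 0 v = 0`, and the range of `vm A L` is contained in
the range of `A (L - 1)`, a line. Step: if `A L (P v) = 0`, `P = vm A L`, and `P v ≠ 0`, then `P v`
spans the range of `A (L - 1)`, so `A L * A (L - 1) = 0`, a contradiction. -/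
def S_RK : Prop := ∀ (K : Type) [Field K] (L : ℕ) (A : ℕ → Matrix (Fin 2) (Fin 2) K), 1 ≤ L →
  (∀ i < L, (A i).det = 0 ∧ A i ≠ 0) → (∀ i, i + 1 < L → A (i + 1) * A i ≠ 0) →
  ∀ v : Fin 2 → K, (vm A L).mulVec v = 0 ↔ (A 0).mulVec v = 0

/-- [KER] linear algebra: `B` factors through `A`. -/
def S_KER : Prop := ∀ (K : Type) [Field K] (A B : Matrix (Fin 2) (Fin 2) K),
  (∀ v : Fin 2 → K, A.mulVec v = 0 → B.mulVec v = 0) → ∃ C : Matrix (Fin 2) (Fin 2) K, B = C * A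

/-- [LOC] Let `φ` be as in `Split`. For `x ∈ O` with `det x = p`: `x x^* = p` so
`φ x * φ x^* = 0`; `x ∉ p O` since `x = p y` gives `p = det x = p^2 det y`, `det y ∈ ℤ`; the same for
`x^*`; so `φ x` is a nonzero zero divisor, `det φ x = 0`. If `φ (x y) = 0` with
`det x = det y = p`, then `x y = p z` with `z ∈ O`, `det z = 1`. If `ker φ x` is contained in
`ker φ x'` then by `KER` and surjectivity `φ x' = φ β φ x`, `x' - β x ∈ p O = O x^* x`
(`p = x^* x`), so `x' = γ x`, `γ ∈ O`, and `det γ = 1`. If `det c = 1`, `c ∈ O`, then `c^* c = 1`, so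
`φ c` is invertible. -/
def S_LOC : Prop := ∀ (O : Subring Mt) (p : ℕ), QOrd O → p.Prime →
  ∀ φ : O →+* Matrix (Fin 2) (Fin 2) (ZMod p), Function.Surjective φ →
  (∀ x : O, φ x = 0 ↔ ∃ y : O, x = (p : O) * y) →
  (∀ x : O, (x : Mt).det = p → (φ x).det = 0 ∧ φ x ≠ 0) ∧
  (∀ x y : O, (x : Mt).det = p → (y : Mt).det = p → φ (x * y) = 0 →
    ∃ z : O, (z : Mt).det = 1 ∧ (x : Mt) * (y : Mt) = (p : ℝ) • (z : Mt)) ∧
  (∀ x x' : O, (x : Mt).det = p → (x' : Mt).det = p →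
    (∀ v, (φ x).mulVec v = 0 → (φ x').mulVec v = 0) → ∃ c : O, (c : Mt).det = 1 ∧ x' = c * x) ∧
  ∀ c x : O, (c : Mt).det = 1 → ∀ v, (φ (c * x)).mulVec v = 0 ↔ (φ x).mulVec v = 0

/-- [IRR] `y ∈ O` and `√p y ∈ O` imply `y = 0`: `(√p y) y^* = √p n`, `n = det y ∈ ℤ` (`INT`), lies in
`O`, and its trace `2 √p n` is an integer by `INT`; `√p` is irrational, so `n = 0` and `y = 0` by
`div`. -/
def S_IRR : Prop := ∀ (O : Subring Mt) (p : ℕ), QOrd O → p.Prime → ∀ y ∈ O,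
  Real.sqrt p • y ∈ O → y = 0

/-- [TREE] Let `x i = √p a i ∈ O` (`det = p`), `X = x_(L-1) ... x_0 = (√p)^L vw a L`, similarly `X'`.
By `LOC` all `φ (x i)` are nonzero of determinant `0`, and `φ (x (i+1)) φ (x i) ≠ 0`: otherwise
`x (i+1) x i = p z`, so `a (i+1) a i = z ∈ O` has determinant `1` and lies in `Γ` (`GE`). By `RK`
`ker φ X = ker φ (x 0)`; in particular `φ X ≠ 0` (for `L = 0` too, `p` prime).
Induction on `L`; let `vw a L = γ vw a' L'` with `γ ∈ Γ`, say `L ≥ L'` (the case `L ≤ L'` is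
symmetric, `γ⁻¹`). If `L - L' = 2 j`, `j ≥ 1`: `X = p^j γ X' ∈ p O`, a contradiction. If
`L - L' = 2 j + 1`: `X = √p y` with `y = p^j γ X' ∈ O`, so `y = 0` by `IRR`, a contradiction. If
`L = L' ≥ 1`: `ker φ (x 0) = ker φ X = ker φ (γ X') = ker φ X' = ker φ (x' 0)` (`LOC`), so
`x' 0 = c x 0` with `c ∈ Γ`, and `a 0 = a' 0` (uniqueness in `IsReps`). Cancel it
(`vw a (L + 1) = vw (fun i => a (i + 1)) L * a 0`) and use the induction hypothesis. -/
def S_TREE : Prop := ∀ (O : Subring Mt) (p : ℕ) (R : Finset SL2), QOrd O → p.Prime → Split O p →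
  IsReps O p R → ∀ (L L' : ℕ) (a a' : ℕ → SL2), (∀ i < L, a i ∈ R) → (∀ i < L', a' i ∈ R) →
  NB O a L → NB O a' L' → vw a L * (vw a' L')⁻¹ ∈ Gam O → L = L' ∧ ∀ i < L, a i = a' i

/-- [INF] infinitely many classes. If `R` has at least two elements there is an infinite word `a`
without backtracking: `a (i + 1)` must be different from the only `b ∈ R` with `b a i ∈ Γ` (two such
`b`, `b'` have `b b'⁻¹ ∈ Γ`, so `b = b'`). Take `l j = vw a (2 j)`; it is in `Lam O p`, and the classes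
are different by `TREE` (different lengths). -/
def S_INF : Prop := ∀ (O : Subring Mt) (p : ℕ) (R : Finset SL2), QOrd O → p.Prime → Split O p →
  IsReps O p R → 2 ≤ R.card → Inf O (Lam O p)

/-! ## No invariant lines -/

/-- [APPR] `h = ∑ c_i b_i`; take `x = ∑ ⌊N c_i⌋ b_i`: the entries of `x - N h` are at most
`∑ |entries of b_i|`, and this is at most `ε N` for large `N`. -/
def S_APPR : Prop := ∀ O : Subring Mt, QOrd O → ∀ (h : Mt) (ε : ℝ), 0 < ε →
  ∃ N : ℕ, 0 < N ∧ ∃ x ∈ O, ∀ i j, |x i j - N * h i j| ≤ ε * N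

/-- [PELL] `t = tr x`, `n = det x`, `D = t^2 - 4 n > 0` are integers (`INT`). `D` is not a square: if
`D = s^2` then `(2 x - t)^2 = D` (Cayley-Hamilton) gives `(2 x - t - s) (2 x - t + s) = 0`, both
factors are in `O`, so one of them is `0` (`div`: the determinant of the product is the product), and
the trace of `2 x = t ± s` gives `s = 0`, a contradiction. `Pell.exists_of_not_isSquare` gives
`u^2 - D v^2 = 1`, `v ≠ 0`. `γ = u + v (2 x - t) ∈ O` has determinant `u^2 - v^2 D = 1`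
(`det (2 x - t) = - D`), so `γ ∈ Γ` by `GE`. -/
def S_PELL : Prop := ∀ O : Subring Mt, QOrd O → ∀ x ∈ O, 0 < x.trace ^ 2 - 4 * x.det →
  ∃ c ∈ Gam O, ∃ u v : ℤ, u ≠ 0 ∧ v ≠ 0 ∧
    ((c : SL2) : Mt) = (u : ℝ) • (1 : Mt) + (v : ℝ) • ((2 : ℝ) • x - x.trace • (1 : Mt))

/-- [NONC] `APPR` with `ε = 1/10` for `h = !![1, 0; 0, -1]` and `h = !![0, 1; 1, 0]`: elements
`x, x' ∈ O` close to `N h`, `N' h'`. The discriminant `(x 0 0 - x 1 1)^2 + 4 x 0 1 x 1 0` is positive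
for both. `PELL`: `γ = u + v y`, `γ' = u' + v' y'` with `y = 2 x - tr x`, `y' = 2 x' - tr x'` and
`u, v, u', v' ≠ 0`; `γ^2 = (u^2 + v^2 D) + 2 u v y` because `y^2 = D`. The entry `0 1` of
`y y' - y' y` is `y 0 1 (y' 1 1 - y' 0 0) + y' 0 1 (y 0 0 - y 1 1)`, close to `8 N N'`, so `y`, `y'`
and `γ^2`, `γ'^2` do not commute. -/
def S_NONC : Prop := ∀ O : Subring Mt, QOrd O → ∃ c ∈ Gam O, ∃ c' ∈ Gam O,
  c ^ 2 * c' ^ 2 ≠ c' ^ 2 * c ^ 2

/-- [INVL] Suppose `Y ≠ 0`; `Y` is not scalar (trace `0`). For `γ ∈ Γ`: `γ Y = c Y γ`, `c ≠ 0`.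
If `det Y ≠ 0`: determinants give `c^2 = 1`, so `γ^2 Y = c^2 Y γ^2 = Y γ^2`. So `γ^2`, `γ'^2` of `NONC`
commute with `Y`; the matrices which commute with the nonscalar `Y` commute with each other (they
are `a + b Y`): a contradiction to `NONC`.
If `det Y = 0`: the kernel of `Y` is a line `ℝ e`, and `Y γ e = c⁻¹ γ Y e = 0`, so `γ e = μ e` for all
`γ ∈ Γ`, `μ ≠ 0`. For `γ, γ'` of `NONC` `κ = γ γ' γ⁻¹ γ'⁻¹` has `κ e = e`; `κ - 1 ∈ O` has determinant
`0`, so `κ = 1` by `div`, so `γ`, `γ'` commute: a contradiction. -/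
def S_INVL : Prop := ∀ O : Subring Mt, QOrd O → ∀ Y : Mt, Y.trace = 0 →
  (∀ c ∈ Gam O, ∃ s : ℝ, ((c : SL2) : Mt) * Y = s • (Y * ((c : SL2) : Mt))) → Y = 0

/-- [SPAN] Let `W` be the span of the `γ X γ⁻¹`; it is invariant under conjugation by `Γ`, contained in
the three-dimensional space `sl` of the matrices of trace zero, and `W ≠ 0`. If `W` is a line,
`γ X γ⁻¹ = s X`: a contradiction to `INVL` (`Y = X`). If `W` has dimension two, let `Y ≠ 0` of trace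
`0` with `tr (Y Z) = 0` for all `Z ∈ W` (exists, and is unique up to a factor, because the form
`tr (Y Z)` is nondegenerate on `sl`); `γ⁻¹ Y γ` has the same property, so `γ⁻¹ Y γ = s Y`: a
contradiction to `INVL` again. So `W = sl`. -/
def S_SPAN : Prop := ∀ O : Subring Mt, QOrd O → ∀ X : Mt, X ≠ 0 → X.trace = 0 →
  ∀ l : Mt →ₗ[ℝ] ℝ, (∀ c ∈ Gam O, l (((c : SL2) : Mt) * X * ((c⁻¹ : SL2) : Mt)) = 0) →
  ∀ Z : Mt, Z.trace = 0 → l Z = 0

/-! ## Dense orbits -/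

/-- [TAN] Let `g n`, `r n` be as in `Tan`, `X_n = (g n - 1) / r n`, so `g n = 1 + r n X_n` tends to `1`.
(1) `1 = det (1 + r X_n) = 1 + r tr X_n + r^2 det X_n`, so `tr X_n = - r det X_n` tends to `0`.
(2) conjugation by `h ∈ Λ`: `h g n h⁻¹ - 1 = h (g n - 1) h⁻¹`. (3) `(g n)⁻¹ - 1 = - (g n)⁻¹ (g n - 1)`
and `(g n)⁻¹` tends to `1` (adjugate). -/
def S_TAN : Prop := ∀ (Λ : Subgroup SL2) (X : Mt), Tan Λ X → X.trace = 0 ∧ Tan Λ (-X) ∧
  ∀ h ∈ Λ, Tan Λ ((h : Mt) * X * ((h⁻¹ : SL2) : Mt))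

/-- [TANX] Let `l j` be as in `Inf`. `COC` for `(l j)⁻¹` gives `γ_j ∈ Γ` such that the entries of
`(l j)⁻¹ γ_j` are at most `C`; so `h_j = γ_j⁻¹ l j ∈ Λ` has entries at most `C` (adjugate), and the
`h_j` are different (`h_i = h_j` gives `l i (l j)⁻¹ ∈ Γ`). Take a subsequence such that the matrices
`h_j` converge (Bolzano-Weierstrass, `tendsto_subseq_of_bounded`); the limit has determinant `1`. So
`g_n = h_(j_n) h_(j_(n+1))⁻¹ ∈ Λ` tends to `1` and `g_n ≠ 1`. Let `r n > 0` be the maximum of the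
absolute values of the entries of `g n - 1`; `(g n - 1) / r n` is bounded, take a convergent
subsequence again; the limit is not `0` (maximum of absolute values `1`). `TAN`: its trace is `0`. -/
def S_TANX : Prop := ∀ O : Subring Mt, QOrd O → ∀ Λ : Subgroup SL2, Gam O ≤ Λ → Inf O Λ →
  ∃ X : Mt, X ≠ 0 ∧ X.trace = 0 ∧ Tan Λ X

/-- [NEAR] nearest point. Let `f y = |y - w|^2 / im y = 2 im w (cosh dist (y, w) - 1)`. `Y` is closed
and nonempty, so `f` has a minimum on `Y` at some `y` (`UpperHalfPlane` is a proper metric space,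
`IsClosed.exists_infDist_eq_dist`). For `g = (a b; c d)`: `im (g y) = im y / |c y + d|^2` and
`g y - w = (a y + b - w (c y + d)) / (c y + d)`, so `f (g y) ≥ f y` says
`|a y + b - w (c y + d)|^2 ≥ |y - w|^2`. With `g = 1 + r X_n` (`r > 0`) the left number is
`(y - w) + r Z_n`, `Z_n = X_n 0 0 y + X_n 0 1 - w (X_n 1 0 y + X_n 1 1)`. So
`2 re (conj (y - w) Z_n) + r |Z_n|^2 ≥ 0`, and in the limit `Dw w y X ≥ 0`. The same for `- X`
(`TAN`), and `Dw` is linear in `X`. -/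
def S_NEAR : Prop := ∀ (Λ : Subgroup SL2) (Y : Set UpperHalfPlane), IsClosed Y → Y.Nonempty →
  (∀ g ∈ Λ, ∀ y ∈ Y, g • y ∈ Y) → ∀ w : UpperHalfPlane, ∃ y ∈ Y, ∀ X : Mt, Tan Λ X → Dw w y X = 0

/-- [DENS] Let `Y` be the closure of the orbit `Λ z`; it is invariant under `Λ`. Let `w` be a point and
`y ∈ Y` as in `NEAR`. Let `X ≠ 0` be tangent to `Λ` (`TANX`). By `TAN` and `NEAR`
`Dw w y (γ X γ⁻¹) = 0` for all `γ ∈ Γ`, so by `SPAN` `Dw w y Z = 0` for all `Z` of trace zero.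
`Z = !![0, 1; 0, 0]` gives `re (y - w) = 0`, and `Z = !![1, 0; 0, -1]` gives
`re (conj (y - w) (y + w)) = |y|^2 - |w|^2 = 0`. So `y = w ∈ Y`. -/
def S_DENS : Prop := ∀ O : Subring Mt, QOrd O → ∀ Λ : Subgroup SL2, Gam O ≤ Λ → Inf O Λ →
  ∀ (z w : UpperHalfPlane) (ε : ℝ), 0 < ε → ∃ g ∈ Λ, dist (g • z) w < ε

/-- [WORD] `Γ ≤ Lam O p`: for `γ ∈ Γ`, `a ∈ R` we have `γ = (γ a) a⁻¹` and `γ a, a⁻¹ ∈ Ep O p` (`GE`).
The elements `g` which have the stated form are a subgroup containing the products `e e'`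
(`Subgroup.closure_induction`): a product `e_(2n) ... e_1` of elements of `Ep O p` is `γ vw a (2 n)`:
`e_1 = γ_1 a_0`, `e_2 γ_1 = γ_2 a_1` and so on (`ex` of `IsReps`); the inverse of such a product is such
a product. (Fill up the sequence `a` with any element of `R`.) -/
def S_WORD : Prop := ∀ (O : Subring Mt) (p : ℕ) (R : Finset SL2), QOrd O → IsReps O p R →
  R.Nonempty → Gam O ≤ Lam O p ∧ ∀ g ∈ Lam O p, ∃ (n : ℕ) (a : ℕ → SL2), (∀ i, a i ∈ R) ∧
    g * (vw a (2 * n))⁻¹ ∈ Gam O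

/-- [UNI] Uniform density of the endpoints of the walks of `2 L` steps. By `INF`, `DENS` and `WORD` for
all `z, w` there are `n` and a word `a` such that `(vw a (2 n)) z` is at distance less than `ε / 3`
of a point `γ w`. By compactness of `K × K` (`COCH`) (the maps are isometries) finitely many `n`
suffice for `z, w ∈ K` and distance less than `ε`. A word of length `2 n` can be made longer by two
letters without changing the class of the product modulo `Γ`: for `b ∈ R` there is `b' ∈ R` with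
`b' b ∈ Γ` (`b⁻¹ ∈ Ep O p`), and then letters are adapted: if `c ∈ Γ`, the word `a` and `c` give a word
`a'` with `(vw a (2 n)) c ∈ Γ (vw a' (2 n))`. So take the maximum of the `n`. For general `z`, `w` move
them into `K` by `Γ` (same remark). -/
def S_UNI : Prop := ∀ (O : Subring Mt) (p : ℕ) (R : Finset SL2), QOrd O → p.Prime → Split O p →
  IsReps O p R → 2 ≤ R.card → ∀ ε : ℝ, 0 < ε → ∃ L : ℕ, ∀ z w : UpperHalfPlane,
    ∃ a : ℕ → SL2, (∀ i, a i ∈ R) ∧ ∃ c ∈ Gam O, dist (vw a (2 * L) • z) (c • w) < ε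

/-- [PERM] right multiplication permutes the words: for `c ∈ Γ` and a word `a` there is a word `a'` and
`c' ∈ Γ` with `vw a' i * c ∈ Γ vw a i` for all `i ≤ L`, without backtracking if `a` is. (`a_0' c ∈ Γ a_0`,
that is `a_0 c⁻¹ = γ_0 a_0'`, then `a_1 γ_0 = γ_1 a_1'` and so on.) -/
def S_PERM : Prop := ∀ (O : Subring Mt) (p : ℕ) (R : Finset SL2), QOrd O → IsReps O p R →
  ∀ c ∈ Gam O, ∀ (L : ℕ) (a : ℕ → SL2), (∀ i, a i ∈ R) → ∃ a' : ℕ → SL2, (∀ i, a' i ∈ R) ∧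
    (∀ i ≤ L, vw a' i * c * (vw a i)⁻¹ ∈ Gam O) ∧
    (NB O a L → NB O a' L)

end Pool.Agent.Work.MP_d2a4bb_nt.QA
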