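import Mathlib
import Pool.Agent.Work.MP_d2a4bb_nt.QA.Stmts

/-!
# Item DENS: the orbits of `Λ` are dense
-/

set_option autoImplicit false

open Filter Topology

namespace Pool.Agent.Work.MP_d2a4bb_nt.QA

namespace I_DENS

/-- `Dw` as a linear map -/
noncomputable def DwL (w y : UpperHalfPlane) : Mt →ₗ[ℝ] ℝ where
  toFun := Dw w y
  map_add' X X' := by
    simp only [Dw, Matrix.add_apply, Complex.ofReal_add]
    rw [← Complex.add_re]
    congr 1
    ring
  map_smul' r X := by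
    simp only [Dw, Matrix.smul_apply, smul_eq_mul, Complex.ofReal_mul, RingHom.id_apply]
    rw [← Complex.re_ofReal_mul]
    congr 1
    ring

end I_DENS

theorem DENS_pf (h1 : S_TANX) (h2 : S_TAN) (h3 : S_NEAR) (h4 : S_SPAN) : S_DENS := by
  intro O hO Λ hΛ hInf z w ε hε
  let S : Set UpperHalfPlane := {y | ∃ g ∈ Λ, y = g • z}
  have hz : z ∈ S := ⟨1, Λ.one_mem, (one_smul _ z).symm⟩
  have hinv : ∀ g ∈ Λ, ∀ y ∈ closure S, g • y ∈ closure S := by
    intro g hg y hy
    apply map_mem_closure (continuous_const_smul g) hy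
    rintro _ ⟨k, hk, rfl⟩
    exact ⟨g * k, Λ.mul_mem hg hk, by rw [mul_smul]⟩
  obtain ⟨y, hy, hD⟩ := h3 Λ (closure S) isClosed_closure ⟨z, subset_closure hz⟩ hinv w
  obtain ⟨X, hX0, hXt, hXT⟩ := h1 O hO Λ hΛ hInf
  have hl : ∀ Z : Mt, Z.trace = 0 → I_DENS.DwL w y Z = 0 := by
    apply h4 O hO X hX0 hXt (I_DENS.DwL w y)
    intro c hc
    exact hD _ ((h2 Λ X hXT).2.2 c (hΛ hc))
  have e1 := hl !![0, 1; 0, 0] (by simp [Matrix.trace_fin_two])
  have e2 := hl !![1, 0; 0, -1] (by simp [Matrix.trace_fin_two])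
  have e1' : Dw w y !![0, 1; 0, 0] = 0 := e1
  have e2' : Dw w y !![1, 0; 0, -1] = 0 := e2
  simp only [Dw, Matrix.of_apply, Matrix.cons_val', Matrix.cons_val_zero, Matrix.cons_val_one,
    Matrix.cons_val_fin_one, Complex.mul_re, Complex.conj_re, Complex.conj_im, Complex.sub_re,
    Complex.sub_im, Complex.add_re, Complex.add_im, Complex.mul_im, Complex.ofReal_re,
    Complex.ofReal_im] at e1' e2'
  have hre : (y : ℂ).re = (w : ℂ).re := by
    linarith
  have him : (y : ℂ).im ^ 2 = (w : ℂ).im ^ 2 := by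
    rw [hre] at e2'
    nlinarith
  have him2 : (y : ℂ).im = (w : ℂ).im := by
    have hy0 : 0 < (y : ℂ).im := y.im_pos
    have hw0 : 0 < (w : ℂ).im := w.im_pos
    exact (pow_left_inj₀ hy0.le hw0.le (by norm_num)).mp him
  have hyw : y = w := by
    apply UpperHalfPlane.ext
    exact Complex.ext hre him2
  rw [hyw] at hy
  obtain ⟨b, ⟨g, hg, rfl⟩, hb⟩ := Metric.mem_closure_iff.mp hy ε hε
  exact ⟨g, hg, by rwa [dist_comm]⟩

end Pool.Agent.Work.MP_d2a4bb_nt.QA
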