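import Pool.Agent.Work.MP_d2a4bb_nt.QA.Stmts

set_option autoImplicit false

open Filter Topology

namespace Pool.Agent.Work.MP_d2a4bb_nt.QA

namespace I_DISC

/-- a linear functional is bounded by the entries -/
theorem bound (l : Mt →ₗ[ℝ] ℝ) (C : ℝ) (x : Mt) (hx : ∀ i j, |x i j| ≤ C) :
    |l x| ≤ |C| * ∑ i, ∑ j, |l (Matrix.single i j (1 : ℝ))| := by
  have e : l x = ∑ i, ∑ j, x i j * l (Matrix.single i j (1 : ℝ)) := by
    conv_lhs => rw [Matrix.matrix_eq_sum_single x]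
    rw [map_sum]
    refine Finset.sum_congr rfl fun i _ => ?_
    rw [map_sum]
    refine Finset.sum_congr rfl fun j _ => ?_
    have e2 : Matrix.single i j (x i j) = x i j • Matrix.single i j (1 : ℝ) := by
      rw [Matrix.smul_single, smul_eq_mul, mul_one]
    rw [e2, map_smul, smul_eq_mul]
  rw [e, Finset.mul_sum]
  refine le_trans (Finset.abs_sum_le_sum_abs _ _) (Finset.sum_le_sum fun i _ => ?_)
  rw [Finset.mul_sum]
  refine le_trans (Finset.abs_sum_le_sum_abs _ _) (Finset.sum_le_sum fun j _ => ?_)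
  rw [abs_mul]
  exact mul_le_mul_of_nonneg_right (le_trans (hx i j) (le_abs_self C)) (abs_nonneg _)

end I_DISC

theorem DISC_pf : S_DISC := by
  intro O hO C
  obtain ⟨b, hb⟩ := hO.lat
  let B : Fin 4 → ℝ := fun k => |C| * ∑ i, ∑ j, |b.coord k (Matrix.single i j (1 : ℝ))|
  let T : Set (Fin 4 → ℝ) := Set.pi Set.univ
    (fun k => (fun n : ℤ => (n : ℝ)) '' (Set.Icc (-⌈B k⌉) ⌈B k⌉))
  have hT : T.Finite := Set.Finite.pi fun k => (Set.finite_Icc _ _).image _
  have hinj : Set.InjOn (fun x : Mt => b.equivFun x)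
      ((fun x : Mt => b.equivFun x) ⁻¹' T) := fun x _ y _ h => b.equivFun.injective h
  refine (hT.preimage hinj).subset ?_
  rintro x ⟨hx, hxC⟩
  rw [Set.mem_preimage]
  intro k _
  have h1 : b.repr x k ∈ Set.range (algebraMap ℤ ℝ) :=
    (b.mem_span_iff_repr_mem ℤ x).1 ((hb x).1 hx) k
  obtain ⟨n, hn⟩ := h1
  have h2 : |b.coord k x| ≤ B k := I_DISC.bound (b.coord k) C x hxC
  have h3 : b.coord k x = (n : ℝ) := by
    rw [Module.Basis.coord_apply, ← hn]
    rfl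
  rw [h3, abs_le] at h2
  refine ⟨n, ⟨?_, ?_⟩, ?_⟩
  · have : (-(⌈B k⌉ : ℝ)) ≤ (n : ℝ) := le_trans (neg_le_neg (Int.le_ceil _)) h2.1
    exact_mod_cast this
  · have : (n : ℝ) ≤ (⌈B k⌉ : ℝ) := le_trans h2.2 (Int.le_ceil _)
    exact_mod_cast this
  · exact h3.symm

end Pool.Agent.Work.MP_d2a4bb_nt.QA
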