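import Pool.Agent.Work.MP_d2a4bb_nt.QA.Stmts

/-!
# Item DISG: finitely many elements of `SL2` with entries bounded and `c g` in `O`
-/

set_option autoImplicit false

namespace Pool.Agent.Work.MP_d2a4bb_nt.QA

theorem DISG_pf (hDISC : S_DISC) : S_DISG := by
  intro O hO c C hc
  have h1 := hDISC O hO (|c| * C)
  have hinj : Function.Injective (fun g : SL2 => c • (g : Mt)) := by
    intro g h hgh
    apply Subtype.ext
    exact smul_right_injective Mt hc hgh
  refine (h1.preimage hinj.injOn).subset ?_
  rintro g ⟨hg, hC⟩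
  refine ⟨hg, fun i j => ?_⟩
  change |c * (g : Mt) i j| ≤ |c| * C
  rw [abs_mul]
  exact mul_le_mul_of_nonneg_left (hC i j) (abs_nonneg c)

end Pool.Agent.Work.MP_d2a4bb_nt.QA
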