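import Pool.Agent.Work.MP_d2a4bb_nt.QA.Stmts

/-!
# Item GE: adjugates, inverses, products
-/

set_option autoImplicit false

open Filter Topology

namespace Pool.Agent.Work.MP_d2a4bb_nt.QA

namespace I_GE

lemma adj_eq (x : Mt) : x.adjugate = x.trace • (1 : Mt) - x := by
  rw [Matrix.adjugate_fin_two, Matrix.trace_fin_two]
  ext i j
  fin_cases i <;> fin_cases j <;> simp

lemma adj_mem (h1 : S_INT) (O : Subring Mt) (hO : QOrd O) (x : Mt) (hx : x ∈ O) :
    x.adjugate ∈ O := by
  obtain ⟨t, ht⟩ := (h1 O hO x hx).1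
  rw [adj_eq, ht]
  have e : ((t : ℝ) • (1 : Mt)) = ((t : ℤ) : Mt) := by
    ext i j
    fin_cases i <;> fin_cases j <;> simp [Matrix.intCast_apply]
  rw [e]
  exact O.sub_mem (intCast_mem O t) hx

lemma adj_smul (r : ℝ) (x : Mt) : (r • x).adjugate = r • x.adjugate := by
  rw [Matrix.adjugate_fin_two, Matrix.adjugate_fin_two]
  ext i j
  fin_cases i <;> fin_cases j <;> simp

end I_GE

open I_GE in
theorem GE_pf (h1 : S_INT) : S_GE := by
  intro O hO
  refine ⟨fun x hx => adj_mem h1 O hO x hx, ?_, ?_⟩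
  · intro g hg
    refine ⟨hg, ?_⟩
    rw [Matrix.SpecialLinearGroup.coe_inv]
    exact adj_mem h1 O hO _ hg
  · intro p
    refine ⟨?_, ?_, ?_⟩
    · intro g hg
      show Real.sqrt p • ((g⁻¹ : SL2) : Mt) ∈ O
      rw [Matrix.SpecialLinearGroup.coe_inv, ← adj_smul]
      exact adj_mem h1 O hO _ hg
    · intro c hc g hg
      constructor
      · show Real.sqrt p • ((c * g : SL2) : Mt) ∈ O
        rw [Matrix.SpecialLinearGroup.coe_mul, ← Matrix.mul_smul]
        exact O.mul_mem hc.1 hg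
      · show Real.sqrt p • ((g * c : SL2) : Mt) ∈ O
        rw [Matrix.SpecialLinearGroup.coe_mul, ← Matrix.smul_mul]
        exact O.mul_mem hg hc.1
    · intro g
      rw [Matrix.det_smul, g.det_coe, Fintype.card_fin, mul_one,
        Real.sq_sqrt (Nat.cast_nonneg p)]

end Pool.Agent.Work.MP_d2a4bb_nt.QA
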