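import Pool.Agent.Work.MP_d2a4bb_nt.QA.Stmts

/-!
# Item INF: infinitely many classes
-/

set_option autoImplicit false

open Filter Topology

namespace Pool.Agent.Work.MP_d2a4bb_nt.QA

namespace I_INF

theorem step {O : Subring Mt} {p : ℕ} {R : Finset SL2} (hR : IsReps O p R) (h2 : 2 ≤ R.card)
    (x : SL2) : ∃ b ∈ R, b * x ∉ Gam O := by
  obtain ⟨b, hb, b', hb', hne⟩ := Finset.one_lt_card.mp (by omega : 1 < R.card)
  by_contra hcon
  push Not at hcon
  apply hne
  apply hR.uniq b hb b' hb'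
  have h3 := (Gam O).mul_mem (hcon b hb) ((Gam O).inv_mem (hcon b' hb'))
  have h4 : b * x * (b' * x)⁻¹ = b * b'⁻¹ := by group
  rwa [h4] at h3

theorem word {O : Subring Mt} {p : ℕ} {R : Finset SL2} (hR : IsReps O p R) (h2 : 2 ≤ R.card) :
    ∃ a : ℕ → SL2, (∀ i, a i ∈ R) ∧ ∀ i, a (i + 1) * a i ∉ Gam O := by
  choose f hf hf' using step hR h2
  refine ⟨fun i => f^[i + 1] 1, ?_, ?_⟩
  · intro i
    simp only [Function.iterate_succ', Function.comp_apply]
    exact hf _
  · intro i
    have h3 : f^[i + 1 + 1] (1 : SL2) = f (f^[i + 1] 1) := by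
      rw [Function.iterate_succ' f (i + 1), Function.comp_apply]
    simp only [h3]
    exact hf' _

end I_INF

open I_INF in
theorem INF_pf (h1 : S_TREE) : S_INF := by
  intro O p R hO hp hS hR h2
  obtain ⟨a, ha, ha'⟩ := word hR h2
  have hNB : ∀ L, NB O a L := fun L i _ => ha' i
  refine ⟨fun j => vw a (2 * j), ?_, ?_⟩
  · intro j
    induction j with
    | zero =>
      show vw a 0 ∈ Lam O p
      exact (Lam O p).one_mem
    | succ j ih =>
      have h3 : vw a (2 * (j + 1)) = (a (2 * j + 1) * a (2 * j)) * vw a (2 * j) := by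
        show a (2 * j + 1) * (a (2 * j) * vw a (2 * j)) = _
        rw [mul_assoc]
      show vw a (2 * (j + 1)) ∈ Lam O p
      rw [h3]
      refine (Lam O p).mul_mem (Subgroup.subset_closure ?_) ih
      exact ⟨_, hR.mem _ (ha _), _, hR.mem _ (ha _), rfl⟩
  · intro i j hij hmem
    have h4 := (h1 O p R hO hp hS hR (2 * i) (2 * j) a a (fun i _ => ha i) (fun i _ => ha i)
      (hNB _) (hNB _) hmem).1
    omega

end Pool.Agent.Work.MP_d2a4bb_nt.QA
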