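import Pool.Agent.Work.MP_d2a4bb_nt.QA.Stmts

/-!
# QA, item INT: traces and determinants of the elements of an order are integers
-/

set_option autoImplicit false

open Filter Topology

namespace Pool.Agent.Work.MP_d2a4bb_nt.QA

namespace I_INT

/-- the trace of left multiplication is twice the trace -/
theorem trace_mulLeft (x : Mt) : LinearMap.trace ℝ Mt (LinearMap.mulLeft ℝ x) = 2 * x.trace := by
  rw [LinearMap.trace_eq_matrix_trace ℝ (Matrix.stdBasis ℝ (Fin 2) (Fin 2))]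
  rw [Matrix.trace]
  simp only [Matrix.diag_apply, LinearMap.toMatrix_apply, Fintype.sum_prod_type,
    Fin.sum_univ_two, LinearMap.mulLeft_apply, Matrix.trace]
  simp [Matrix.stdBasis, Matrix.mul_apply, Fin.sum_univ_two]
  ring

/-- twice the trace is an integer -/
theorem two_trace {O : Subring Mt} (hO : QOrd O) {x : Mt} (hx : x ∈ O) :
    ∃ a : ℤ, 2 * x.trace = (a : ℝ) := by
  obtain ⟨b, hb⟩ := hO.lat
  have hint : ∀ y ∈ O, ∀ i, ∃ a : ℤ, b.repr y i = (a : ℝ) := by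
    intro y hy i
    have h := (b.mem_span_iff_repr_mem ℤ y).1 ((hb y).1 hy) i
    obtain ⟨a, ha⟩ := h
    exact ⟨a, by rw [← ha]; simp⟩
  rw [← trace_mulLeft, LinearMap.trace_eq_matrix_trace ℝ b, Matrix.trace]
  have h2 : ∀ i, ∃ a : ℤ, (LinearMap.toMatrix b b (LinearMap.mulLeft ℝ x)).diag i = (a : ℝ) := by
    intro i
    rw [Matrix.diag_apply, LinearMap.toMatrix_apply, LinearMap.mulLeft_apply]
    refine hint _ (O.mul_mem hx ?_) i
    rw [hb]
    exact Submodule.subset_span ⟨i, rfl⟩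
  choose a ha using h2
  refine ⟨∑ i, a i, ?_⟩
  push_cast
  exact Finset.sum_congr rfl fun i _ => ha i

theorem trace_sq (x : Mt) : (x ^ 2).trace = x.trace ^ 2 - 2 * x.det := by
  rw [Matrix.det_fin_two, pow_two x, Matrix.trace, Matrix.trace]
  simp only [Matrix.diag_apply, Fin.sum_univ_two, Matrix.mul_apply]
  ring

theorem eight_det {O : Subring Mt} (hO : QOrd O) {x : Mt} (hx : x ∈ O) :
    ∃ a c : ℤ, 2 * x.trace = (a : ℝ) ∧ 8 * x.det = ((a ^ 2 - 2 * c : ℤ) : ℝ) := by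
  obtain ⟨a, ha⟩ := two_trace hO hx
  obtain ⟨c, hc⟩ := two_trace hO (O.pow_mem hx 2)
  refine ⟨a, c, ha, ?_⟩
  rw [trace_sq] at hc
  push_cast
  rw [← ha, ← hc]; ring

/-- a real number all of whose powers are integers divided by eight is an integer -/
theorem int_of_pow {y : ℝ} (h : ∀ j : ℕ, ∃ m : ℤ, 8 * y ^ j = (m : ℝ)) : ∃ n : ℤ, y = n := by
  obtain ⟨m, hm⟩ := h 1
  rw [pow_one] at hm
  -- y is rational
  set q : ℚ := (m : ℚ) / 8 with hq
  have hyq : y = (q : ℝ) := by rw [hq]; push_cast; linarith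
  have hpow : ∀ j : ℕ, ∃ k : ℤ, 8 * q ^ j = (k : ℚ) := by
    intro j
    obtain ⟨k, hk⟩ := h j
    refine ⟨k, ?_⟩
    rw [hyq] at hk
    exact_mod_cast hk
  have hden : ∀ j : ℕ, q.den ^ j ∣ 8 := by
    intro j
    obtain ⟨k, hk⟩ := hpow j
    have h1 : (8 : ℚ) * (q.num : ℚ) ^ j = (k : ℚ) * (q.den : ℚ) ^ j := by
      have h2 : (q.num : ℚ) = q * (q.den : ℚ) := (Rat.mul_den_eq_num q).symm
      rw [h2, mul_pow, ← hk]; ring
    have h4 : (8 : ℤ) * q.num ^ j = k * (q.den : ℤ) ^ j := by exact_mod_cast h1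
    have h5 : ((q.den : ℤ) ^ j) ∣ 8 * q.num ^ j := ⟨k, by rw [h4]; ring⟩
    have h6 : IsCoprime ((q.den : ℤ) ^ j) (q.num ^ j) := by
      refine IsCoprime.pow ?_
      rw [Int.isCoprime_iff_gcd_eq_one]
      have := q.reduced
      rw [Nat.Coprime] at this
      rw [Int.gcd_comm, Int.gcd]
      simpa using this
    have h7 : ((q.den : ℤ) ^ j) ∣ 8 := h6.dvd_of_dvd_mul_right h5
    exact_mod_cast h7
  have hd1 : q.den = 1 := by
    by_contra hne
    have h2 : 2 ≤ q.den := by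
      have := q.den_pos
      omega
    have h3 := Nat.le_of_dvd (by norm_num) (hden 4)
    have h4 : 2 ^ 4 ≤ q.den ^ 4 := Nat.pow_le_pow_left h2 4
    omega
  refine ⟨q.num, ?_⟩
  rw [hyq]
  have : (q : ℚ) = (q.num : ℚ) := by
    conv_lhs => rw [← Rat.num_div_den q, hd1]
    simp
  exact_mod_cast this

end I_INT

theorem INT_pf : S_INT := by
  intro O hO x hx
  have hn : ∃ n : ℤ, x.det = (n : ℝ) := by
    refine I_INT.int_of_pow fun j => ?_
    obtain ⟨a, c, _, h⟩ := I_INT.eight_det hO (O.pow_mem hx j)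
    rw [Matrix.det_pow] at h
    exact ⟨_, h⟩
  refine ⟨?_, hn⟩
  obtain ⟨n, hn⟩ := hn
  obtain ⟨a, c, ha, h8⟩ := I_INT.eight_det hO hx
  rw [hn] at h8
  have h9 : (8 : ℤ) * n = a ^ 2 - 2 * c := by exact_mod_cast h8
  have hev : Even a := by
    have h10 : Even (a ^ 2) := ⟨4 * n + c, by linarith⟩
    exact (Int.even_pow.1 h10).1
  obtain ⟨t, ht⟩ := hev
  refine ⟨t, ?_⟩
  rw [ht] at ha
  push_cast at ha
  linarith

end Pool.Agent.Work.MP_d2a4bb_nt.QA
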