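import Pool.Agent.Work.MP_d2a4bb_nt.QA.Stmts

/-!
# Item IRR: `y ∈ O` and `√p y ∈ O` imply `y = 0`
-/

set_option autoImplicit false

open Filter Topology

namespace Pool.Agent.Work.MP_d2a4bb_nt.QA

theorem IRR_pf (h1 : S_INT) (h2 : S_GE) : S_IRR := by
  intro O p hO hp y hy hpy
  by_contra hy0
  have hdet := hO.div y hy hy0
  obtain ⟨_, n, hn⟩ := h1 O hO y hy
  have hadj : y.adjugate ∈ O := (h2 O hO).1 y hy
  have hm : (Real.sqrt p • y) * y.adjugate ∈ O := O.mul_mem hpy hadj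
  obtain ⟨⟨t, ht⟩, _⟩ := h1 O hO _ hm
  rw [smul_mul_assoc, Matrix.mul_adjugate, Matrix.trace_smul, Matrix.trace_smul, Matrix.trace_one,
    Fintype.card_fin, hn] at ht
  simp only [smul_eq_mul, Nat.cast_ofNat] at ht
  have hn0 : n ≠ 0 := by
    rintro rfl
    exact hdet (by simpa using hn)
  have hirr : Irrational (Real.sqrt p) := hp.irrational_sqrt
  have h3 : Irrational (Real.sqrt p * ((n * 2 : ℤ) : ℝ)) :=
    hirr.mul_intCast (by simpa using hn0)
  refine h3.ne_int t ?_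
  push_cast
  exact ht

end Pool.Agent.Work.MP_d2a4bb_nt.QA
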