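import Pool.Agent.Work.MP_d2a4bb_nt.QA.Stmts

/-!
# MP_d2a4bb_nt, block QA, item KER.  Author: helper73
-/

set_option autoImplicit false

namespace Pool.Agent.Work.MP_d2a4bb_nt.QA

theorem KER_pf : S_KER := by
  intro K _ A B h
  have hk : LinearMap.ker (Matrix.toLin' A) ≤ LinearMap.ker (Matrix.toLin' B) := by
    intro v hv
    rw [LinearMap.mem_ker, Matrix.toLin'_apply] at hv ⊢
    exact h v hv
  obtain ⟨C, hC⟩ := LinearMap.exists_extend
    (((LinearMap.ker (Matrix.toLin' A)).liftQ (Matrix.toLin' B) hk).comp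
      (Matrix.toLin' A).quotKerEquivRange.symm.toLinearMap)
  refine ⟨LinearMap.toMatrix' C, ?_⟩
  apply Matrix.toLin'.injective
  rw [Matrix.toLin'_mul, Matrix.toLin'_toMatrix']
  ext v : 1
  apply LinearMap.ext
  intro c
  rw [LinearMap.comp_apply, LinearMap.comp_apply, LinearMap.comp_apply]
  set y := LinearMap.single K (fun _ : Fin 2 => K) v c with hy
  have h1 := LinearMap.congr_fun hC ⟨Matrix.toLin' A y, LinearMap.mem_range_self _ y⟩
  rw [LinearMap.comp_apply, LinearMap.comp_apply] at h1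
  have h2 : (Matrix.toLin' A).quotKerEquivRange.symm
      ⟨Matrix.toLin' A y, LinearMap.mem_range_self _ y⟩ = Submodule.Quotient.mk y := by
    rw [LinearEquiv.symm_apply_eq]
    rfl
  have h3 : C (Matrix.toLin' A y) = Matrix.toLin' B y := by
    have h4 : C (Matrix.toLin' A y) = ((LinearMap.ker (Matrix.toLin' A)).liftQ (Matrix.toLin' B) hk)
      ((Matrix.toLin' A).quotKerEquivRange.symm
        ⟨Matrix.toLin' A y, LinearMap.mem_range_self _ y⟩) := h1
    rw [h4, h2, Submodule.liftQ_apply]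
  exact h3.symm

end Pool.Agent.Work.MP_d2a4bb_nt.QA
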