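import Pool.Agent.Work.MP_d2a4bb_nt.QA.Stmts

/-!
# Local structure at `p`
-/

set_option autoImplicit false

open Filter Topology

namespace Pool.Agent.Work.MP_d2a4bb_nt.QA

namespace I_LOC

theorem coe_natCast_mul (O : Subring Mt) (p : ℕ) (y : O) :
    (((p : O) * y : O) : Mt) = (p : ℝ) • (y : Mt) := by
  rw [← nsmul_eq_mul, Nat.cast_smul_eq_nsmul]
  rfl

theorem det_smul2 (p : ℝ) (y : Mt) : (p • y).det = p ^ 2 * y.det := by
  rw [Matrix.det_smul]
  simp

theorem det_adj (x : Mt) : x.adjugate.det = x.det := by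
  rw [Matrix.det_adjugate]
  simp

end I_LOC

theorem LOC_pf (hINT : S_INT) (hGE : S_GE) (hKER : S_KER) : S_LOC := by
  intro O p hO hp φ hsurj hker
  have : Fact p.Prime := ⟨hp⟩
  have hI := hINT O hO
  have hadj := (hGE O hO).1
  have hp0 : (p : ℝ) ≠ 0 := by exact_mod_cast hp.ne_zero
  have hφp : φ (p : O) = 0 := (hker _).2 ⟨1, (mul_one _).symm⟩
  -- elements of norm `p` are not in `p O`
  have hne : ∀ x : O, (x : Mt).det = p → φ x ≠ 0 := by
    intro x hx h0
    obtain ⟨y, hy⟩ := (hker x).1 h0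
    have h1 : (x : Mt) = (p : ℝ) • (y : Mt) := by
      rw [hy]
      exact I_LOC.coe_natCast_mul O p y
    obtain ⟨n, hn⟩ := (hI (y : Mt) y.2).2
    rw [h1, I_LOC.det_smul2, hn] at hx
    have h2 : (p : ℝ) * n = 1 := by
      have : (p : ℝ) * ((p : ℝ) * n) = (p : ℝ) * 1 := by
        rw [mul_one]
        linarith
      exact mul_left_cancel₀ hp0 this
    have h3 : (p : ℤ) * n = 1 := by exact_mod_cast h2
    have h4 : (p : ℤ) ∣ 1 := ⟨n, h3.symm⟩
    have h5 : p ∣ 1 := by exact_mod_cast h4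
    exact hp.one_lt.ne' (Nat.dvd_one.1 h5)
  -- the conjugate
  have hconj : ∀ x : O, ∃ xs : O, (xs : Mt) = (x : Mt).adjugate := fun x =>
    ⟨⟨(x : Mt).adjugate, hadj x x.2⟩, rfl⟩
  have hmul : ∀ x xs : O, (x : Mt).det = p → (xs : Mt) = (x : Mt).adjugate →
      x * xs = (p : O) ∧ xs * x = (p : O) := by
    intro x xs hx hxs
    constructor
    · refine Subtype.ext ?_
      change (x : Mt) * (xs : Mt) = ((p : O) : Mt)
      rw [hxs, Matrix.mul_adjugate, hx]
      have := I_LOC.coe_natCast_mul O p 1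
      rw [mul_one] at this
      exact this.symm
    · refine Subtype.ext ?_
      change (xs : Mt) * (x : Mt) = ((p : O) : Mt)
      rw [hxs, Matrix.adjugate_mul, hx]
      have := I_LOC.coe_natCast_mul O p 1
      rw [mul_one] at this
      exact this.symm
  refine ⟨fun x hx => ⟨?_, hne x hx⟩, fun x y hx hy hxy => ?_, fun x x' hx hx' hv => ?_,
    fun c x hc v => ?_⟩
  · by_contra hdet
    obtain ⟨xs, hxs⟩ := hconj x
    have h1 : φ x * φ xs = 0 := by
      rw [← map_mul, (hmul x xs hx hxs).1, hφp]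
    have h2 : (φ x).det • φ xs = 0 := by
      have h3 : (φ x).adjugate * (φ x * φ xs) = 0 := by rw [h1, mul_zero]
      rw [← mul_assoc, Matrix.adjugate_mul, smul_mul_assoc, one_mul] at h3
      exact h3
    rcases smul_eq_zero.1 h2 with h | h
    · exact hdet h
    · refine hne xs ?_ h
      rw [hxs, I_LOC.det_adj, hx]
  · obtain ⟨z, hz⟩ := (hker _).1 hxy
    have h1 : (x : Mt) * (y : Mt) = (p : ℝ) • (z : Mt) := by
      have h2 : ((x * y : O) : Mt) = (((p : O) * z : O) : Mt) := congrArg _ hz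
      rw [I_LOC.coe_natCast_mul] at h2
      exact h2
    refine ⟨z, ?_, h1⟩
    have h3 := congrArg Matrix.det h1
    rw [Matrix.det_mul, hx, hy, I_LOC.det_smul2] at h3
    have h4 : (p : ℝ) ^ 2 ≠ 0 := pow_ne_zero 2 hp0
    refine mul_left_cancel₀ h4 ?_
    rw [← h3, mul_one, sq]
  · obtain ⟨C, hC⟩ := hKER (ZMod p) (φ x) (φ x') hv
    obtain ⟨β, hβ⟩ := hsurj C
    obtain ⟨xs, hxs⟩ := hconj x
    have h1 : φ (x' - β * x) = 0 := by
      rw [map_sub, map_mul, hβ, ← hC, sub_self]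
    obtain ⟨y, hy⟩ := (hker _).1 h1
    have h2 : x' = (β + y * xs) * x := by
      have h3 : (p : O) * y = y * xs * x := by
        rw [mul_assoc, (hmul x xs hx hxs).2, Nat.cast_comm]
      rw [add_mul, ← h3, ← hy]
      abel
    refine ⟨β + y * xs, ?_, h2⟩
    have h4 : (x' : Mt) = ((β + y * xs : O) : Mt) * (x : Mt) := congrArg _ h2
    have h5 := congrArg Matrix.det h4
    rw [Matrix.det_mul, hx, hx'] at h5
    refine mul_right_cancel₀ hp0 ?_
    rw [← h5, one_mul]
  · obtain ⟨cs, hcs⟩ := hconj c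
    have h1 : cs * c = 1 := by
      refine Subtype.ext ?_
      change (cs : Mt) * (c : Mt) = ((1 : O) : Mt)
      rw [hcs, Matrix.adjugate_mul, hc, one_smul]
      rfl
    have h2 : φ cs * φ c = 1 := by rw [← map_mul, h1, map_one]
    rw [map_mul, ← Matrix.mulVec_mulVec]
    constructor
    · intro h
      have h3 : (φ cs).mulVec ((φ c).mulVec ((φ x).mulVec v)) = 0 := by
        rw [h, Matrix.mulVec_zero]
      rwa [Matrix.mulVec_mulVec, h2, Matrix.one_mulVec] at h3
    · intro h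
      rw [h, Matrix.mulVec_zero]

end Pool.Agent.Work.MP_d2a4bb_nt.QA
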