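import Pool.Agent.Work.MP_d2a4bb_nt.QA.Stmts

/-!
# Item MINK: Minkowski's theorem for the lattices `g O`
-/

set_option autoImplicit false

open Filter Topology MeasureTheory

namespace Pool.Agent.Work.MP_d2a4bb_nt.QA

namespace I_MINK

/-- the entries of a matrix -/
noncomputable def ent : Mt ≃ₗ[ℝ] (Fin 4 → ℝ) where
  toFun x := ![x 0 0, x 0 1, x 1 0, x 1 1]
  map_add' x y := by
    ext i
    fin_cases i <;> rfl
  map_smul' c x := by
    ext i
    fin_cases i <;> rfl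
  invFun y := !![y 0, y 1; y 2, y 3]
  left_inv x := by
    ext i j
    fin_cases i <;> fin_cases j <;> rfl
  right_inv y := by
    ext i
    fin_cases i <;> rfl

/-- left multiplication in terms of the entries -/
noncomputable def lm (g : Mt) : Matrix (Fin 4) (Fin 4) ℝ :=
  !![g 0 0, 0, g 0 1, 0; 0, g 0 0, 0, g 0 1; g 1 0, 0, g 1 1, 0; 0, g 1 0, 0, g 1 1]

theorem lm_det (g : Mt) : (lm g).det = g.det ^ 2 := by
  rw [Matrix.det_fin_two, lm, Matrix.det_succ_row_zero]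
  simp [Fin.sum_univ_succ, Matrix.det_fin_three, Fin.succAbove]
  ring

theorem lm_apply (g x : Mt) (i j : Fin 2) :
    ∃ k : Fin 4, (g * x) i j = (lm g).mulVec (ent x) k := by
  fin_cases i <;> fin_cases j
  · refine ⟨0, ?_⟩
    simp [lm, ent, Matrix.mulVec, dotProduct, Fin.sum_univ_succ, Matrix.mul_apply]
  · refine ⟨1, ?_⟩
    simp [lm, ent, Matrix.mulVec, dotProduct, Fin.sum_univ_succ, Matrix.mul_apply]
  · refine ⟨2, ?_⟩
    simp [lm, ent, Matrix.mulVec, dotProduct, Fin.sum_univ_succ, Matrix.mul_apply]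
  · refine ⟨3, ?_⟩
    simp [lm, ent, Matrix.mulVec, dotProduct, Fin.sum_univ_succ, Matrix.mul_apply]

end I_MINK

open I_MINK in
/-- item MINK -/
theorem MINK_pf : S_MINK := by
  intro O hO
  obtain ⟨b, hb⟩ := hO.lat
  let fB : (Fin 4 → ℝ) ≃ₗ[ℝ] (Fin 4 → ℝ) := b.equivFun.symm.trans ent
  obtain ⟨δ, hδ⟩ : ∃ δ, δ = LinearMap.det (fB : (Fin 4 → ℝ) →ₗ[ℝ] (Fin 4 → ℝ)) := ⟨_, rfl⟩
  have hδ0 : δ ≠ 0 := by
    rw [hδ]
    exact (LinearEquiv.isUnit_det' fB).ne_zero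
  have hδp : 0 < |δ| := abs_pos.2 hδ0
  refine ⟨1 + |δ|, by positivity, fun g => ?_⟩
  let f : (Fin 4 → ℝ) →ₗ[ℝ] (Fin 4 → ℝ) := (Matrix.toLin' (lm (g : Mt))).comp
    (fB : (Fin 4 → ℝ) →ₗ[ℝ] (Fin 4 → ℝ))
  have hf : LinearMap.det f = δ := by
    show LinearMap.det ((Matrix.toLin' (lm (g : Mt))).comp
      (fB : (Fin 4 → ℝ) →ₗ[ℝ] (Fin 4 → ℝ))) = δ
    rw [LinearMap.det_comp, LinearMap.det_toLin', lm_det, g.det_coe, one_pow, one_mul, hδ]
  let s : Set (Fin 4 → ℝ) := f ⁻¹' (Metric.ball 0 (1 + |δ|))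
  have hvol : volume s = ENNReal.ofReal (|δ⁻¹| * (2 * (1 + |δ|)) ^ 4) := by
    show volume (f ⁻¹' (Metric.ball 0 (1 + |δ|))) = _
    rw [Measure.addHaar_preimage_linearMap volume (by rw [hf]; exact hδ0), hf,
      Real.volume_pi_ball _ (by positivity), Fintype.card_fin,
      ← ENNReal.ofReal_mul (abs_nonneg _)]
  have hlt : volume (ZSpan.fundamentalDomain (Pi.basisFun ℝ (Fin 4))) *
      2 ^ Module.finrank ℝ (Fin 4 → ℝ) < volume s := by
    have h1 : volume (ZSpan.fundamentalDomain (Pi.basisFun ℝ (Fin 4))) = 1 := by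
      rw [ZSpan.fundamentalDomain_pi_basisFun, volume_pi, Measure.pi_pi, Real.volume_Ico,
        sub_zero, ENNReal.ofReal_one, Finset.prod_const_one]
    rw [h1, one_mul, Module.finrank_fin_fun, hvol]
    have h2 : (2 : ENNReal) ^ 4 = ENNReal.ofReal 16 := by
      rw [show (16 : ℝ) = 2 ^ 4 by norm_num, ENNReal.ofReal_pow (by norm_num)]
      simp
    rw [h2]
    have h3 : (16 : ℝ) < |δ⁻¹| * (2 * (1 + |δ|)) ^ 4 := by
      rw [abs_inv, mul_pow, lt_inv_mul_iff₀ hδp]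
      have h4 : 1 + |δ| ≤ (1 + |δ|) ^ 4 := by
        have h5 : (1 : ℝ) ≤ 1 + |δ| := by linarith
        calc 1 + |δ| = (1 + |δ|) ^ 1 := (pow_one _).symm
          _ ≤ (1 + |δ|) ^ 4 := pow_le_pow_right₀ h5 (by norm_num)
      nlinarith
    exact (ENNReal.ofReal_lt_ofReal_iff (by linarith)).2 h3
  have hsym : ∀ x ∈ s, -x ∈ s := by
    intro x hx
    show f (-x) ∈ Metric.ball 0 (1 + |δ|)
    have hx' : f x ∈ Metric.ball 0 (1 + |δ|) := hx
    rw [mem_ball_zero_iff] at hx' ⊢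
    rw [map_neg, norm_neg]
    exact hx'
  have hconv : Convex ℝ s := (convex_ball (0 : Fin 4 → ℝ) (1 + |δ|)).linear_preimage f
  have hc : Countable (Submodule.span ℤ (Set.range (Pi.basisFun ℝ (Fin 4)))) := inferInstance
  have hc' : Countable (Submodule.span ℤ (Set.range (Pi.basisFun ℝ (Fin 4)))).toAddSubgroup := hc
  obtain ⟨y, hy0, hys⟩ := exists_ne_zero_mem_lattice_of_measure_mul_two_pow_lt_measure
    (ZSpan.isAddFundamentalDomain' (Pi.basisFun ℝ (Fin 4)) volume) hsym hconv hlt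
  set z : Fin 4 → ℝ := (y : Fin 4 → ℝ) with hz
  have hyz : z ∈ Submodule.span ℤ (Set.range (Pi.basisFun ℝ (Fin 4))) := y.2
  have hz0 : z ≠ 0 := fun h => hy0 (Subtype.ext h)
  refine ⟨b.equivFun.symm z, ?_, ?_, ?_⟩
  · rw [hb, b.mem_span_iff_repr_mem ℤ]
    rw [(Pi.basisFun ℝ (Fin 4)).mem_span_iff_repr_mem ℤ] at hyz
    intro i
    have h6 := hyz i
    rw [Pi.basisFun_repr] at h6
    have h7 : b.repr (b.equivFun.symm z) i = z i := by
      rw [← Module.Basis.equivFun_apply, LinearEquiv.apply_symm_apply]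
    rw [h7]
    exact h6
  · intro h
    apply hz0
    have h8 := congrArg b.equivFun h
    rwa [LinearEquiv.apply_symm_apply, map_zero] at h8
  · intro i j
    obtain ⟨k, hk⟩ := lm_apply (g : Mt) (b.equivFun.symm z) i j
    rw [hk]
    have h9 : f z ∈ Metric.ball 0 (1 + |δ|) := hys
    rw [mem_ball_zero_iff] at h9
    have h10 : (lm (g : Mt)).mulVec (ent (b.equivFun.symm z)) k = f z k := rfl
    rw [h10, ← Real.norm_eq_abs]
    exact ((norm_le_pi_norm (f z) k).trans h9.le)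

end Pool.Agent.Work.MP_d2a4bb_nt.QA
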