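import Mathlib
import Pool.Agent.Work.MP_d2a4bb_nt.QA.Stmts

/-!
# Block QA of MP_d2a4bb_nt, item NEAR: nearest points of closed invariant sets
-/

set_option autoImplicit false

open Filter Topology

namespace Pool.Agent.Work.MP_d2a4bb_nt.QA

namespace I_NEAR

/-- the vector `(a y + b) - w (c y + d)` -/
noncomputable def zz (w y : ℂ) (M : Mt) : ℂ :=
  (M 0 0 : ℂ) * y + (M 0 1 : ℂ) - w * ((M 1 0 : ℂ) * y + (M 1 1 : ℂ))

theorem det_eq (g : SL2) : g 0 0 * g 1 1 - g 0 1 * g 1 0 = 1 := by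
  have h := g.det_coe
  rw [Matrix.det_fin_two] at h
  exact h

theorem denom_ne (g : SL2) (y : UpperHalfPlane) :
    ((g 1 0 : ℝ) : ℂ) * (y : ℂ) + ((g 1 1 : ℝ) : ℂ) ≠ 0 := by
  intro h
  have him := congrArg Complex.im h
  have hre := congrArg Complex.re h
  simp only [Complex.add_im, Complex.mul_im, Complex.ofReal_re, Complex.ofReal_im, zero_mul,
    add_zero, Complex.zero_im, Complex.add_re, Complex.mul_re, sub_zero, Complex.zero_re] at him hre
  have hy : (y : ℂ).im ≠ 0 := ne_of_gt y.im_pos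
  have hc : g 1 0 = 0 := by
    rcases mul_eq_zero.1 him with h | h
    · exact h
    · exact absurd h hy
  have hd : g 1 1 = 0 := by
    rw [hc] at hre
    linarith
  have := det_eq g
  rw [hc, hd] at this
  norm_num at this

theorem smul_coe (g : SL2) (y : UpperHalfPlane) :
    ((g • y : UpperHalfPlane) : ℂ) = (((g 0 0 : ℝ) : ℂ) * (y : ℂ) + ((g 0 1 : ℝ) : ℂ)) /
      (((g 1 0 : ℝ) : ℂ) * (y : ℂ) + ((g 1 1 : ℝ) : ℂ)) := by
  rw [UpperHalfPlane.coe_specialLinearGroup_apply]
  rfl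

theorem smul_im (g : SL2) (y : UpperHalfPlane) :
    (g • y).im * Complex.normSq (((g 1 0 : ℝ) : ℂ) * (y : ℂ) + ((g 1 1 : ℝ) : ℂ)) = y.im := by
  have hN : Complex.normSq (((g 1 0 : ℝ) : ℂ) * (y : ℂ) + ((g 1 1 : ℝ) : ℂ)) ≠ 0 := by
    rw [Ne, Complex.normSq_eq_zero]
    exact denom_ne g y
  have h1 : (g • y).im = ((g • y : UpperHalfPlane) : ℂ).im := rfl
  rw [h1, smul_coe, Complex.div_im]
  have hd := det_eq g
  have h2 : y.im = (y : ℂ).im := rfl
  rw [h2]
  set N := Complex.normSq (((g 1 0 : ℝ) : ℂ) * (y : ℂ) + ((g 1 1 : ℝ) : ℂ)) with hNdef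
  rw [sub_mul, div_mul_cancel₀ _ hN, div_mul_cancel₀ _ hN]
  simp only [Complex.add_im, Complex.mul_im, Complex.ofReal_re, Complex.ofReal_im, zero_mul,
    add_zero, Complex.add_re, Complex.mul_re, sub_zero]
  linear_combination (y : ℂ).im * hd

/-- the inequality at the nearest point -/
theorem key (g : SL2) (y w : UpperHalfPlane) (h : dist w y ≤ dist w (g • y)) :
    Complex.normSq ((y : ℂ) - (w : ℂ)) ≤ Complex.normSq (zz w y (g : Mt)) := by
  have h1 : Real.cosh (dist y w) ≤ Real.cosh (dist (g • y) w) := by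
    rw [Real.cosh_le_cosh, abs_of_nonneg dist_nonneg, abs_of_nonneg dist_nonneg, dist_comm y w,
      dist_comm (g • y) w]
    exact h
  rw [UpperHalfPlane.cosh_dist, UpperHalfPlane.cosh_dist] at h1
  have h2 := le_of_add_le_add_left h1
  set B : ℂ := ((g 1 0 : ℝ) : ℂ) * (y : ℂ) + ((g 1 1 : ℝ) : ℂ) with hB
  set A : ℂ := ((g 0 0 : ℝ) : ℂ) * (y : ℂ) + ((g 0 1 : ℝ) : ℂ) with hA
  have hBne : B ≠ 0 := denom_ne g y
  have hN : 0 < Complex.normSq B := Complex.normSq_pos.2 hBne
  have him := smul_im g y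
  rw [← hB] at him
  have hy := y.im_pos
  have hw := w.im_pos
  have hgy := (g • y).im_pos
  have e1 : dist (y : ℂ) (w : ℂ) ^ 2 = Complex.normSq ((y : ℂ) - (w : ℂ)) := by
    rw [Complex.dist_eq, Complex.sq_norm]
  have e2 : dist ((g • y : UpperHalfPlane) : ℂ) (w : ℂ) ^ 2 * Complex.normSq B =
      Complex.normSq (zz w y (g : Mt)) := by
    rw [Complex.dist_eq, Complex.sq_norm, ← Complex.normSq_mul, smul_coe]
    congr 1
    rw [← hA, ← hB, sub_mul, div_mul_cancel₀ _ hBne]
    rfl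
  rw [e1, div_le_div_iff₀ (by positivity) (by positivity)] at h2
  -- h2 : normSq (y - w) * (2 * (g • y).im * w.im) ≤ dist ^ 2 * (2 * y.im * w.im)
  rw [← e2]
  have h3 : Complex.normSq ((y : ℂ) - (w : ℂ)) * (2 * (g • y).im * w.im) ≤
      dist ((g • y : UpperHalfPlane) : ℂ) (w : ℂ) ^ 2 * Complex.normSq B *
        (2 * (g • y).im * w.im) := by
    calc Complex.normSq ((y : ℂ) - (w : ℂ)) * (2 * (g • y).im * w.im)
        ≤ dist ((g • y : UpperHalfPlane) : ℂ) (w : ℂ) ^ 2 * (2 * y.im * w.im) := h2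
      _ = _ := by
        rw [← him]
        ring
  exact le_of_mul_le_mul_right h3 (by positivity)

/-- one sided derivative at the nearest point -/
theorem nonneg (Λ : Subgroup SL2) (y w : UpperHalfPlane)
    (hmin : ∀ g ∈ Λ, dist w y ≤ dist w (g • y)) (X : Mt) (hX : Tan Λ X) : 0 ≤ Dw w y X := by
  obtain ⟨g, r, hg, hr, hr0, hlim⟩ := hX
  set Xn : ℕ → Mt := fun n => (r n)⁻¹ • ((g n : Mt) - 1) with hXn
  have hgn : ∀ n, (g n : Mt) = 1 + r n • Xn n := by
    intro n
    simp only [hXn, smul_smul, mul_inv_cancel₀ (hr n).ne', one_smul]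
    abel
  have hent : ∀ i j, Tendsto (fun n => Xn n i j) atTop (𝓝 (X i j)) := by
    intro i j
    exact ((continuous_apply j).comp (continuous_apply i)).continuousAt.tendsto.comp hlim
  set u : ℂ := (y : ℂ) - (w : ℂ) with hu
  have hzz : ∀ n, zz w y (g n : Mt) = u + (r n : ℂ) * zz w y (Xn n) := by
    intro n
    rw [hgn n]
    simp only [zz, Matrix.add_apply, Matrix.smul_apply, smul_eq_mul, Matrix.one_apply_eq,
      Complex.ofReal_add, Complex.ofReal_mul, Complex.ofReal_one]
    rw [Matrix.one_apply_ne (by decide : (0 : Fin 2) ≠ 1),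
      Matrix.one_apply_ne (by decide : (1 : Fin 2) ≠ 0)]
    simp only [Complex.ofReal_zero, hu]
    ring
  have hineq : ∀ n, 0 ≤ 2 * (starRingEnd ℂ u * zz w y (Xn n)).re +
      r n * Complex.normSq (zz w y (Xn n)) := by
    intro n
    have h1 := key (g n) y w (hmin (g n) (hg n))
    rw [hzz n] at h1
    have h2 : Complex.normSq (u + (r n : ℂ) * zz w y (Xn n)) = Complex.normSq u +
        r n * (2 * (starRingEnd ℂ u * zz w y (Xn n)).re +
          r n * Complex.normSq (zz w y (Xn n))) := by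
      simp only [Complex.normSq_apply, Complex.add_re, Complex.add_im, Complex.mul_re,
        Complex.mul_im, Complex.ofReal_re, Complex.ofReal_im, Complex.conj_re, Complex.conj_im]
      ring
    rw [h2] at h1
    have h3 : 0 ≤ r n * (2 * (starRingEnd ℂ u * zz w y (Xn n)).re +
        r n * Complex.normSq (zz w y (Xn n))) := by linarith
    exact nonneg_of_mul_nonneg_right h3 (hr n)
  have hZ : Tendsto (fun n => zz w y (Xn n)) atTop (𝓝 (zz w y X)) := by
    have h00 := (Complex.continuous_ofReal.tendsto _).comp (hent 0 0)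
    have h01 := (Complex.continuous_ofReal.tendsto _).comp (hent 0 1)
    have h10 := (Complex.continuous_ofReal.tendsto _).comp (hent 1 0)
    have h11 := (Complex.continuous_ofReal.tendsto _).comp (hent 1 1)
    exact ((h00.mul_const _).add h01).sub (((h10.mul_const _).add h11).const_mul _)
  have hL1 : Tendsto (fun n => 2 * (starRingEnd ℂ u * zz w y (Xn n)).re) atTop
      (𝓝 (2 * (starRingEnd ℂ u * zz w y X).re)) :=
    ((Complex.continuous_re.tendsto _).comp (hZ.const_mul _)).const_mul 2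
  have hL2 : Tendsto (fun n => r n * Complex.normSq (zz w y (Xn n))) atTop (𝓝 0) := by
    have := hr0.mul ((Complex.continuous_normSq.tendsto _).comp hZ)
    simpa using this
  have hL := hL1.add hL2
  rw [add_zero] at hL
  have h4 := ge_of_tendsto' hL hineq
  have h5 : Dw w y X = (starRingEnd ℂ u * zz w y X).re := rfl
  rw [h5]
  linarith

theorem Dw_neg (w y : UpperHalfPlane) (X : Mt) : Dw w y (-X) = -Dw w y X := by
  unfold Dw
  simp only [Matrix.neg_apply, Complex.ofReal_neg]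
  rw [← Complex.neg_re]
  congr 1
  ring

end I_NEAR

open I_NEAR in
theorem NEAR_pf (h1 : S_TAN) : S_NEAR := by
  intro Λ Y hY hne hinv w
  obtain ⟨y, hyY, hy⟩ := hY.exists_infDist_eq_dist hne w
  have hmin : ∀ g ∈ Λ, dist w y ≤ dist w (g • y) := by
    intro g hg
    rw [← hy]
    exact Metric.infDist_le_dist_of_mem (hinv g hg y hyY)
  refine ⟨y, hyY, fun X hX => ?_⟩
  have hp := nonneg Λ y w hmin X hX
  have hn := nonneg Λ y w hmin (-X) (h1 Λ X hX).2.1
  rw [Dw_neg] at hn
  linarith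

end Pool.Agent.Work.MP_d2a4bb_nt.QA
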