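import Pool.Agent.Work.MP_d2a4bb_nt.QA.Stmts

/-!
# Item NONC: two elements of `Γ` whose squares do not commute
-/

set_option autoImplicit false

open Filter Topology

namespace Pool.Agent.Work.MP_d2a4bb_nt.QA

namespace I_NONC

theorem disc (x : Mt) : x.trace ^ 2 - 4 * x.det = (x 0 0 - x 1 1) ^ 2 + 4 * x 0 1 * x 1 0 := by
  rw [Matrix.det_fin_two, Matrix.trace_fin_two]
  ring

/-- the entry `0 1` of the commutator of the squares -/
theorem entry (C C' x x' : Mt) (u v u' v' : ℝ)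
    (hC : C = u • (1 : Mt) + v • ((2 : ℝ) • x - x.trace • (1 : Mt)))
    (hC' : C' = u' • (1 : Mt) + v' • ((2 : ℝ) • x' - x'.trace • (1 : Mt))) :
    (C ^ 2 * C' ^ 2) 0 1 - (C' ^ 2 * C ^ 2) 0 1 =
      16 * (u * (v * (u' * v'))) *
        (x' 0 1 * (x 0 0 - x 1 1) - x 0 1 * (x' 0 0 - x' 1 1)) := by
  have e00 : C 0 0 = u + v * (x 0 0 - x 1 1) := by
    rw [hC, Matrix.trace_fin_two]
    simp only [Matrix.add_apply, Matrix.smul_apply, Matrix.sub_apply, Matrix.one_apply_eq,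
      smul_eq_mul]
    ring
  have e11 : C 1 1 = u - v * (x 0 0 - x 1 1) := by
    rw [hC, Matrix.trace_fin_two]
    simp only [Matrix.add_apply, Matrix.smul_apply, Matrix.sub_apply, Matrix.one_apply_eq,
      smul_eq_mul]
    ring
  have e01 : C 0 1 = 2 * v * x 0 1 := by
    rw [hC, Matrix.trace_fin_two]
    simp only [Matrix.add_apply, Matrix.smul_apply, Matrix.sub_apply,
      Matrix.one_apply_ne (show (0 : Fin 2) ≠ 1 by decide), smul_eq_mul]
    ring
  have e10 : C 1 0 = 2 * v * x 1 0 := by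
    rw [hC, Matrix.trace_fin_two]
    simp only [Matrix.add_apply, Matrix.smul_apply, Matrix.sub_apply,
      Matrix.one_apply_ne (show (1 : Fin 2) ≠ 0 by decide), smul_eq_mul]
    ring
  have f00 : C' 0 0 = u' + v' * (x' 0 0 - x' 1 1) := by
    rw [hC', Matrix.trace_fin_two]
    simp only [Matrix.add_apply, Matrix.smul_apply, Matrix.sub_apply, Matrix.one_apply_eq,
      smul_eq_mul]
    ring
  have f11 : C' 1 1 = u' - v' * (x' 0 0 - x' 1 1) := by
    rw [hC', Matrix.trace_fin_two]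
    simp only [Matrix.add_apply, Matrix.smul_apply, Matrix.sub_apply, Matrix.one_apply_eq,
      smul_eq_mul]
    ring
  have f01 : C' 0 1 = 2 * v' * x' 0 1 := by
    rw [hC', Matrix.trace_fin_two]
    simp only [Matrix.add_apply, Matrix.smul_apply, Matrix.sub_apply,
      Matrix.one_apply_ne (show (0 : Fin 2) ≠ 1 by decide), smul_eq_mul]
    ring
  have f10 : C' 1 0 = 2 * v' * x' 1 0 := by
    rw [hC', Matrix.trace_fin_two]
    simp only [Matrix.add_apply, Matrix.smul_apply, Matrix.sub_apply,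
      Matrix.one_apply_ne (show (1 : Fin 2) ≠ 0 by decide), smul_eq_mul]
    ring
  rw [pow_two, pow_two]
  simp only [Matrix.mul_apply, Fin.sum_univ_two, e00, e01, e10, e11, f00, f01, f10, f11]
  ring

end I_NONC

theorem NONC_pf (h1 : S_APPR) (h2 : S_PELL) : S_NONC := by
  intro O hO
  obtain ⟨N, hN, x, hx, hxe⟩ := h1 O hO !![1, 0; 0, -1] (1 / 10) (by norm_num)
  obtain ⟨N', hN', x', hx', hxe'⟩ := h1 O hO !![0, 1; 1, 0] (1 / 10) (by norm_num)
  have hNr : (0 : ℝ) < N := by exact_mod_cast hN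
  have hNr' : (0 : ℝ) < N' := by exact_mod_cast hN'
  have a00 := abs_le.1 (hxe 0 0)
  have a01 := abs_le.1 (hxe 0 1)
  have a10 := abs_le.1 (hxe 1 0)
  have a11 := abs_le.1 (hxe 1 1)
  have b00 := abs_le.1 (hxe' 0 0)
  have b01 := abs_le.1 (hxe' 0 1)
  have b10 := abs_le.1 (hxe' 1 0)
  have b11 := abs_le.1 (hxe' 1 1)
  simp only [Matrix.of_apply, Matrix.cons_val', Matrix.cons_val_zero, Matrix.cons_val_one,
    Matrix.cons_val_fin_one, mul_one, mul_zero, sub_zero, mul_neg, sub_neg_eq_add]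
    at a00 a01 a10 a11 b00 b01 b10 b11
  have hd : 0 < x.trace ^ 2 - 4 * x.det := by
    rw [I_NONC.disc]
    nlinarith [mul_pos hNr hNr]
  have hd' : 0 < x'.trace ^ 2 - 4 * x'.det := by
    rw [I_NONC.disc]
    nlinarith [mul_pos hNr' hNr']
  obtain ⟨c, hc, u, v, hu, hv, he⟩ := h2 O hO x hx hd
  obtain ⟨c', hc', u', v', hu', hv', he'⟩ := h2 O hO x' hx' hd'
  refine ⟨c, hc, c', hc', fun heq => ?_⟩
  have h3 := I_NONC.entry (c : Mt) (c' : Mt) x x' u v u' v' he he'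
  have h4 : ((c : Mt) ^ 2 * (c' : Mt) ^ 2) = ((c' : Mt) ^ 2 * (c : Mt) ^ 2) := by
    have := congrArg (fun g : SL2 => (g : Mt)) heq
    simpa using this
  rw [h4, sub_self] at h3
  have hu1 : (u : ℝ) ≠ 0 := by exact_mod_cast hu
  have hv1 : (v : ℝ) ≠ 0 := by exact_mod_cast hv
  have hu1' : (u' : ℝ) ≠ 0 := by exact_mod_cast hu'
  have hv1' : (v' : ℝ) ≠ 0 := by exact_mod_cast hv'
  have h5 : x' 0 1 * (x 0 0 - x 1 1) - x 0 1 * (x' 0 0 - x' 1 1) = 0 := by
    have h6 : (16 : ℝ) * ((u : ℝ) * ((v : ℝ) * ((u' : ℝ) * (v' : ℝ)))) ≠ 0 := by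
      refine mul_ne_zero (by norm_num) (mul_ne_zero hu1 (mul_ne_zero hv1 (mul_ne_zero hu1' hv1')))
    exact (mul_eq_zero.1 h3.symm).resolve_left h6
  have p1 : (9 / 10 * N' : ℝ) ≤ x' 0 1 := by linarith [b01.1]
  have p2 : (18 / 10 * N : ℝ) ≤ x 0 0 - x 1 1 := by linarith [a00.1, a11.2]
  have p3 : |x 0 1| ≤ 1 / 10 * N := abs_le.2 ⟨by linarith [a01.1], by linarith [a01.2]⟩
  have p4 : |x' 0 0 - x' 1 1| ≤ 2 / 10 * N' :=
    abs_le.2 ⟨by linarith [b00.1, b11.2], by linarith [b00.2, b11.1]⟩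
  have q1 : (9 / 10 * N' : ℝ) * (18 / 10 * N) ≤ x' 0 1 * (x 0 0 - x 1 1) :=
    mul_le_mul p1 p2 (by positivity) (le_trans (by positivity) p1)
  have q2 : x 0 1 * (x' 0 0 - x' 1 1) ≤ (1 / 10 * N) * (2 / 10 * N') := by
    refine (le_abs_self _).trans ?_
    rw [abs_mul]
    exact mul_le_mul p3 p4 (abs_nonneg _) (by positivity)
  nlinarith [mul_pos hNr hNr']

end Pool.Agent.Work.MP_d2a4bb_nt.QA
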