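import Pool.Agent.Work.MP_d2a4bb_nt.QA.Stmts

/-!
# Block QA of `MP_d2a4bb_nt`, item PELL: units from Pell equations
-/

set_option autoImplicit false

open Filter Topology

namespace Pool.Agent.Work.MP_d2a4bb_nt.QA

namespace I_PELL

/-- integer multiples stay in `O` -/
theorem smul_mem (O : Subring Mt) {z : Mt} (hz : z ∈ O) (v : ℤ) : (v : ℝ) • z ∈ O := by
  rw [Int.cast_smul_eq_zsmul]
  exact O.zsmul_mem hz v

theorem det_lin (x : Mt) (u v : ℝ) :
    (u • (1 : Mt) + v • ((2 : ℝ) • x - x.trace • (1 : Mt))).det =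
      u ^ 2 - v ^ 2 * (x.trace ^ 2 - 4 * x.det) := by
  simp only [Matrix.det_fin_two, Matrix.trace_fin_two, Matrix.add_apply, Matrix.sub_apply,
    Matrix.smul_apply, Matrix.one_apply_eq, smul_eq_mul, ne_eq, zero_ne_one, not_false_eq_true,
    Matrix.one_apply_ne, one_ne_zero]
  ring

end I_PELL

open I_PELL in
theorem PELL_pf (h1 : S_INT) (h2 : S_GE) : S_PELL := by
  intro O hO x hx hpos
  obtain ⟨⟨t, ht⟩, n, hn⟩ := h1 O hO x hx
  have hDr : x.trace ^ 2 - 4 * x.det = ((t ^ 2 - 4 * n : ℤ) : ℝ) := by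
    rw [ht, hn]
    push_cast
    ring
  have hD : 0 < t ^ 2 - 4 * n := by
    rw [hDr] at hpos
    exact_mod_cast hpos
  have hy : (2 : ℝ) • x - x.trace • (1 : Mt) ∈ O := by
    refine O.sub_mem ?_ ?_
    · rw [two_smul]
      exact O.add_mem hx hx
    · rw [ht]
      exact smul_mem O O.one_mem t
  have hmem : ∀ u v : ℤ, (u : ℝ) • (1 : Mt) + (v : ℝ) • ((2 : ℝ) • x - x.trace • (1 : Mt)) ∈ O :=
    fun u v => O.add_mem (smul_mem O O.one_mem u) (smul_mem O hy v)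
  have hns : ¬ IsSquare (t ^ 2 - 4 * n) := by
    rintro ⟨s, hs⟩
    have hs0 : s ≠ 0 := by
      rintro rfl
      rw [hs] at hD
      simp at hD
    have h3 := hmem s 1
    have h4 : ((s : ℝ) • (1 : Mt) + ((1 : ℤ) : ℝ) • ((2 : ℝ) • x - x.trace • (1 : Mt))).det = 0 := by
      rw [det_lin, hDr, hs]
      push_cast
      ring
    have h5 : (s : ℝ) • (1 : Mt) + ((1 : ℤ) : ℝ) • ((2 : ℝ) • x - x.trace • (1 : Mt)) = 0 := by
      by_contra hne
      exact hO.div _ h3 hne h4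
    have h6 := congrArg Matrix.trace h5
    simp only [Matrix.trace_fin_two, Matrix.add_apply, Matrix.sub_apply,
      Matrix.smul_apply, Matrix.one_apply_eq, smul_eq_mul, Matrix.zero_apply, Int.cast_one] at h6
    have h7 : (s : ℝ) = 0 := by linarith
    exact hs0 (by exact_mod_cast h7)
  obtain ⟨u, v, huv, hv⟩ := Pell.exists_of_not_isSquare hD hns
  have hu : u ≠ 0 := by
    rintro rfl
    have : 0 < (t ^ 2 - 4 * n) * v ^ 2 := mul_pos hD (by positivity)
    linarith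
  have hdet : ((u : ℝ) • (1 : Mt) + (v : ℝ) • ((2 : ℝ) • x - x.trace • (1 : Mt))).det = 1 := by
    rw [det_lin, hDr]
    have h3 : ((u ^ 2 - (t ^ 2 - 4 * n) * v ^ 2 : ℤ) : ℝ) = ((1 : ℤ) : ℝ) := by rw [huv]
    push_cast at h3 ⊢
    linarith
  exact ⟨⟨_, hdet⟩, (h2 O hO).2.1 ⟨_, hdet⟩ (hmem u v), u, v, hu, hv, rfl⟩

end Pool.Agent.Work.MP_d2a4bb_nt.QA
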