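import Pool.Agent.Work.MP_d2a4bb_nt.QA.Stmts

/-!
# QA, item REPS: finitely many classes of elements of reduced norm `p`
-/

set_option autoImplicit false

open Filter Topology

namespace Pool.Agent.Work.MP_d2a4bb_nt.QA

namespace I_REPS

/-- `Ep O p` is a union of classes of `Gam O` -/
theorem mul_mem_Ep {O : Subring Mt} {p : ℕ} {c g : SL2} (hc : c ∈ Gam O) (hg : g ∈ Ep O p) :
    c * g ∈ Ep O p := by
  have h1 : Real.sqrt p • ((c * g : SL2) : Mt) = (c : Mt) * (Real.sqrt p • (g : Mt)) := by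
    rw [Matrix.SpecialLinearGroup.coe_mul, Matrix.mul_smul]
  change Real.sqrt p • ((c * g : SL2) : Mt) ∈ O
  rw [h1]
  exact O.mul_mem hc.1 hg

/-- two elements with the same representative are in one class -/
theorem same_class {O : Subring Mt} {p : ℕ} (hp : 0 < p) {g g' c c' : SL2} {y : Mt}
    (hc : c ∈ Gam O) (hc' : c' ∈ Gam O) (h : Real.sqrt p • (g : Mt) = (c : Mt) * y)
    (h' : Real.sqrt p • (g' : Mt) = (c' : Mt) * y) : g * g'⁻¹ ∈ Gam O := by
  have hs : Real.sqrt p ≠ 0 := Real.sqrt_ne_zero'.2 (by exact_mod_cast hp)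
  have h2 : (g : Mt) = ((c * c'⁻¹ * g' : SL2) : Mt) := by
    have h3 : Real.sqrt p • (g : Mt) = Real.sqrt p • ((c * c'⁻¹ * g' : SL2) : Mt) := by
      rw [Matrix.SpecialLinearGroup.coe_mul, ← Matrix.mul_smul, h', ← mul_assoc,
        ← Matrix.SpecialLinearGroup.coe_mul, inv_mul_cancel_right, h]
    exact smul_right_injective Mt hs h3
  have h4 : g = c * c'⁻¹ * g' := Subtype.ext h2
  rw [h4, mul_inv_cancel_right]
  exact (Gam O).mul_mem hc ((Gam O).inv_mem hc')

end I_REPS

theorem REPS_pf (hCLS : S_CLS) : S_REPS := by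
  classical
  intro O hO p hp
  obtain ⟨S, _, hS⟩ := hCLS O hO p
  let s := QuotientGroup.rightRel (Gam O)
  have hdet : ∀ g : SL2, (Real.sqrt p • (g : Mt)).det = p := by
    intro g
    rw [Matrix.det_smul, Fintype.card_fin, Matrix.SpecialLinearGroup.det_coe, mul_one,
      Real.sq_sqrt (Nat.cast_nonneg p)]
  have hT : ((fun g : SL2 => (Quotient.mk s g)) '' Ep O p).Finite := by
    have hsub : ((fun g : SL2 => (Quotient.mk s g)) '' Ep O p) ⊆ ⋃ y ∈ S,
        {q : Quotient s | ∃ g : SL2, Quotient.mk s g = q ∧ ∃ c ∈ Gam O,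
          Real.sqrt p • (g : Mt) = ((c : SL2) : Mt) * y} := by
      rintro _ ⟨g, hg, rfl⟩
      have hne : Real.sqrt p • (g : Mt) ≠ 0 := by
        intro h0
        have h1 := hdet g
        rw [h0, Matrix.det_zero] at h1
        have h2 : (0 : ℝ) < p := by exact_mod_cast hp
        exact h2.ne h1
      obtain ⟨y, hy, c, hc, h⟩ := hS _ hg hne (by
        rw [hdet, abs_of_nonneg (Nat.cast_nonneg p)])
      simp only [Set.mem_iUnion]
      exact ⟨y, hy, g, rfl, c, hc, h⟩
    refine Set.Finite.subset ?_ hsub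
    refine Set.Finite.biUnion (Finset.finite_toSet S) fun y _ => ?_
    refine Set.Subsingleton.finite ?_
    rintro _ ⟨g, rfl, c, hc, h⟩ _ ⟨g', rfl, c', hc', h'⟩
    refine Quotient.sound ?_
    change QuotientGroup.rightRel (Gam O) g g'
    rw [QuotientGroup.rightRel_apply]
    exact I_REPS.same_class hp hc' hc h' h
  have hout : ∀ g : SL2, (Quotient.mk s g).out * g⁻¹ ∈ Gam O := by
    intro g
    have h1 : QuotientGroup.rightRel (Gam O) g (Quotient.mk s g).out :=
      (QuotientGroup.rightRel (Gam O)).symm (Quotient.mk_out (s := s) g)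
    rwa [QuotientGroup.rightRel_apply] at h1
  refine ⟨hT.toFinset.image Quotient.out, ?_, ?_, ?_⟩
  · intro b hb
    obtain ⟨q, hq, rfl⟩ := Finset.mem_image.1 hb
    obtain ⟨g, hg, rfl⟩ := hT.mem_toFinset.1 hq
    have h1 := I_REPS.mul_mem_Ep (hout g) hg
    rwa [inv_mul_cancel_right] at h1
  · intro g hg
    refine ⟨(Quotient.mk s g).out, Finset.mem_image.2 ⟨_, hT.mem_toFinset.2 ⟨g, hg, rfl⟩, rfl⟩, ?_⟩
    have h1 := (Gam O).inv_mem (hout g)
    rwa [mul_inv_rev, inv_inv] at h1
  · intro b hb b' hb' h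
    obtain ⟨q, hq, rfl⟩ := Finset.mem_image.1 hb
    obtain ⟨q', hq', rfl⟩ := Finset.mem_image.1 hb'
    have h1 : Quotient.mk s q'.out = Quotient.mk s q.out := by
      refine Quotient.sound ?_
      change QuotientGroup.rightRel (Gam O) _ _
      rw [QuotientGroup.rightRel_apply]
      exact h
    rw [Quotient.out_eq, Quotient.out_eq] at h1
    rw [h1]

end Pool.Agent.Work.MP_d2a4bb_nt.QA
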