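import Pool.Agent.Work.MP_d2a4bb_nt.QA.Stmts

set_option autoImplicit false

/-!
# Item RK: kernels of products of singular two by two matrices without zero subproducts
-/

namespace Pool.Agent.Work.MP_d2a4bb_nt.QA

namespace I_RK

/-- a singular matrix `A` with `A w` nonzero and `B (A w) = 0` satisfies `B A = 0` -/
theorem mul_eq_zero_of {K : Type} [Field K] (A B : Matrix (Fin 2) (Fin 2) K) (w : Fin 2 → K)
    (hA : A.det = 0) (hw : A.mulVec w ≠ 0) (hB : B.mulVec (A.mulVec w) = 0) : B * A = 0 := by
  have key : ∀ u : Fin 2 → K, B.mulVec (A.mulVec u) = 0 := by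
    intro u
    have hpar : (A.mulVec u) 0 * (A.mulVec w) 1 = (A.mulVec u) 1 * (A.mulVec w) 0 := by
      rw [Matrix.det_fin_two] at hA
      simp only [Matrix.mulVec, dotProduct, Fin.sum_univ_two]
      linear_combination (u 0 * w 1 - u 1 * w 0) * hA
    have hrow : ∀ i, B i 0 * (A.mulVec w) 0 + B i 1 * (A.mulVec w) 1 = 0 := by
      intro i
      have h := congrFun hB i
      simpa [Matrix.mulVec, dotProduct, Fin.sum_univ_two] using h
    have h01 : (A.mulVec w) 0 ≠ 0 ∨ (A.mulVec w) 1 ≠ 0 := by
      by_contra h
      push Not at h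
      apply hw
      funext i
      fin_cases i
      · exact h.1
      · exact h.2
    funext i
    have e : (B.mulVec (A.mulVec u)) i = B i 0 * (A.mulVec u) 0 + B i 1 * (A.mulVec u) 1 := by
      show ∑ j, B i j * (A.mulVec u) j = _
      rw [Fin.sum_univ_two]
    rw [e, Pi.zero_apply]
    rcases h01 with h0 | h0
    · refine (mul_eq_zero.1 ?_).resolve_left h0
      linear_combination (A.mulVec u) 0 * hrow i - B i 1 * hpar
    · refine (mul_eq_zero.1 ?_).resolve_left h0
      linear_combination (A.mulVec u) 1 * hrow i + B i 0 * hpar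
  refine Matrix.ext_of_mulVec_single ?_
  intro j
  rw [← Matrix.mulVec_mulVec, key, Matrix.zero_mulVec]

end I_RK

theorem RK_pf : S_RK := by
  intro K _ L A hL hA hAA
  induction L with
  | zero => omega
  | succ L ih =>
    intro v
    rcases Nat.eq_zero_or_pos L with h0 | h0
    · subst h0
      show (A 0 * 1).mulVec v = 0 ↔ _
      rw [mul_one]
    · have ih' := ih h0 (fun i hi => hA i (by omega)) (fun i hi => hAA i (by omega)) v
      have e : (vm A (L + 1)).mulVec v = (A L).mulVec ((vm A L).mulVec v) := by
        show (A L * vm A L).mulVec v = _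
        rw [Matrix.mulVec_mulVec]
      rw [e, ← ih']
      constructor
      · intro h
        by_contra hne
        obtain ⟨M, rfl⟩ : ∃ M, L = M + 1 := ⟨L - 1, by omega⟩
        have e2 : (vm A (M + 1)).mulVec v = (A M).mulVec ((vm A M).mulVec v) := by
          show (A M * vm A M).mulVec v = _
          rw [Matrix.mulVec_mulVec]
        rw [e2] at h hne
        exact hAA M (by omega) (I_RK.mul_eq_zero_of (A M) (A (M + 1)) _ (hA M (by omega)).1 hne h)
      · intro h
        rw [h, Matrix.mulVec_zero]

end Pool.Agent.Work.MP_d2a4bb_nt.QA
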