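import Pool.Agent.Work.MP_d2a4bb_nt.QA.Stmts

/-! Item SPAN of block QA (MP_d2a4bb_nt). -/

set_option autoImplicit false

open Filter Topology

namespace Pool.Agent.Work.MP_d2a4bb_nt.QA

namespace I_SPAN

theorem tr0 {A : Mt} (h : A.trace = 0) : A 1 1 = - A 0 0 := by
  rw [Matrix.trace_fin_two] at h
  linarith

/-- for matrices of trace zero with `tr (A B) = 0`: `A B = - B A` -/
theorem anti {A B : Mt} (hA : A.trace = 0) (hB : B.trace = 0) (h : (A * B).trace = 0) :
    A * B = - (B * A) := by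
  have a1 := tr0 hA
  have b1 := tr0 hB
  rw [Matrix.trace_fin_two, Matrix.mul_apply, Matrix.mul_apply, Fin.sum_univ_two,
    Fin.sum_univ_two, a1, b1] at h
  ext i j
  fin_cases i <;> fin_cases j <;>
    simp only [Matrix.mul_apply, Matrix.neg_apply, Fin.sum_univ_two, Fin.zero_eta, Fin.mk_one,
      Fin.isValue, a1, b1] <;> linarith

/-- a matrix of trace zero which commutes with `A ≠ 0` of trace zero is a multiple of `A` -/
theorem prop {A B : Mt} (hA : A.trace = 0) (hB : B.trace = 0) (hA0 : A ≠ 0)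
    (h : A * B = B * A) : ∃ s : ℝ, B = s • A := by
  have a1 := tr0 hA
  have b1 := tr0 hB
  have e00 := congrFun (congrFun h 0) 0
  have e01 := congrFun (congrFun h 0) 1
  have e10 := congrFun (congrFun h 1) 0
  simp only [Matrix.mul_apply, Fin.sum_univ_two, a1, b1] at e00 e01 e10
  have f1 : A 0 1 * B 1 0 = B 0 1 * A 1 0 := by linarith
  have f2 : A 0 0 * B 0 1 = A 0 1 * B 0 0 := by linarith
  have f3 : A 1 0 * B 0 0 = A 0 0 * B 1 0 := by linarith
  have key : ∀ s : ℝ, B 0 0 = s * A 0 0 → B 0 1 = s * A 0 1 → B 1 0 = s * A 1 0 →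
      B = s • A := by
    intro s h1 h2 h3
    ext i j
    fin_cases i <;> fin_cases j <;>
      simp only [Matrix.smul_apply, smul_eq_mul, Fin.zero_eta, Fin.mk_one, Fin.isValue, a1, b1]
    · exact h1
    · exact h2
    · exact h3
    · rw [h1]; ring
  by_cases h0 : A 0 0 = 0
  · by_cases h1 : A 0 1 = 0
    · by_cases h2 : A 1 0 = 0
      · exfalso
        apply hA0
        ext i j
        fin_cases i <;> fin_cases j <;>
          simp only [Matrix.zero_apply, Fin.zero_eta, Fin.mk_one, Fin.isValue, a1, h0, h1, h2,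
            neg_zero]
      · refine ⟨B 1 0 / A 1 0, key _ ?_ ?_ ?_⟩
        · field_simp
          linarith
        · field_simp
          linarith
        · field_simp
    · refine ⟨B 0 1 / A 0 1, key _ ?_ ?_ ?_⟩
      · field_simp
        linarith
      · field_simp
      · field_simp
        linarith
  · refine ⟨B 0 0 / A 0 0, key _ ?_ ?_ ?_⟩
    · field_simp
    · field_simp
      linarith
    · field_simp
      linarith

/-- a linear form on the matrices of trace zero is `Z ↦ tr (Y Z)` -/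
theorem rep (l : Mt →ₗ[ℝ] ℝ) : ∃ Y : Mt, Y.trace = 0 ∧ ∀ Z : Mt, Z.trace = 0 →
    l Z = (Y * Z).trace := by
  refine ⟨!![l !![1, 0; 0, -1] / 2, l !![0, 0; 1, 0]; l !![0, 1; 0, 0],
    -(l !![1, 0; 0, -1] / 2)], ?_, ?_⟩
  · rw [Matrix.trace_fin_two]
    simp
  · intro Z hZ
    have z1 := tr0 hZ
    have hZ' : Z = Z 0 0 • !![1, 0; 0, -1] + Z 0 1 • !![0, 1; 0, 0] +
        Z 1 0 • (!![0, 0; 1, 0] : Mt) := by
      ext i j
      fin_cases i <;> fin_cases j <;> simp [z1]
    conv_lhs => rw [hZ']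
    rw [map_add, map_add, map_smul, map_smul, map_smul, Matrix.trace_fin_two, Matrix.mul_apply,
      Matrix.mul_apply, Fin.sum_univ_two, Fin.sum_univ_two]
    simp only [Matrix.of_apply, Matrix.cons_val', Matrix.cons_val_zero, Matrix.cons_val_fin_one,
      Matrix.cons_val_one, smul_eq_mul, z1]
    ring

theorem conj_tr (g : SL2) (Y : Mt) : ((g : Mt) * Y * ((g⁻¹ : SL2) : Mt)).trace = Y.trace := by
  rw [Matrix.trace_mul_comm, ← mul_assoc, ← Matrix.SpecialLinearGroup.coe_mul, inv_mul_cancel,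
    Matrix.SpecialLinearGroup.coe_one, one_mul]

theorem mul_inv' (g : SL2) : (g : Mt) * ((g⁻¹ : SL2) : Mt) = 1 := by
  rw [← Matrix.SpecialLinearGroup.coe_mul, mul_inv_cancel, Matrix.SpecialLinearGroup.coe_one]

theorem inv_mul' (g : SL2) : ((g⁻¹ : SL2) : Mt) * (g : Mt) = 1 := by
  rw [← Matrix.SpecialLinearGroup.coe_mul, inv_mul_cancel, Matrix.SpecialLinearGroup.coe_one]

/-- `c Y c⁻¹ = s Y` gives `c Y = s (Y c)` -/
theorem back (g : SL2) (Y : Mt) (s : ℝ) (h : (g : Mt) * Y * ((g⁻¹ : SL2) : Mt) = s • Y) :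
    (g : Mt) * Y = s • (Y * (g : Mt)) := by
  calc (g : Mt) * Y = (g : Mt) * Y * (((g⁻¹ : SL2) : Mt) * (g : Mt)) := by
        rw [inv_mul', mul_one]
    _ = ((g : Mt) * Y * ((g⁻¹ : SL2) : Mt)) * (g : Mt) := by simp only [mul_assoc]
    _ = s • (Y * (g : Mt)) := by rw [h, Matrix.smul_mul]

theorem comm2 {A B Z : Mt} (hA : A * Z = - (Z * A)) (hB : B * Z = - (Z * B)) :
    (A * B - B * A) * Z = Z * (A * B - B * A) := by
  have e : ∀ {C D : Mt}, C * Z = - (Z * C) → D * Z = - (Z * D) → C * D * Z = Z * (C * D) := by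
    intro C D hC hD
    rw [mul_assoc, hD, mul_neg, ← mul_assoc, hC, neg_mul, neg_neg, mul_assoc]
  rw [sub_mul, mul_sub, e hA hB, e hB hA]

end I_SPAN

open I_SPAN in
theorem SPAN_pf (h1 : S_INVL) : S_SPAN := by
  intro O hO X hX hXt l hl
  obtain ⟨Y, hYt, hY⟩ := rep l
  suffices hY0 : Y = 0 by
    intro Z hZ
    rw [hY Z hZ, hY0, Matrix.zero_mul, Matrix.trace_zero]
  have htr : ∀ c ∈ Gam O, ∀ d ∈ Gam O,
      (((c : Mt) * Y * ((c⁻¹ : SL2) : Mt)) * ((d : Mt) * X * ((d⁻¹ : SL2) : Mt))).trace = 0 := by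
    intro c hc d hd
    have h2 := hl (c⁻¹ * d) (Subgroup.mul_mem _ (Subgroup.inv_mem _ hc) hd)
    rw [hY _ (by rw [conj_tr, hXt])] at h2
    rw [← h2]
    rw [mul_assoc, mul_assoc, Matrix.trace_mul_comm]
    congr 1
    rw [mul_inv_rev, inv_inv, Matrix.SpecialLinearGroup.coe_mul,
      Matrix.SpecialLinearGroup.coe_mul]
    simp only [mul_assoc]
  by_contra hY0
  by_cases hcase : ∃ c ∈ Gam O, Y * ((c : Mt) * Y * ((c⁻¹ : SL2) : Mt)) ≠
      ((c : Mt) * Y * ((c⁻¹ : SL2) : Mt)) * Y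
  · obtain ⟨c, hc, hne⟩ := hcase
    set Y1 := (c : Mt) * Y * ((c⁻¹ : SL2) : Mt) with hY1
    have hY1t : Y1.trace = 0 := by rw [hY1, conj_tr, hYt]
    have hC : Y * Y1 - Y1 * Y ≠ 0 := sub_ne_zero.2 hne
    have hCt : (Y * Y1 - Y1 * Y).trace = 0 := by
      rw [Matrix.trace_sub, Matrix.trace_mul_comm, sub_self]
    have hpar : ∀ d ∈ Gam O, ∃ s : ℝ,
        (d : Mt) * X * ((d⁻¹ : SL2) : Mt) = s • (Y * Y1 - Y1 * Y) := by
      intro d hd
      set Z := (d : Mt) * X * ((d⁻¹ : SL2) : Mt) with hZ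
      have hZt : Z.trace = 0 := by rw [hZ, conj_tr, hXt]
      have t1 : (Y * Z).trace = 0 := by
        have := htr 1 (Subgroup.one_mem _) d hd
        rw [inv_one, Matrix.SpecialLinearGroup.coe_one, one_mul, mul_one] at this
        exact this
      have t2 : (Y1 * Z).trace = 0 := htr c hc d hd
      have a1 := anti hYt hZt t1
      have a2 := anti hY1t hZt t2
      refine prop hCt hZt hC ?_
      exact comm2 a1 a2
    obtain ⟨s1, hs1⟩ := hpar 1 (Subgroup.one_mem _)
    have hs1' : X = s1 • (Y * Y1 - Y1 * Y) := by simpa using hs1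
    have hs10 : s1 ≠ 0 := by
      rintro rfl
      exact hX (by rw [hs1', zero_smul])
    refine hX (h1 O hO X hXt ?_)
    intro d hd
    obtain ⟨s, hs⟩ := hpar d hd
    refine ⟨s / s1, back d X _ ?_⟩
    rw [hs]
    conv_rhs => rw [hs1']
    rw [smul_smul, div_mul_cancel₀ _ hs10]
  · push Not at hcase
    refine hY0 (h1 O hO Y hYt ?_)
    intro c hc
    obtain ⟨s, hs⟩ := prop hYt (by rw [conj_tr, hYt]) hY0 (hcase c hc)
    exact ⟨s, back c Y s hs⟩

end Pool.Agent.Work.MP_d2a4bb_nt.QA
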