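import Pool.Agent.Work.MP_d2a4bb_nt.QA.Stmts

/-!
# Item TAN of the block QA: tangent vectors of `Λ` at `1`
-/

set_option autoImplicit false

open Filter Topology

namespace Pool.Agent.Work.MP_d2a4bb_nt.QA

namespace I_TAN

/-- `det (1 + r X) = 1 + r tr X + r² det X`. -/
theorem det_one_add (r : ℝ) (X : Mt) :
    (1 + r • X).det = 1 + r * X.trace + r ^ 2 * X.det := by
  rw [Matrix.det_fin_two, Matrix.det_fin_two, Matrix.trace_fin_two]
  simp only [Matrix.add_apply, Matrix.smul_apply, smul_eq_mul, Matrix.one_apply_eq,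
    Matrix.one_apply_ne (show (0 : Fin 2) ≠ 1 by decide),
    Matrix.one_apply_ne (show (1 : Fin 2) ≠ 0 by decide)]
  ring

/-- The trace of a tangent vector is zero. -/
theorem trace_zero {g : ℕ → SL2} {r : ℕ → ℝ} {X : Mt} (hr : ∀ n, 0 < r n)
    (hr0 : Tendsto r atTop (𝓝 0))
    (hX : Tendsto (fun n => (r n)⁻¹ • ((g n : Mt) - 1)) atTop (𝓝 X)) : X.trace = 0 := by
  have h1 : Tendsto (fun n => ((r n)⁻¹ • ((g n : Mt) - 1)).trace) atTop (𝓝 X.trace) :=
    ((continuous_id.matrix_trace).tendsto X).comp hX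
  have h2 : Tendsto (fun n => ((r n)⁻¹ • ((g n : Mt) - 1)).det) atTop (𝓝 X.det) :=
    ((continuous_id.matrix_det).tendsto X).comp hX
  have h3 : Tendsto (fun n => -(r n * ((r n)⁻¹ • ((g n : Mt) - 1)).det)) atTop
      (𝓝 (-(0 * X.det))) := (hr0.mul h2).neg
  have h4 : (fun n => ((r n)⁻¹ • ((g n : Mt) - 1)).trace) =
      fun n => -(r n * ((r n)⁻¹ • ((g n : Mt) - 1)).det) := by
    funext n
    have hn : r n ≠ 0 := (hr n).ne'
    have h5 : (1 : Mt) + r n • ((r n)⁻¹ • ((g n : Mt) - 1)) = (g n : Mt) := by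
      rw [smul_smul, mul_inv_cancel₀ hn, one_smul, add_sub_cancel]
    have h6 := det_one_add (r n) ((r n)⁻¹ • ((g n : Mt) - 1))
    rw [h5, (g n).det_coe] at h6
    have h7 : r n * (((r n)⁻¹ • ((g n : Mt) - 1)).trace + r n * ((r n)⁻¹ • ((g n : Mt) - 1)).det) = 0 := by
      linear_combination -h6
    have h8 := (mul_eq_zero.1 h7).resolve_left hn
    linear_combination h8
  rw [h4] at h1
  have h9 := tendsto_nhds_unique h1 h3
  rw [h9]; ring

/-- For a matrix of trace zero the adjugate is the negative. -/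
theorem adj_eq_neg {X : Mt} (h : X.trace = 0) : X.adjugate = -X := by
  rw [Matrix.trace_fin_two] at h
  have h1 : X 1 1 = -X 0 0 := by linear_combination h
  rw [Matrix.adjugate_fin_two]
  ext i j
  fin_cases i <;> fin_cases j <;> simp [h1]

/-- The adjugate is linear. -/
theorem adj_smul_sub (r : ℝ) (A : Mt) :
    (r • (A - 1)).adjugate = r • (A.adjugate - 1) := by
  rw [Matrix.adjugate_fin_two, Matrix.adjugate_fin_two]
  ext i j
  fin_cases i <;> fin_cases j <;> simp

end I_TAN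

open I_TAN in
/-- TAN: the tangent vectors have trace zero, and are stable under negation and conjugation. -/
theorem TAN_pf : S_TAN := by
  rintro Λ X ⟨g, r, hg, hr, hr0, hX⟩
  have htr : X.trace = 0 := trace_zero hr hr0 hX
  refine ⟨htr, ⟨fun n => (g n)⁻¹, r, fun n => Λ.inv_mem (hg n), hr, hr0, ?_⟩, fun h hh =>
    ⟨fun n => h * g n * h⁻¹, r, fun n => Λ.mul_mem (Λ.mul_mem hh (hg n)) (Λ.inv_mem hh), hr, hr0, ?_⟩⟩
  · have h1 : Tendsto (fun n => ((r n)⁻¹ • ((g n : Mt) - 1)).adjugate) atTop (𝓝 X.adjugate) :=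
      ((continuous_id.matrix_adjugate).tendsto X).comp hX
    rw [adj_eq_neg htr] at h1
    refine h1.congr fun n => ?_
    rw [adj_smul_sub, Matrix.SpecialLinearGroup.coe_inv]
  · have h1 : Continuous fun Y : Mt => (h : Mt) * Y * ((h⁻¹ : SL2) : Mt) :=
      (continuous_const.matrix_mul continuous_id).matrix_mul continuous_const
    have h2 := (h1.tendsto X).comp hX
    refine h2.congr fun n => ?_
    have h3 : (h : Mt) * ((h⁻¹ : SL2) : Mt) = 1 := by
      rw [← Matrix.SpecialLinearGroup.coe_mul, mul_inv_cancel, Matrix.SpecialLinearGroup.coe_one]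
    simp only [Function.comp, Matrix.SpecialLinearGroup.coe_mul]
    rw [Matrix.mul_smul, Matrix.smul_mul, Matrix.mul_sub, Matrix.sub_mul, Matrix.mul_one, h3]

end Pool.Agent.Work.MP_d2a4bb_nt.QA
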