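import Pool.Agent.Work.MP_d2a4bb_nt.QA.Stmts

/-!
# Item TANX: a tangent vector exists
-/

set_option autoImplicit false

open Filter Topology

namespace Pool.Agent.Work.MP_d2a4bb_nt.QA

namespace I_TANX

/-- the maximum of the absolute values of the entries -/
noncomputable def N0 (x : Fin 2 → Fin 2 → ℝ) : ℝ := ‖x‖

theorem N0_cont : Continuous N0 := continuous_norm

theorem le_N0 (x : Fin 2 → Fin 2 → ℝ) (i j : Fin 2) : |x i j| ≤ N0 x := by
  have h1 : ‖x i‖ ≤ ‖x‖ := norm_le_pi_norm x i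
  have h2 : ‖x i j‖ ≤ ‖x i‖ := norm_le_pi_norm (x i) j
  exact le_trans h2 h1

theorem N0_smul (c : ℝ) (x : Fin 2 → Fin 2 → ℝ) : N0 (c • x) = |c| * N0 x := norm_smul c x

theorem N0_eq_zero (x : Fin 2 → Fin 2 → ℝ) : N0 x = 0 ↔ x = 0 := norm_eq_zero

theorem N0_nonneg (x : Fin 2 → Fin 2 → ℝ) : 0 ≤ N0 x := norm_nonneg x

/-- the same, for matrices -/
noncomputable def Nr (x : Mt) : ℝ := N0 x

theorem Nr_cont : Continuous Nr := N0_cont

theorem le_Nr (x : Mt) (i j : Fin 2) : |x i j| ≤ Nr x := le_N0 x i j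

theorem Nr_smul (c : ℝ) (x : Mt) : Nr (c • x) = |c| * Nr x := N0_smul c x

theorem Nr_eq_zero (x : Mt) : Nr x = 0 ↔ x = 0 := N0_eq_zero x

theorem Nr_nonneg (x : Mt) : 0 ≤ Nr x := N0_nonneg x

theorem subseq (C : ℝ) (u : ℕ → Mt) (hu : ∀ n i j, |u n i j| ≤ C) :
    ∃ (a : Mt) (φ : ℕ → ℕ), StrictMono φ ∧ Tendsto (fun n => u (φ n)) atTop (𝓝 a) := by
  have hK : IsCompact (Set.pi Set.univ fun _ : Fin 2 => Set.pi Set.univ fun _ : Fin 2 =>
      Set.Icc (-C) C) := isCompact_univ_pi fun _ => isCompact_univ_pi fun _ => isCompact_Icc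
  have hmem : ∀ n, (fun i j => u n i j : Fin 2 → Fin 2 → ℝ) ∈
      (Set.pi Set.univ fun _ : Fin 2 => Set.pi Set.univ fun _ : Fin 2 => Set.Icc (-C) C) := by
    intro n i _ j _
    exact abs_le.mp (hu n i j)
  obtain ⟨a, -, φ, h1, h2⟩ := hK.tendsto_subseq hmem
  exact ⟨a, φ, h1, h2⟩

theorem entry {u : ℕ → Mt} {a : Mt} (h : Tendsto u atTop (𝓝 a)) (i j : Fin 2) :
    Tendsto (fun n => u n i j) atTop (𝓝 (a i j)) := by
  have h1 := tendsto_pi_nhds.mp (show Tendsto (u : ℕ → (Fin 2 → Fin 2 → ℝ)) atTop (𝓝 a) from h) i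
  exact tendsto_pi_nhds.mp h1 j

theorem inv_entries (g : SL2) (C : ℝ) (h : ∀ i j, |(g : Mt) i j| ≤ C) (i j : Fin 2) :
    |((g⁻¹ : SL2) : Mt) i j| ≤ C := by
  rw [Matrix.SpecialLinearGroup.coe_inv, Matrix.adjugate_fin_two]
  fin_cases i <;> fin_cases j <;> simp [h]

end I_TANX

open I_TANX in
theorem TANX_pf (hCOC : S_COC) (hTAN : S_TAN) : S_TANX := by
  intro O hO Λ hΓ hInf
  obtain ⟨l, hl1, hl2⟩ := hInf
  obtain ⟨C, hC0, hC⟩ := hCOC O hO
  choose c hc1 hc2 using fun j => hC (l j)⁻¹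
  -- the elements h j
  set h : ℕ → SL2 := fun j => (c j)⁻¹ * l j with hh
  have hhΛ : ∀ j, h j ∈ Λ := fun j => Λ.mul_mem (Λ.inv_mem (hΓ (hc1 j))) (hl1 j)
  have hinj : ∀ i j, h i = h j → i = j := by
    intro i j e
    by_contra hne
    apply hl2 i j hne
    have e1 : l i * (l j)⁻¹ = c i * (c j)⁻¹ := by
      have e2 : l i = c i * ((c j)⁻¹ * l j) := by
        rw [← show h j = (c j)⁻¹ * l j from rfl, ← e, show h i = (c i)⁻¹ * l i from rfl,
          mul_inv_cancel_left]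
      rw [e2]
      group
    rw [e1]
    exact (Gam O).mul_mem (hc1 i) ((Gam O).inv_mem (hc1 j))
  have hbd : ∀ n i j, |(h n : Mt) i j| ≤ C := by
    intro n
    have e : h n = (((l n)⁻¹ * c n : SL2))⁻¹ := by
      rw [mul_inv_rev, inv_inv]
    rw [e]
    exact inv_entries _ C (hc2 n)
  obtain ⟨A, φ, hφ, hA⟩ := subseq C (fun n => (h n : Mt)) hbd
  have hdet : A.det = 1 := by
    have h1 : Tendsto (fun n => ((h (φ n) : SL2) : Mt).det) atTop (𝓝 A.det) :=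
      ((continuous_id.matrix_det).tendsto A).comp hA
    have h2 : (fun n => ((h (φ n) : SL2) : Mt).det) = fun _ => (1 : ℝ) := by
      funext n
      exact (h (φ n)).det_coe
    rw [h2] at h1
    exact tendsto_nhds_unique h1 tendsto_const_nhds
  set g : ℕ → SL2 := fun n => h (φ n) * (h (φ (n + 1)))⁻¹ with hg
  have hgΛ : ∀ n, g n ∈ Λ := fun n => Λ.mul_mem (hhΛ _) (Λ.inv_mem (hhΛ _))
  have hg1 : ∀ n, g n ≠ 1 := by
    intro n e
    have e1 : h (φ n) = h (φ (n + 1)) := mul_inv_eq_one.mp e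
    have e2 := hinj _ _ e1
    have e3 := hφ (Nat.lt_succ_self n)
    simp only [Nat.succ_eq_add_one] at e3
    omega
  have hglim : Tendsto (fun n => (g n : Mt)) atTop (𝓝 1) := by
    have h1 : Tendsto (fun n => ((h (φ (n + 1)) : SL2) : Mt)) atTop (𝓝 A) :=
      hA.comp (tendsto_add_atTop_nat 1)
    have h2 : Tendsto (fun n => ((h (φ (n + 1)) : SL2) : Mt).adjugate) atTop (𝓝 A.adjugate) :=
      ((continuous_id.matrix_adjugate).tendsto A).comp h1
    have h3 : Tendsto (fun n => ((h (φ n) : SL2) : Mt) * ((h (φ (n + 1)) : SL2) : Mt).adjugate)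
        atTop (𝓝 (A * A.adjugate)) := hA.mul h2
    rw [Matrix.mul_adjugate, hdet, one_smul] at h3
    refine h3.congr ?_
    intro n
    show _ = ((h (φ n) * (h (φ (n + 1)))⁻¹ : SL2) : Mt)
    rw [Matrix.SpecialLinearGroup.coe_mul (h (φ n)) _,
      Matrix.SpecialLinearGroup.coe_inv (h (φ (n + 1)))]
  have hdlim : Tendsto (fun n => (g n : Mt) - 1) atTop (𝓝 0) := by
    have := hglim.sub_const 1
    rwa [sub_self] at this
  have hrpos : ∀ n, 0 < Nr ((g n : Mt) - 1) := by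
    intro n
    refine lt_of_le_of_ne (Nr_nonneg _) ?_
    intro e
    have e1 := (Nr_eq_zero _).mp e.symm
    apply hg1 n
    apply Subtype.ext
    have e2 : (g n : Mt) - 1 = 0 := e1
    rw [sub_eq_zero] at e2
    rw [e2]
    rfl
  have hrlim : Tendsto (fun n => Nr ((g n : Mt) - 1)) atTop (𝓝 0) := by
    have h1 : Tendsto (fun n => Nr ((g n : Mt) - 1)) atTop (𝓝 (Nr 0)) :=
      (Nr_cont.tendsto 0).comp hdlim
    rwa [(Nr_eq_zero 0).mpr rfl] at h1
  have hvN : ∀ n, Nr ((Nr ((g n : Mt) - 1))⁻¹ • ((g n : Mt) - 1)) = 1 := by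
    intro n
    have h1 := Nr_smul (Nr ((g n : Mt) - 1))⁻¹ ((g n : Mt) - 1)
    have h2 : |(Nr ((g n : Mt) - 1))⁻¹| * Nr ((g n : Mt) - 1) = 1 := by
      rw [abs_of_pos (inv_pos.mpr (hrpos n)), inv_mul_cancel₀ (hrpos n).ne']
    exact h1.trans h2
  obtain ⟨X, ψ, hψ, hX⟩ := subseq 1
    (fun n => (Nr ((g n : Mt) - 1))⁻¹ • ((g n : Mt) - 1)) (fun n i j => by
      have h1 := le_Nr ((Nr ((g n : Mt) - 1))⁻¹ • ((g n : Mt) - 1)) i j
      rwa [hvN n] at h1)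
  have hXN : Nr X = 1 := by
    have h1 : Tendsto (fun n => Nr ((Nr ((g (ψ n) : Mt) - 1))⁻¹ • ((g (ψ n) : Mt) - 1))) atTop
        (𝓝 (Nr X)) := (Nr_cont.tendsto X).comp hX
    simp only [hvN] at h1
    exact tendsto_nhds_unique h1 tendsto_const_nhds
  have hT : Tan Λ X := ⟨fun n => g (ψ n), fun n => Nr ((g (ψ n) : Mt) - 1),
    fun n => hgΛ _, fun n => hrpos _, hrlim.comp hψ.tendsto_atTop, hX⟩
  refine ⟨X, ?_, (hTAN Λ X hT).1, hT⟩
  intro e
  rw [e] at hXN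
  have : Nr 0 = 0 := (Nr_eq_zero 0).mpr rfl
  have h3 : (1 : ℝ) = 0 := hXN.symm.trans this
  norm_num at h3

end Pool.Agent.Work.MP_d2a4bb_nt.QA
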