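import Pool.Agent.Work.MP_d2a4bb_nt.QA.Stmts

/-!
# MP_d2a4bb_nt, block QA, item TREE: reduced words modulo `Γ` form a tree
-/

set_option autoImplicit false

open Filter Topology

namespace Pool.Agent.Work.MP_d2a4bb_nt.QA

namespace I_TREE

open Classical in
/-- the element `√p g` of the order -/
noncomputable def xx (O : Subring Mt) (p : ℕ) (g : SL2) : O :=
  if h : Real.sqrt p • (g : Mt) ∈ O then ⟨Real.sqrt p • (g : Mt), h⟩ else 0

theorem xx_coe {O : Subring Mt} {p : ℕ} {g : SL2} (h : g ∈ Ep O p) :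
    ((xx O p g : O) : Mt) = Real.sqrt p • (g : Mt) := by
  have h1 : xx O p g = ⟨Real.sqrt p • (g : Mt), h⟩ := dif_pos h
  rw [h1]

theorem cmul_coe {O : Subring Mt} (p j : ℕ) (z : O) :
    (((p : O) ^ j * z : O) : Mt) = ((p : ℝ) ^ j) • (z : Mt) := by
  have e1 : ((p : Mt)) ^ j = ((p : ℝ) ^ j) • (1 : Mt) := by
    rw [← Nat.cast_pow, ← Nat.cast_pow, Nat.cast_smul_eq_nsmul, nsmul_eq_mul, mul_one]
  rw [Subring.coe_mul, Subring.coe_pow, Subring.coe_natCast, e1, Matrix.smul_mul, Matrix.one_mul]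

/-- products in the order -/
def px {O : Subring Mt} (x : ℕ → O) : ℕ → O
  | 0 => 1
  | i + 1 => x i * px x i

theorem map_px {O : Subring Mt} {K : Type} [Field K] (φ : O →+* Matrix (Fin 2) (Fin 2) K)
    (x : ℕ → O) (L : ℕ) : φ (px x L) = vm (fun i => φ (x i)) L := by
  induction L with
  | zero => exact map_one φ
  | succ L ih =>
    show φ (x L * px x L) = φ (x L) * vm (fun i => φ (x i)) L
    rw [map_mul, ih]

theorem px_coe {O : Subring Mt} {p : ℕ} (a : ℕ → SL2) (L : ℕ) (h : ∀ i < L, a i ∈ Ep O p) :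
    ((px (fun i => xx O p (a i)) L : O) : Mt) = Real.sqrt p ^ L • ((vw a L : SL2) : Mt) := by
  induction L with
  | zero =>
    rw [pow_zero, one_smul]
    rfl
  | succ L ih =>
    show ((xx O p (a L) * px (fun i => xx O p (a i)) L : O) : Mt) =
      Real.sqrt p ^ (L + 1) • ((a L * vw a L : SL2) : Mt)
    rw [Subring.coe_mul, xx_coe (h L (Nat.lt_succ_self L)),
      ih (fun i hi => h i (Nat.lt_succ_of_lt hi)), Matrix.SpecialLinearGroup.coe_mul,
      Matrix.smul_mul, Matrix.mul_smul, smul_smul, pow_succ']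

theorem vw_shift (a : ℕ → SL2) (L : ℕ) : vw a (L + 1) = vw (fun i => a (i + 1)) L * a 0 := by
  induction L with
  | zero => simp [vw]
  | succ L ih =>
    show a (L + 1) * vw a (L + 1) = a (L + 1) * vw (fun i => a (i + 1)) L * a 0
    rw [ih, mul_assoc]

section
variable {O : Subring Mt} {p : ℕ} (hO : QOrd O) (hp : p.Prime)
  (hGE : S_GE) (hRK : S_RK) (hLOC : S_LOC)
  (φ : O →+* Matrix (Fin 2) (Fin 2) (ZMod p)) (hφs : Function.Surjective φ)
  (hφk : ∀ x : O, φ x = 0 ↔ ∃ y : O, x = (p : O) * y)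

include hO hp hGE hRK hLOC hφs hφk

theorem ker_px (a : ℕ → SL2) (L : ℕ) (hL : 1 ≤ L) (h : ∀ i < L, a i ∈ Ep O p) (hNB : NB O a L) :
    ∀ v, (φ (px (fun i => xx O p (a i)) L)).mulVec v = 0 ↔
      (φ (xx O p (a 0))).mulVec v = 0 := by
  have hpf : Fact p.Prime := ⟨hp⟩
  obtain ⟨hL1, hL2, -, -⟩ := hLOC O p hO hp φ hφs hφk
  obtain ⟨-, hG1, hG2⟩ := hGE O hO
  have hdet : ∀ i < L, ((xx O p (a i) : O) : Mt).det = p := by
    intro i hi
    rw [xx_coe (h i hi)]
    exact (hG2 p).2.2 (a i)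
  have hp0 : (p : ℝ) ≠ 0 := by exact_mod_cast hp.ne_zero
  rw [map_px]
  refine hRK (ZMod p) L (fun i => φ (xx O p (a i))) hL (fun i hi => hL1 _ (hdet i hi)) ?_
  intro i hi h0
  have h0' : φ (xx O p (a (i + 1)) * xx O p (a i)) = 0 := by
    rw [map_mul]
    exact h0
  obtain ⟨z, hz, he⟩ := hL2 _ _ (hdet (i + 1) hi) (hdet i (by omega)) h0'
  rw [xx_coe (h (i + 1) hi), xx_coe (h i (by omega)), Matrix.smul_mul, Matrix.mul_smul, smul_smul,
    Real.mul_self_sqrt (Nat.cast_nonneg p)] at he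
  have h3 : (a (i + 1) : Mt) * (a i : Mt) = (z : Mt) :=
    smul_right_injective Mt hp0 he
  apply hNB i hi
  apply hG1
  rw [Matrix.SpecialLinearGroup.coe_mul, h3]
  exact z.2

theorem px_ne (a : ℕ → SL2) (L : ℕ) (h : ∀ i < L, a i ∈ Ep O p) (hNB : NB O a L) :
    φ (px (fun i => xx O p (a i)) L) ≠ 0 := by
  have hpf : Fact p.Prime := ⟨hp⟩
  rcases Nat.eq_zero_or_pos L with hL | hL
  · subst hL
    show φ 1 ≠ 0
    rw [map_one]
    exact one_ne_zero
  · intro h0
    have hk := ker_px hO hp hGE hRK hLOC φ hφs hφk a L hL h hNB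
    obtain ⟨hL1, -, -, -⟩ := hLOC O p hO hp φ hφs hφk
    obtain ⟨-, -, hG2⟩ := hGE O hO
    have hdet : ((xx O p (a 0) : O) : Mt).det = p := by
      rw [xx_coe (h 0 hL)]
      exact (hG2 p).2.2 (a 0)
    apply (hL1 _ hdet).2
    have h1 : ∀ v, (φ (xx O p (a 0))).mulVec v = 0 := by
      intro v
      rw [← hk v, h0, Matrix.zero_mulVec]
    ext i j
    have h2 := congrFun (h1 (Pi.single j 1)) i
    rw [Matrix.mulVec_single_one] at h2
    exact h2

/-- words of different length -/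
theorem len (hIRR : S_IRR) (a a' : ℕ → SL2) (L L' : ℕ) (hle : L' ≤ L) (h : ∀ i < L, a i ∈ Ep O p)
    (h' : ∀ i < L', a' i ∈ Ep O p) (hNB : NB O a L)
    (hg : vw a L * (vw a' L')⁻¹ ∈ Gam O) : L = L' := by
  set X := px (fun i => xx O p (a i)) L with hX
  set X' := px (fun i => xx O p (a' i)) L' with hX'
  have hne : φ X ≠ 0 := px_ne hO hp hGE hRK hLOC φ hφs hφk a L h hNB
  set γ : SL2 := vw a L * (vw a' L')⁻¹ with hγ
  let c : O := ⟨(γ : Mt), hg.1⟩
  have hXe : (X : Mt) = Real.sqrt p ^ (L - L') • ((c * X' : O) : Mt) := by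
    rw [hX, px_coe a L h, Subring.coe_mul, hX', px_coe a' L' h', Matrix.mul_smul, smul_smul,
      ← pow_add, Nat.sub_add_cancel hle]
    congr 1
    show ((vw a L : SL2) : Mt) = (γ : Mt) * ((vw a' L' : SL2) : Mt)
    rw [← Matrix.SpecialLinearGroup.coe_mul, hγ, inv_mul_cancel_right]
  by_contra hLL
  have hlt : 0 < L - L' := by omega
  rcases Nat.even_or_odd' (L - L') with ⟨j, hj | hj⟩
  · -- even difference
    have hj1 : 1 ≤ j := by omega
    apply hne
    rw [hφk]
    refine ⟨(p : O) ^ (j - 1) * (c * X'), ?_⟩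
    have e1 : (p : O) * ((p : O) ^ (j - 1) * (c * X')) = (p : O) ^ j * (c * X') := by
      rw [← mul_assoc, ← pow_succ', Nat.sub_add_cancel hj1]
    rw [e1]
    apply Subtype.ext
    rw [cmul_coe, hXe, hj, pow_mul, Real.sq_sqrt (Nat.cast_nonneg p)]
  · -- odd difference
    apply hne
    have hy : (((p : O) ^ j * (c * X') : O) : Mt) = ((p : ℝ) ^ j) • ((c * X' : O) : Mt) :=
      cmul_coe p j (c * X')
    have hXy : (X : Mt) = Real.sqrt p • (((p : O) ^ j * (c * X') : O) : Mt) := by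
      rw [hy, hXe, hj, pow_succ', pow_mul, Real.sq_sqrt (Nat.cast_nonneg p), smul_smul]
    have h0 := hIRR O p hO hp _ ((p : O) ^ j * (c * X')).2 (by rw [← hXy]; exact X.2)
    have hX0 : X = 0 := by
      apply Subtype.ext
      rw [hXy, h0, smul_zero]
      rfl
    rw [hX0, map_zero]

end

end I_TREE

open I_TREE in
/-- [TREE] -/
theorem TREE_pf (hGE : S_GE) (hRK : S_RK) (hLOC : S_LOC) (hIRR : S_IRR) : S_TREE := by
  intro O p R hO hp hS hR
  obtain ⟨φ, hφs, hφk⟩ := hS
  have hpf : Fact p.Prime := ⟨hp⟩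
  have hps : Real.sqrt p ≠ 0 := by
    have h1 : (0 : ℝ) < p := by exact_mod_cast hp.pos
    exact (Real.sqrt_pos.2 h1).ne'
  obtain ⟨hL1, hL2, hL3, hL4⟩ := hLOC O p hO hp φ hφs hφk
  obtain ⟨-, hG1, hG2⟩ := hGE O hO
  have hE : ∀ b ∈ R, b ∈ Ep O p := hR.mem
  have key : ∀ (L : ℕ) (a a' : ℕ → SL2), (∀ i < L, a i ∈ R) → (∀ i < L, a' i ∈ R) →
      NB O a L → NB O a' L → vw a L * (vw a' L)⁻¹ ∈ Gam O → ∀ i < L, a i = a' i := by
    intro L
    induction L with
    | zero => intro a a' _ _ _ _ _ i hi; omega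
    | succ L ih =>
      intro a a' ha ha' hN hN' hg
      have hEa : ∀ i < L + 1, a i ∈ Ep O p := fun i hi => hE _ (ha i hi)
      have hEa' : ∀ i < L + 1, a' i ∈ Ep O p := fun i hi => hE _ (ha' i hi)
      have hk := ker_px hO hp hGE hRK hLOC φ hφs hφk a (L + 1) (by omega) hEa hN
      have hk' := ker_px hO hp hGE hRK hLOC φ hφs hφk a' (L + 1) (by omega) hEa' hN'
      set γ : SL2 := vw a (L + 1) * (vw a' (L + 1))⁻¹ with hγ
      let c : O := ⟨(γ : Mt), hg.1⟩
      have hc : (c : Mt).det = 1 := γ.2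
      have hXX : px (fun i => xx O p (a i)) (L + 1) =
          c * px (fun i => xx O p (a' i)) (L + 1) := by
        apply Subtype.ext
        rw [px_coe a (L + 1) hEa, Subring.coe_mul, px_coe a' (L + 1) hEa', Matrix.mul_smul]
        congr 1
        show ((vw a (L + 1) : SL2) : Mt) = (γ : Mt) * ((vw a' (L + 1) : SL2) : Mt)
        rw [← Matrix.SpecialLinearGroup.coe_mul, hγ, inv_mul_cancel_right]
      have h00 : ∀ v, (φ (xx O p (a 0))).mulVec v = 0 → (φ (xx O p (a' 0))).mulVec v = 0 := by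
        intro v hv
        rw [← hk v, hXX, hL4 c _ hc v] at hv
        exact (hk' v).1 hv
      have hdet : ∀ g ∈ Ep O p, ((xx O p g : O) : Mt).det = p := by
        intro g hg'
        rw [xx_coe hg']
        exact (hG2 p).2.2 g
      obtain ⟨d, hd, hde⟩ := hL3 _ _ (hdet _ (hEa 0 (by omega))) (hdet _ (hEa' 0 (by omega))) h00
      have hde' : (a' 0 : Mt) = (d : Mt) * (a 0 : Mt) := by
        have h1 := congrArg (fun z : O => (z : Mt)) hde
        simp only [Subring.coe_mul] at h1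
        rw [xx_coe (hEa 0 (by omega)), xx_coe (hEa' 0 (by omega)), Matrix.mul_smul] at h1
        exact smul_right_injective Mt hps h1
      have h0 : a' 0 = a 0 := by
        apply hR.uniq _ (ha' 0 (by omega)) _ (ha 0 (by omega))
        apply hG1
        have h1 : ((a' 0 * (a 0)⁻¹ : SL2) : Mt) = (d : Mt) := by
          rw [Matrix.SpecialLinearGroup.coe_mul, hde', Matrix.mul_assoc,
            ← Matrix.SpecialLinearGroup.coe_mul, mul_inv_cancel,
            Matrix.SpecialLinearGroup.coe_one, Matrix.mul_one]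
        rw [h1]
        exact d.2
      have hg2 : vw (fun i => a (i + 1)) L * (vw (fun i => a' (i + 1)) L)⁻¹ ∈ Gam O := by
        have e1 : γ = vw (fun i => a (i + 1)) L * (vw (fun i => a' (i + 1)) L)⁻¹ := by
          rw [hγ, vw_shift, vw_shift, h0]
          group
        rw [← e1]
        exact hg
      have hrest := ih (fun i => a (i + 1)) (fun i => a' (i + 1))
        (fun i hi => ha (i + 1) (by omega)) (fun i hi => ha' (i + 1) (by omega))
        (fun i hi => hN (i + 1) (by omega)) (fun i hi => hN' (i + 1) (by omega)) hg2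
      intro i hi
      rcases Nat.eq_zero_or_pos i with h | h
      · rw [h, h0]
      · have h1 : a (i - 1 + 1) = a' (i - 1 + 1) := hrest (i - 1) (by omega)
        rw [Nat.sub_add_cancel h] at h1
        exact h1
  intro L L' a a' ha ha' hN hN' hg
  have hLL : L = L' := by
    rcases le_total L' L with h | h
    · exact len hO hp hGE hRK hLOC φ hφs hφk hIRR a a' L L' h (fun i hi => hE _ (ha i hi))
        (fun i hi => hE _ (ha' i hi)) hN hg
    · have hg' : vw a' L' * (vw a L)⁻¹ ∈ Gam O := by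
        have h1 := (Gam O).inv_mem hg
        rw [mul_inv_rev, inv_inv] at h1
        exact h1
      exact (len hO hp hGE hRK hLOC φ hφs hφk hIRR a' a L' L h (fun i hi => hE _ (ha' i hi))
        (fun i hi => hE _ (ha i hi)) hN' hg').symm
  subst hLL
  exact ⟨rfl, key L a a' ha ha' hN hN' hg⟩

end Pool.Agent.Work.MP_d2a4bb_nt.QA
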