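import Mathlib
import Pool.Agent.Work.MP_d2a4bb_nt.QA.Stmts

/-!
# The group generated by the Hecke elements in terms of words (item WORD)
-/

set_option autoImplicit false

open Filter Topology

namespace Pool.Agent.Work.MP_d2a4bb_nt.QA

namespace I_WORD

theorem vw_congr {a a' : ℕ → SL2} : ∀ L : ℕ, (∀ i < L, a i = a' i) → vw a L = vw a' L := by
  intro L
  induction L with
  | zero => intro _; rfl
  | succ L ih =>
    intro h
    show a L * vw a L = a' L * vw a' L
    rw [h L (Nat.lt_succ_self L), ih (fun i hi => h i (Nat.lt_succ_of_lt hi))]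

/-- adding two letters -/
theorem step {O : Subring Mt} {p : ℕ} {R : Finset SL2}
    (hG : ∀ c ∈ Gam O, ∀ g ∈ Ep O p, c * g ∈ Ep O p ∧ g * c ∈ Ep O p) (hR : IsReps O p R)
    {e1 e2 y : SL2} (h1 : e1 ∈ Ep O p) (h2 : e2 ∈ Ep O p)
    (hy : ∃ (n : ℕ) (a : ℕ → SL2), (∀ i, a i ∈ R) ∧ y * (vw a (2 * n))⁻¹ ∈ Gam O) :
    ∃ (n : ℕ) (a : ℕ → SL2), (∀ i, a i ∈ R) ∧ (e1 * e2) * y * (vw a (2 * n))⁻¹ ∈ Gam O := by
  obtain ⟨n, a, ha, hya⟩ := hy
  obtain ⟨b, hb, hbc⟩ := hR.ex _ (hG _ hya _ h2).2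
  obtain ⟨b', hb', hbc'⟩ := hR.ex _ (hG _ hbc _ h1).2
  refine ⟨n + 1, fun i => if i < 2 * n then a i else if i = 2 * n then b else b', ?_, ?_⟩
  · intro i
    dsimp only
    split_ifs
    · exact ha i
    · exact hb
    · exact hb'
  · have e : vw (fun i => if i < 2 * n then a i else if i = 2 * n then b else b') (2 * (n + 1)) =
        b' * (b * vw a (2 * n)) := by
      show (fun i => if i < 2 * n then a i else if i = 2 * n then b else b') (2 * n + 1) *
        ((fun i => if i < 2 * n then a i else if i = 2 * n then b else b') (2 * n) *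
          vw (fun i => if i < 2 * n then a i else if i = 2 * n then b else b') (2 * n)) = _
      rw [vw_congr (a' := a) (2 * n) (fun i hi => by simp [hi])]
      simp
    rw [e]
    have e2 : e1 * e2 * y * (b' * (b * vw a (2 * n)))⁻¹ =
        e1 * (e2 * (y * (vw a (2 * n))⁻¹) * b⁻¹) * b'⁻¹ := by
      group
    rw [e2]
    exact hbc'

end I_WORD

open I_WORD

theorem WORD_pf (h1 : S_GE) : S_WORD := by
  intro O p R hO hR hne
  obtain ⟨-, -, hp⟩ := h1 O hO
  obtain ⟨hinv, hG, -⟩ := hp p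
  constructor
  · intro c hc
    obtain ⟨a, ha⟩ := hne
    have hE := hR.mem a ha
    apply Subgroup.subset_closure
    exact ⟨c * a, (hG c hc a hE).1, a⁻¹, hinv a hE, by group⟩
  · intro g hg
    induction hg using Subgroup.closure_induction_left with
    | one =>
      obtain ⟨b, hb⟩ := hne
      refine ⟨0, fun _ => b, fun _ => hb, ?_⟩
      have e : (1 : SL2) * (vw (fun _ => b) (2 * 0))⁻¹ = 1 := by
        show (1 : SL2) * (1 : SL2)⁻¹ = 1
        simp
      rw [e]
      exact (Gam O).one_mem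
    | mul_left x hx y hy ih =>
      obtain ⟨e1, h1, e2, h2, rfl⟩ := hx
      exact step hG hR h1 h2 ih
    | inv_mul_cancel x hx y hy ih =>
      obtain ⟨e1, h1, e2, h2, rfl⟩ := hx
      rw [mul_inv_rev]
      exact step hG hR (hinv _ h2) (hinv _ h1) ih

end Pool.Agent.Work.MP_d2a4bb_nt.QA
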