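import Pool.Agent.Work.MP_d2a4bb_nt.QA.Br2
import Pool.Agent.Work.MP_d2a4bb_nt.QA.I_INT
import Pool.Agent.Work.MP_d2a4bb_nt.QA.I_GE
import Pool.Agent.Work.MP_d2a4bb_nt.QA.I_DISC
import Pool.Agent.Work.MP_d2a4bb_nt.QA.I_DISG
import Pool.Agent.Work.MP_d2a4bb_nt.QA.I_MINK
import Pool.Agent.Work.MP_d2a4bb_nt.QA.I_CLS
import Pool.Agent.Work.MP_d2a4bb_nt.QA.I_REPS
import Pool.Agent.Work.MP_d2a4bb_nt.QA.I_COC
import Pool.Agent.Work.MP_d2a4bb_nt.QA.I_COCH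
import Pool.Agent.Work.MP_d2a4bb_nt.QA.I_RK
import Pool.Agent.Work.MP_d2a4bb_nt.QA.I_KER
import Pool.Agent.Work.MP_d2a4bb_nt.QA.I_LOC
import Pool.Agent.Work.MP_d2a4bb_nt.QA.I_IRR
import Pool.Agent.Work.MP_d2a4bb_nt.QA.I_TREE
import Pool.Agent.Work.MP_d2a4bb_nt.QA.I_INF
import Pool.Agent.Work.MP_d2a4bb_nt.QA.I_APPR
import Pool.Agent.Work.MP_d2a4bb_nt.QA.I_PELL
import Pool.Agent.Work.MP_d2a4bb_nt.QA.I_NONC
import Pool.Agent.Work.MP_d2a4bb_nt.QA.I_INVL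
import Pool.Agent.Work.MP_d2a4bb_nt.QA.I_SPAN
import Pool.Agent.Work.MP_d2a4bb_nt.QA.I_TAN
import Pool.Agent.Work.MP_d2a4bb_nt.QA.I_TANX
import Pool.Agent.Work.MP_d2a4bb_nt.QA.I_NEAR
import Pool.Agent.Work.MP_d2a4bb_nt.QA.I_DENS
import Pool.Agent.Work.MP_d2a4bb_nt.QA.I_WORD

/-!
# The arithmetic half of block QE, without hypotheses
-/

set_option autoImplicit false

namespace Pool.Agent.Work.MP_d2a4bb_nt.QA

theorem fGE : S_GE := GE_pf INT_pf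
theorem fCLS : S_CLS := CLS_pf INT_pf fGE
theorem fREPS : S_REPS := REPS_pf fCLS
theorem fCOC : S_COC := COC_pf MINK_pf fCLS
theorem fCOCH : S_COCH := COCH_pf fCOC
theorem fLOC : S_LOC := LOC_pf INT_pf fGE KER_pf
theorem fIRR : S_IRR := IRR_pf INT_pf fGE
theorem fTREE : S_TREE := TREE_pf fGE RK_pf fLOC fIRR
theorem fINF : S_INF := INF_pf fTREE
theorem fPELL : S_PELL := PELL_pf INT_pf fGE
theorem fNONC : S_NONC := NONC_pf APPR_pf fPELL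
theorem fINVL : S_INVL := INVL_pf fNONC
theorem fSPAN : S_SPAN := SPAN_pf fINVL
theorem fNEAR : S_NEAR := NEAR_pf TAN_pf
theorem fTANX : S_TANX := TANX_pf fCOC TAN_pf
theorem fDENS : S_DENS := DENS_pf fTANX TAN_pf fNEAR fSPAN
theorem fWORD : S_WORD := WORD_pf fGE
theorem fDISG : S_DISG := DISG_pf DISC_pf

end Pool.Agent.Work.MP_d2a4bb_nt.QA

namespace HQ

open Pool.Agent.Work.MP_d2a4bb_nt.QA

theorem prINT : StINT := br_INT INT_pf fGE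
theorem prGAM : StGAM := br_GAM fGE
theorem prDSC : StDSC := br_DSC DISC_pf
theorem prCOC : StCOC := br_COC fCOCH
theorem prFIW : StFIW := br_FIW fDISG
theorem prREP : StREP := br_REP fREPS
theorem prSTP : StSTP := br_STP prGAM prCOC prFIW prREP fTREE fINF fDENS fWORD fGE

end HQ
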