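import Pool.Agent.Work.MP_d2a4bb_nt.QE.Stmts
import Pool.Agent.Work.MP_d2a4bb_nt.QA.Stmts

/-!
# Bridge from the arithmetic half (block QA) to the statements of block QE
-/

set_option autoImplicit false

open UpperHalfPlane MeasureTheory Matrix
open scoped MatrixGroups Manifold Topology ComplexConjugate

namespace Pool.Agent.Work.MP_d2a4bb_nt.QA

theorem br_ord (Q : HQ.QuatOrder) : QOrd Q.O := by
  refine ⟨⟨Q.basis, fun x => ?_⟩, Q.det_ne_zero⟩
  rw [Q.mem_iff x, Submodule.mem_span_range_iff_exists_fun]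
  constructor
  · rintro ⟨c, rfl⟩
    refine ⟨c, Finset.sum_congr rfl fun i _ => ?_⟩
    rw [← Int.cast_smul_eq_zsmul ℝ]
  · rintro ⟨c, rfl⟩
    refine ⟨c, Finset.sum_congr rfl fun i _ => ?_⟩
    rw [← Int.cast_smul_eq_zsmul ℝ]

theorem br_gam (Q : HQ.QuatOrder) : Gam Q.O = Q.Γ := by
  ext g
  rfl

theorem br_ep (Q : HQ.QuatOrder) (p : ℕ) : Ep Q.O p = Q.E p := rfl

theorem br_INT (h1 : S_INT) (h2 : S_GE) : HQ.StINT := fun Q x hx =>
  ⟨(h1 Q.O (br_ord Q) x hx).1, (h1 Q.O (br_ord Q) x hx).2, (h2 Q.O (br_ord Q)).1 x hx⟩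

theorem br_GAM (h : S_GE) : HQ.StGAM := by
  intro Q
  obtain ⟨_, h2, h3⟩ := h Q.O (br_ord Q)
  refine ⟨fun g hg => ?_, ?_, fun p => ?_⟩
  · have := h2 g hg
    rwa [br_gam] at this
  · rw [← br_gam]
    refine h2 _ ?_
    have : ((-1 : SL(2, ℝ)) : Matrix (Fin 2) (Fin 2) ℝ) = -1 := by
      rw [Matrix.SpecialLinearGroup.coe_neg, Matrix.SpecialLinearGroup.coe_one]
    rw [this]
    exact Q.O.neg_mem Q.O.one_mem
  · obtain ⟨h4, h5, _⟩ := h3 p
    refine ⟨h4, fun c hc x hx => ?_, fun c hc x hx => ?_⟩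
    · rw [← br_gam] at hc
      exact (h5 c hc x hx).1
    · rw [← br_gam] at hc
      exact (h5 c hc x hx).2

theorem br_DSC (h : S_DISC) : HQ.StDSC := fun Q C => h Q.O (br_ord Q) C

theorem br_COC (h : S_COCH) : HQ.StCOC := by
  intro Q
  obtain ⟨K, hK, hc⟩ := h Q.O (br_ord Q)
  rw [br_gam] at hc
  exact ⟨K, hK, hc⟩

/-- representatives: `Reps` of block QE is `IsReps` -/
theorem br_reps (Q : HQ.QuatOrder) (p : ℕ) (R : Finset SL(2, ℝ)) :
    HQ.Reps Q.Γ (Q.E p) R ↔ IsReps Q.O p R := by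
  constructor
  · rintro ⟨h1, h2, h3⟩
    refine ⟨h1, fun g hg => ?_, fun b hb b' hb' h => ?_⟩
    · rw [br_gam]; exact h2 g hg
    · rw [br_gam] at h; exact h3 b hb b' hb' h
  · rintro ⟨h1, h2, h3⟩
    rw [br_gam] at h2 h3
    exact ⟨h1, h2, h3⟩

/-- FIW: walks of bounded length which map a point of a compact set into the compact set. -/
theorem br_FIW (h : S_DISG) : HQ.StFIW := by
  intro Q p n hp K hK
  classical
  -- the elements which map a point of K into K form a compact set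
  have hcomp : IsCompact {x : SL(2, ℝ) | ∃ z ∈ K, x • z ∈ K} := by
    have h1 : IsProperMap (fun q : SL(2, ℝ) × ℍ => (q.1 • q.2, q.2)) :=
      ProperSMul.isProperMap_smul_pair
    have h2 : IsCompact ((fun q : SL(2, ℝ) × ℍ => (q.1 • q.2, q.2)) ⁻¹' (K ×ˢ K)) :=
      h1.isCompact_preimage (hK.prod hK)
    have h3 : {x : SL(2, ℝ) | ∃ z ∈ K, x • z ∈ K} =
        Prod.fst '' ((fun q : SL(2, ℝ) × ℍ => (q.1 • q.2, q.2)) ⁻¹' (K ×ˢ K)) := by
      ext x
      constructor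
      · rintro ⟨z, hz, hxz⟩
        exact ⟨(x, z), ⟨hxz, hz⟩, rfl⟩
      · rintro ⟨⟨y, z⟩, ⟨h4, h5⟩, rfl⟩
        exact ⟨z, h5, h4⟩
    rw [h3]
    exact h2.image continuous_fst
  -- so their entries are bounded
  have hbd : ∃ C : ℝ, ∀ x : SL(2, ℝ), (∃ z ∈ K, x • z ∈ K) → ∀ i j, |(x : Mt) i j| ≤ C := by
    have h1 : ∀ i j : Fin 2, ∃ C : ℝ, ∀ x : SL(2, ℝ), (∃ z ∈ K, x • z ∈ K) →
        |(x : Mt) i j| ≤ C := by
      intro i j
      have hc : Continuous fun x : SL(2, ℝ) => |(x : Mt) i j| := by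
        refine continuous_abs.comp ?_
        exact (Continuous.matrix_elem continuous_subtype_val i j)
      obtain ⟨C, hC⟩ := hcomp.bddAbove_image hc.continuousOn
      exact ⟨C, fun x hx => hC ⟨x, hx, rfl⟩⟩
    choose C hC using h1
    refine ⟨∑ i, ∑ j, |C i j|, fun x hx i j => ?_⟩
    calc |(x : Mt) i j| ≤ C i j := hC i j x hx
      _ ≤ |C i j| := le_abs_self _
      _ ≤ ∑ j, |C i j| := Finset.single_le_sum (f := fun j => |C i j|)
          (fun _ _ => abs_nonneg _) (Finset.mem_univ j)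
      _ ≤ ∑ i, ∑ j, |C i j| := Finset.single_le_sum (f := fun i => ∑ j, |C i j|)
          (fun _ _ => Finset.sum_nonneg fun _ _ => abs_nonneg _) (Finset.mem_univ i)
  obtain ⟨C, hC⟩ := hbd
  -- walks
  have hw : ∀ (l : List SL(2, ℝ)), (∀ e ∈ l, e ∈ Q.E p ∨ e ∈ Q.Γ) → ∃ j ≤ l.length,
      Real.sqrt p ^ j • ((l.prod : SL(2, ℝ)) : Mt) ∈ Q.O := by
    intro l
    induction l with
    | nil =>
      intro _
      refine ⟨0, le_refl _, ?_⟩
      rw [List.prod_nil, pow_zero, one_smul, Matrix.SpecialLinearGroup.coe_one]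
      exact Q.O.one_mem
    | cons e l ih =>
      intro hl
      obtain ⟨j, hj, hm⟩ := ih fun e' he' => hl e' (List.mem_cons_of_mem _ he')
      rcases hl e List.mem_cons_self with he | he
      · refine ⟨j + 1, by simpa using hj, ?_⟩
        have : Real.sqrt p ^ (j + 1) • (((e :: l).prod : SL(2, ℝ)) : Mt) =
            (Real.sqrt p • (e : Mt)) * (Real.sqrt p ^ j • ((l.prod : SL(2, ℝ)) : Mt)) := by
          rw [List.prod_cons, Matrix.SpecialLinearGroup.coe_mul, smul_mul_smul_comm, pow_succ']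
        rw [this]
        exact Q.O.mul_mem he hm
      · refine ⟨j, hj.trans (by simp), ?_⟩
        have : Real.sqrt p ^ j • (((e :: l).prod : SL(2, ℝ)) : Mt) =
            (e : Mt) * (Real.sqrt p ^ j • ((l.prod : SL(2, ℝ)) : Mt)) := by
          rw [List.prod_cons, Matrix.SpecialLinearGroup.coe_mul, mul_smul_comm]
        rw [this]
        exact Q.O.mul_mem he.1 hm
  have hfin : (⋃ j ∈ Finset.range (n + 1),
      {g : SL2 | Real.sqrt p ^ j • (g : Mt) ∈ Q.O ∧ ∀ i j, |(g : Mt) i j| ≤ C}).Finite := by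
    refine Set.Finite.biUnion (Finset.finite_toSet _) fun j _ => ?_
    refine h Q.O (br_ord Q) (Real.sqrt p ^ j) C ?_
    exact pow_ne_zero _ (Real.sqrt_ne_zero'.2 (by exact_mod_cast hp))
  refine hfin.subset ?_
  rintro x ⟨⟨l, hl, hle, rfl⟩, hx⟩
  obtain ⟨j, hj, hm⟩ := hw l hle
  rw [Set.mem_iUnion₂]
  exact ⟨j, Finset.mem_range.2 (by omega), hm, hC _ hx⟩

end Pool.Agent.Work.MP_d2a4bb_nt.QA
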