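import Pool.Agent.Work.MP_d2a4bb_nt.QA.Br

/-!
# Bridge from the arithmetic half (block QA) to the statements of block QE, second part
-/

set_option autoImplicit false

open UpperHalfPlane MeasureTheory Matrix
open scoped MatrixGroups Manifold Topology ComplexConjugate

namespace Pool.Agent.Work.MP_d2a4bb_nt.QA

theorem br_REP (h : S_REPS) : HQ.StREP := by
  intro Q p hp
  classical
  obtain ⟨R₀, hR₀⟩ := h Q.O (br_ord Q) p hp.pos
  -- the quotient is finite
  have hfin : Finite (Quotient (Q.heckeSetoid p)) := by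
    have hex : ∀ x : Q.E p, ∃ b : R₀, ∃ c ∈ Q.Γ, (x : SL(2, ℝ)) = c * (b : SL(2, ℝ)) := by
      intro x
      obtain ⟨b, hb, hc⟩ := hR₀.ex x.1 x.2
      rw [br_gam] at hc
      exact ⟨⟨b, hb⟩, _, hc, by rw [inv_mul_cancel_right]⟩
    choose F hF using hex
    have hinj : Function.Injective (fun c : Quotient (Q.heckeSetoid p) => F (Quotient.out c)) := by
      intro c c' hcc
      dsimp only at hcc
      obtain ⟨g, hg, hg'⟩ := hF (Quotient.out c)
      obtain ⟨g2, hg2, hg2'⟩ := hF (Quotient.out c')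
      rw [← hcc] at hg2'
      rw [← Quotient.out_eq c, ← Quotient.out_eq c']
      refine Quotient.sound ?_
      refine ⟨g2 * g⁻¹, Q.Γ.mul_mem hg2 (Q.Γ.inv_mem hg), ?_⟩
      rw [hg2', hg', mul_assoc, inv_mul_cancel_left]
    exact Finite.of_injective _ hinj
  have : Fintype (Quotient (Q.heckeSetoid p)) := Fintype.ofFinite _
  set o : Quotient (Q.heckeSetoid p) → SL(2, ℝ) := fun c => ((Quotient.out c : Q.E p) : SL(2, ℝ))
    with ho
  have hoinj : Function.Injective o := by
    intro c c' hcc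
    have h1 : Quotient.out c = Quotient.out c' := Subtype.ext hcc
    rw [← Quotient.out_eq c, ← Quotient.out_eq c', h1]
  refine ⟨Finset.univ.image o, ⟨?_, ?_, ?_⟩, ?_, ?_⟩
  · intro x hx
    obtain ⟨c, _, rfl⟩ := Finset.mem_image.1 hx
    exact (Quotient.out c).2
  · intro x hx
    refine ⟨o (Quotient.mk _ ⟨x, hx⟩), Finset.mem_image_of_mem _ (Finset.mem_univ _), ?_⟩
    obtain ⟨c, hc, hc'⟩ := Quotient.mk_out (s := Q.heckeSetoid p) ⟨x, hx⟩
    have h2 : x = c * o (Quotient.mk _ ⟨x, hx⟩) := hc'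
    have h3 : x * (o (Quotient.mk _ ⟨x, hx⟩))⁻¹ = c := by
      rw [mul_inv_eq_iff_eq_mul]; exact h2
    rw [h3]; exact hc
  · intro a ha b hb hab
    obtain ⟨c, _, rfl⟩ := Finset.mem_image.1 ha
    obtain ⟨c', _, rfl⟩ := Finset.mem_image.1 hb
    have h1 : c' = c := by
      rw [← Quotient.out_eq c, ← Quotient.out_eq c']
      refine Quotient.sound ?_
      exact ⟨_, hab, by rw [inv_mul_cancel_right]⟩
    rw [h1]
  · rw [Finset.card_image_of_injective _ hoinj, Finset.card_univ, HQ.QuatOrder.index,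
      Nat.card_eq_fintype_card]
  · intro k f z
    rw [HQ.QuatOrder.T, finsum_eq_sum_of_fintype, Finset.sum_image hoinj.injOn]

/-! ## Words -/

/-- the letters of a list, last letter first -/
def lw (l : List SL2) (i : ℕ) : SL2 := l.reverse.getD i 1

theorem vw_congr {a a' : ℕ → SL2} {L : ℕ} (h : ∀ i < L, a i = a' i) : vw a L = vw a' L := by
  induction L with
  | zero => rfl
  | succ L ih =>
    rw [vw, vw, h L (Nat.lt_succ_self L), ih fun i hi => h i (hi.trans (Nat.lt_succ_self L))]

theorem lw_cons_lt (x : SL2) (l : List SL2) {i : ℕ} (hi : i < l.length) :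
    lw (x :: l) i = lw l i := by
  unfold lw
  rw [List.reverse_cons, List.getD_append _ _ _ _ (by rwa [List.length_reverse])]

theorem lw_cons_eq (x : SL2) (l : List SL2) : lw (x :: l) l.length = x := by
  unfold lw
  rw [List.reverse_cons, List.getD_append_right _ _ _ _ (by rw [List.length_reverse]),
    List.length_reverse, Nat.sub_self]
  rfl

theorem vw_lw (l : List SL2) : vw (lw l) l.length = l.prod := by
  induction l with
  | nil => rfl
  | cons x l ih =>
    rw [List.length_cons, vw, lw_cons_eq, vw_congr (a' := lw l) fun i hi => lw_cons_lt x l hi, ih,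
      List.prod_cons]

theorem lw_mem {R : Finset SL2} (l : List SL2) (h : ∀ x ∈ l, x ∈ R) : ∀ i < l.length, lw l i ∈ R := by
  induction l with
  | nil => intro i hi; exact absurd hi (Nat.not_lt_zero i)
  | cons x l ih =>
    intro i hi
    rw [List.length_cons] at hi
    rcases Nat.lt_succ_iff_lt_or_eq.1 hi with h1 | h1
    · rw [lw_cons_lt x l h1]
      exact ih (fun y hy => h y (List.mem_cons_of_mem _ hy)) i h1
    · rw [h1, lw_cons_eq]
      exact h x List.mem_cons_self

theorem lw_nb {O : Subring Mt} (l : List SL2)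
    (h : l.IsChain (fun β α => β * α ∉ Gam O)) : NB O (lw l) l.length := by
  induction l with
  | nil => intro i hi; exact absurd hi (Nat.not_lt_zero _)
  | cons x l ih =>
    intro i hi
    rw [List.length_cons] at hi
    have hch : l.IsChain (fun β α => β * α ∉ Gam O) := h.of_cons
    rcases Nat.lt_succ_iff_lt_or_eq.1 hi with h1 | h1
    · rw [lw_cons_lt x l h1, lw_cons_lt x l (lt_trans (Nat.lt_succ_self i) h1)]
      exact ih hch i h1
    · cases l with
      | nil => exact absurd h1 (by simp)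
      | cons y l' =>
        have h2 : i + 1 = (y :: l').length := h1
        have h3 : i = l'.length := by simpa using h2
        rw [h2, lw_cons_eq, h3, lw_cons_lt x (y :: l') (by simp), lw_cons_eq]
        exact (List.isChain_cons_cons.1 h).1

theorem lw_inj : ∀ (l l' : List SL2), l.length = l'.length →
    (∀ i < l.length, lw l i = lw l' i) → l = l' := by
  intro l
  induction l with
  | nil =>
    intro l' h _
    exact (List.length_eq_zero_iff.1 h.symm).symm
  | cons x l ih =>
    intro l' h hl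
    cases l' with
    | nil => exact absurd h (by simp)
    | cons y l' =>
      have h1 : l.length = l'.length := by simpa using h
      have h2 : x = y := by
        have := hl l.length (by simp)
        rw [lw_cons_eq] at this
        rw [this, h1, lw_cons_eq]
      have h3 : l = l' := by
        refine ih l' h1 fun i hi => ?_
        have := hl i (lt_trans hi (by simp))
        rwa [lw_cons_lt x l hi, lw_cons_lt y l' (by rwa [← h1])] at this
      rw [h2, h3]

/-- different words give different classes -/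
theorem br_inj (h : S_TREE) (Q : HQ.QuatOrder) (p : ℕ) (hp : p.Prime) (hg : Q.Good p)
    (R : Finset SL(2, ℝ)) (hR : HQ.Reps Q.Γ (Q.E p) R) (a b : List SL(2, ℝ))
    (ha : HQ.IsWord Q.Γ R a) (hb : HQ.IsWord Q.Γ R b) (hab : a.prod * b.prod⁻¹ ∈ Q.Γ) : a = b := by
  have hR' := (br_reps Q p R).1 hR
  have h1 := h Q.O p R (br_ord Q) hp hg hR' a.length b.length (lw a) (lw b)
    (lw_mem a ha.1) (lw_mem b hb.1)
    (lw_nb a (by rw [br_gam]; exact ha.2)) (lw_nb b (by rw [br_gam]; exact hb.2))
    (by rw [vw_lw, vw_lw, br_gam]; exact hab)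
  exact lw_inj a b h1.1 h1.2

/-- density -/
theorem br_dense (h1 : S_INF) (h2 : S_DENS) (h3 : S_WORD) (h4 : S_GE) (Q : HQ.QuatOrder) (p : ℕ)
    (hp : p.Prime) (hg : Q.Good p) (R : Finset SL(2, ℝ)) (hR : HQ.Reps Q.Γ (Q.E p) R)
    (hc : 3 ≤ R.card) (z w : ℍ) (ε : ℝ) (hε : 0 < ε) :
    ∃ l : List SL(2, ℝ), Even l.length ∧ (∀ e ∈ l, e ∈ Q.E p) ∧ dist (l.prod • z) w < ε := by
  have hR' := (br_reps Q p R).1 hR
  have hinf := h1 Q.O p R (br_ord Q) hp hg hR' (by omega)
  have hne : R.Nonempty := Finset.card_pos.1 (by omega)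
  obtain ⟨hle, _⟩ := h3 Q.O p R (br_ord Q) hR' hne
  obtain ⟨g, hgL, hd⟩ := h2 Q.O (br_ord Q) (Lam Q.O p) hle hinf z w ε hε
  obtain ⟨_, _, h5⟩ := h4 Q.O (br_ord Q)
  obtain ⟨hinv, _, _⟩ := h5 p
  have key : ∀ g ∈ Lam Q.O p, ∃ l : List SL(2, ℝ), Even l.length ∧ (∀ e ∈ l, e ∈ Q.E p) ∧
      l.prod = g := by
    intro g hg
    unfold Lam at hg
    induction hg using Subgroup.closure_induction with
    | mem x hx =>
      obtain ⟨a, ha, b, hb, rfl⟩ := hx
      refine ⟨[a, b], ⟨1, rfl⟩, ?_, by simp⟩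
      intro e he
      simp only [List.mem_cons, List.not_mem_nil, or_false] at he
      rcases he with rfl | rfl
      · exact ha
      · exact hb
    | one => exact ⟨[], ⟨0, rfl⟩, by simp, rfl⟩
    | mul x y _ _ hx hy =>
      obtain ⟨l, h1, h2, h3⟩ := hx
      obtain ⟨l', h1', h2', h3'⟩ := hy
      refine ⟨l ++ l', ?_, ?_, ?_⟩
      · rw [List.length_append]; exact h1.add h1'
      · intro e he
        rcases List.mem_append.1 he with he | he
        · exact h2 e he
        · exact h2' e he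
      · rw [List.prod_append, h3, h3']
    | inv x _ hx =>
      obtain ⟨l, h1, h2, h3⟩ := hx
      refine ⟨(l.map fun x => x⁻¹).reverse, ?_, ?_, ?_⟩
      · rw [List.length_reverse, List.length_map]; exact h1
      · intro e he
        rw [List.mem_reverse, List.mem_map] at he
        obtain ⟨e', he', rfl⟩ := he
        exact hinv e' (h2 e' he')
      · rw [← List.prod_inv_reverse, h3]
  obtain ⟨l, hl1, hl2, hl3⟩ := key g hgL
  exact ⟨l, hl1, hl2, by rw [hl3]; exact hd⟩

/-- the Setup of block QE -/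
theorem br_STP (hGAM : HQ.StGAM) (hCOC : HQ.StCOC) (hFIW : HQ.StFIW) (hREP : HQ.StREP)
    (hT : S_TREE) (h1 : S_INF) (h2 : S_DENS) (h3 : S_WORD) (h4 : S_GE) : HQ.StSTP := by
  intro Q p hp hg hc
  obtain ⟨R, hR, hcard, hTR⟩ := hREP Q p hp
  obtain ⟨_, hneg, h5⟩ := hGAM Q
  obtain ⟨hinv, hmul, _⟩ := h5 p
  obtain ⟨K, hK, hKc⟩ := hCOC Q
  have hRc : 3 ≤ R.card := by rw [hcard]; exact hc
  exact ⟨{
    Γ := Q.Γ
    E := Q.E p
    R := R
    neg_mem := hneg
    E_inv := hinv
    E_mul := hmul
    R_mem := hR.1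
    R_rep := hR.2.1
    R_inj := hR.2.2
    card := hRc
    inj := fun a b ha hb hab => br_inj hT Q p hp hg R hR a b ha hb hab
    fin := fun n K hK => hFIW Q p n hp.pos K hK
    K := K
    K_compact := hK
    K_cover := hKc
    dense := fun z w ε hε => br_dense h1 h2 h3 h4 Q p hp hg R hR hRc z w ε hε }, rfl, rfl, hTR⟩

end Pool.Agent.Work.MP_d2a4bb_nt.QA
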