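import Mathlib

/-!
# Orders of quaternion division algebras over `ℚ` split at infinity, inside `M_2(ℝ)`: definitions

Arithmetic half of the block `MP_d2a4bb_nt` (note 4592).
-/

set_option autoImplicit false

open Filter Topology

namespace Pool.Agent.Work.MP_d2a4bb_nt.QA

/-- real `2 × 2` matrices -/
abbrev Mt := Matrix (Fin 2) (Fin 2) ℝ

/-- the group `SL_2(ℝ)` -/
abbrev SL2 := Matrix.SpecialLinearGroup (Fin 2) ℝ

/-- `O` is an order of a quaternion division algebra over `ℚ` which splits at infinity, embedded in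
`M_2(ℝ)`: a subring which is the `ℤ`-span of an `ℝ`-basis of `M_2(ℝ)`, and whose nonzero elements are
invertible in `M_2(ℝ)`.  (Its `ℚ`-span `M` satisfies `M ⊗ ℝ = M_2(ℝ)`, so `M` is a quaternion algebra
over `ℚ`, and a division algebra.) -/
structure QOrd (O : Subring Mt) : Prop where
  lat : ∃ b : Module.Basis (Fin 4) ℝ Mt, ∀ x, x ∈ O ↔ x ∈ Submodule.span ℤ (Set.range b)
  div : ∀ x ∈ O, x ≠ 0 → x.det ≠ 0

/-- the group `O^1` of the elements of reduced norm one -/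
def Gam (O : Subring Mt) : Subgroup SL2 where
  carrier := {g | (g : Mt) ∈ O ∧ ((g⁻¹ : SL2) : Mt) ∈ O}
  mul_mem' := by
    rintro a b ⟨ha, ha'⟩ ⟨hb, hb'⟩
    refine ⟨?_, ?_⟩
    · rw [Matrix.SpecialLinearGroup.coe_mul]; exact O.mul_mem ha hb
    · rw [mul_inv_rev, Matrix.SpecialLinearGroup.coe_mul]; exact O.mul_mem hb' ha'
  one_mem' := by
    refine ⟨?_, ?_⟩
    · rw [Matrix.SpecialLinearGroup.coe_one]; exact O.one_mem
    · rw [inv_one, Matrix.SpecialLinearGroup.coe_one]; exact O.one_mem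
  inv_mem' := by
    rintro a ⟨ha, ha'⟩
    exact ⟨ha', by rwa [inv_inv]⟩

/-- the elements `x / √p`, `x ∈ O` of reduced norm `p` -/
def Ep (O : Subring Mt) (p : ℕ) : Set SL2 := {g | Real.sqrt p • (g : Mt) ∈ O}

/-- `O / p O` is isomorphic to `M_2(F_p)` -/
def Split (O : Subring Mt) (p : ℕ) : Prop :=
  ∃ φ : O →+* Matrix (Fin 2) (Fin 2) (ZMod p), Function.Surjective φ ∧
    ∀ x : O, φ x = 0 ↔ ∃ y : O, x = (p : O) * y

/-- `R` contains exactly one element of each class `Γ g`, `g ∈ Ep O p` -/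
structure IsReps (O : Subring Mt) (p : ℕ) (R : Finset SL2) : Prop where
  mem : ∀ b ∈ R, b ∈ Ep O p
  ex : ∀ g ∈ Ep O p, ∃ b ∈ R, g * b⁻¹ ∈ Gam O
  uniq : ∀ b ∈ R, ∀ b' ∈ R, b * b'⁻¹ ∈ Gam O → b = b'

/-- the product `a_(L-1) ... a_1 a_0` -/
def vw (a : ℕ → SL2) : ℕ → SL2
  | 0 => 1
  | i + 1 => a i * vw a i

/-- the product `A_(L-1) ... A_1 A_0` of matrices -/
def vm {K : Type} [Field K] (A : ℕ → Matrix (Fin 2) (Fin 2) K) : ℕ → Matrix (Fin 2) (Fin 2) K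
  | 0 => 1
  | i + 1 => A i * vm A i

/-- the word `a_0, ..., a_(L-1)` has no backtracking -/
def NB (O : Subring Mt) (a : ℕ → SL2) (L : ℕ) : Prop :=
  ∀ i, i + 1 < L → a (i + 1) * a i ∉ Gam O

/-- the group generated by the products of two elements of `Ep O p` -/
def Lam (O : Subring Mt) (p : ℕ) : Subgroup SL2 :=
  Subgroup.closure {g | ∃ a ∈ Ep O p, ∃ b ∈ Ep O p, g = a * b}

/-- `Λ` has infinitely many classes modulo `Γ` -/
def Inf (O : Subring Mt) (Λ : Subgroup SL2) : Prop :=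
  ∃ l : ℕ → SL2, (∀ j, l j ∈ Λ) ∧ ∀ i j, i ≠ j → l i * (l j)⁻¹ ∉ Gam O

/-- `X` is tangent to `Λ` at `1` -/
def Tan (Λ : Subgroup SL2) (X : Mt) : Prop :=
  ∃ (g : ℕ → SL2) (r : ℕ → ℝ), (∀ n, g n ∈ Λ) ∧ (∀ n, 0 < r n) ∧ Tendsto r atTop (𝓝 0) ∧
    Tendsto (fun n => (r n)⁻¹ • ((g n : Mt) - 1)) atTop (𝓝 X)

/-- derivative of the square of `|g y - w| / (Im g y)^(1/2)` in the direction `X`, up to a factor -/
noncomputable def Dw (w y : UpperHalfPlane) (X : Mt) : ℝ :=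
  ((starRingEnd ℂ) ((y : ℂ) - (w : ℂ)) * ((X 0 0 : ℂ) * (y : ℂ) + (X 0 1 : ℂ) -
    (w : ℂ) * ((X 1 0 : ℂ) * (y : ℂ) + (X 1 1 : ℂ)))).re

end Pool.Agent.Work.MP_d2a4bb_nt.QA
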