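import Pool.Agent.Work.MP_d2a4bb_nt.QA.Stmts

/-!
# Item COCH: the quotient of the upper half-plane is compact
-/

set_option autoImplicit false

open Filter Topology UpperHalfPlane

namespace Pool.Agent.Work.MP_d2a4bb_nt.QA

namespace I_COCH

/-- displacement of `i` -/
theorem cosh_I (k : SL2) : Real.cosh (dist (k • (I : ℍ)) I) =
    1 + (((k : Mt) 0 1 + (k : Mt) 1 0) ^ 2 + ((k : Mt) 0 0 - (k : Mt) 1 1) ^ 2) / 2 := by
  have hd : (k : Mt) 0 0 * (k : Mt) 1 1 - (k : Mt) 0 1 * (k : Mt) 1 0 = 1 := by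
    have := k.det_coe
    rwa [Matrix.det_fin_two] at this
  set a := (k : Mt) 0 0 with ha
  set b := (k : Mt) 0 1 with hb
  set c := (k : Mt) 1 0 with hc
  set d := (k : Mt) 1 1 with hdd
  have hD : 0 < c ^ 2 + d ^ 2 := by
    by_contra hcon
    have h1 : c ^ 2 + d ^ 2 = 0 := le_antisymm (not_lt.1 hcon) (by positivity)
    have h2 : c = 0 := by nlinarith [sq_nonneg c, sq_nonneg d]
    have h3 : d = 0 := by nlinarith [sq_nonneg c, sq_nonneg d]
    rw [h2, h3] at hd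
    norm_num at hd
  have hcoe : ((k • (I : ℍ) : ℍ) : ℂ) = ((a : ℂ) * Complex.I + b) / ((c : ℂ) * Complex.I + d) := by
    rw [coe_specialLinearGroup_apply]
    simp [ha, hb, hc, hdd]
  have hDne : ((c : ℂ) * Complex.I + d) ≠ 0 := by
    intro h
    have h1 := congrArg Complex.re h
    have h2 := congrArg Complex.im h
    simp at h1 h2
    rw [h1, h2] at hD
    norm_num at hD
  have hns : Complex.normSq ((c : ℂ) * Complex.I + d) = c ^ 2 + d ^ 2 := by
    simp [Complex.normSq_apply]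
    ring
  have him : (k • (I : ℍ) : ℍ).im = 1 / (c ^ 2 + d ^ 2) := by
    have h1 : (k • (I : ℍ) : ℍ).im = (((k • (I : ℍ) : ℍ) : ℂ)).im := rfl
    rw [h1, hcoe, Complex.div_im, hns]
    simp
    field_simp
    linarith
  have hdist : dist ((k • (I : ℍ) : ℍ) : ℂ) ((I : ℍ) : ℂ) ^ 2 =
      ((b + c) ^ 2 + (a - d) ^ 2) / (c ^ 2 + d ^ 2) := by
    rw [Complex.dist_eq, Complex.sq_norm, hcoe]
    have e1 : ((a : ℂ) * Complex.I + b) / ((c : ℂ) * Complex.I + d) - ((I : ℍ) : ℂ) =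
        (((b + c : ℝ) : ℂ) + ((a - d : ℝ) : ℂ) * Complex.I) / ((c : ℂ) * Complex.I + d) := by
      rw [UpperHalfPlane.coe_I, div_sub' hDne]
      congr 1
      push_cast
      linear_combination (-(c : ℂ)) * Complex.I_mul_I
    rw [e1, Complex.normSq_div, hns]
    congr 1
    rw [Complex.normSq_add_mul_I]
  rw [UpperHalfPlane.cosh_dist, hdist, him, UpperHalfPlane.I_im]
  field_simp

theorem dist_le (k : SL2) (C : ℝ) (hk : ∀ i j, |(k : Mt) i j| ≤ C) :
    dist (k • (I : ℍ)) I ≤ 2 * (1 + 4 * C ^ 2) := by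
  have h1 := cosh_I k
  have h2 := abs_le.1 (hk 0 0)
  have h3 := abs_le.1 (hk 0 1)
  have h4 := abs_le.1 (hk 1 0)
  have h5 := abs_le.1 (hk 1 1)
  have h6 : ((k : Mt) 0 1 + (k : Mt) 1 0) ^ 2 ≤ 4 * C ^ 2 := by
    nlinarith
  have h7 : ((k : Mt) 0 0 - (k : Mt) 1 1) ^ 2 ≤ 4 * C ^ 2 := by
    nlinarith
  have h8 : dist (k • (I : ℍ)) I ≤ 2 * Real.cosh (dist (k • (I : ℍ)) I) := by
    rw [Real.cosh_eq]
    have h9 := Real.add_one_le_exp (dist (k • (I : ℍ)) I)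
    have h10 := Real.exp_pos (-dist (k • (I : ℍ)) I)
    linarith
  linarith

end I_COCH

theorem COCH_pf (h1 : S_COC) : S_COCH := by
  intro O hO
  obtain ⟨C, hC, h⟩ := h1 O hO
  refine ⟨Metric.closedBall (I : ℍ) (2 * (1 + 4 * C ^ 2)), isCompact_closedBall _ _, ?_⟩
  intro z
  obtain ⟨c, hc, hent⟩ := h (z.toSL2R)⁻¹
  refine ⟨c⁻¹, (Gam O).inv_mem hc, ?_⟩
  have hk : c⁻¹ • z = ((z.toSL2R)⁻¹ * c)⁻¹ • (I : ℍ) := by
    rw [mul_inv_rev, inv_inv, mul_smul, toSL2R_smul_I]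
  rw [Metric.mem_closedBall, hk]
  apply I_COCH.dist_le
  generalize (z.toSL2R)⁻¹ * c = m at hent
  intro i j
  rw [Matrix.SpecialLinearGroup.SL2_inv_expl]
  fin_cases i <;> fin_cases j
  · simpa using hent 1 1
  · simpa using hent 0 1
  · simpa using hent 1 0
  · simpa using hent 0 0

end Pool.Agent.Work.MP_d2a4bb_nt.QA
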