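import Pool.Agent.Work.MP_d2a4bb_nt.QA.Stmts

/-!
# Block QA of `MP_d2a4bb_nt`, item INVL: no invariant lines
-/

set_option autoImplicit false

open Filter Topology

namespace Pool.Agent.Work.MP_d2a4bb_nt.QA

namespace I_INVL

/-- matrices which commute with a nonzero matrix of trace zero commute with each other -/
theorem comm_of_comm (Y A B : Mt) (hY0 : Y ≠ 0) (htr : Y.trace = 0) (hA : A * Y = Y * A)
    (hB : B * Y = Y * B) : A * B = B * A := by
  rw [Matrix.trace_fin_two] at htr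
  have a00 := congrFun (congrFun hA 0) 0
  have a01 := congrFun (congrFun hA 0) 1
  have a10 := congrFun (congrFun hA 1) 0
  have b00 := congrFun (congrFun hB 0) 0
  have b01 := congrFun (congrFun hB 0) 1
  have b10 := congrFun (congrFun hB 1) 0
  simp only [Matrix.mul_apply, Fin.sum_univ_two] at a00 a01 a10 b00 b01 b10
  have key : A 0 1 * B 1 0 = B 0 1 * A 1 0 ∧ (A 0 0 - A 1 1) * B 0 1 = (B 0 0 - B 1 1) * A 0 1 ∧
      (A 0 0 - A 1 1) * B 1 0 = (B 0 0 - B 1 1) * A 1 0 := by
    have hne : Y 0 0 - Y 1 1 ≠ 0 ∨ Y 0 1 ≠ 0 ∨ Y 1 0 ≠ 0 := by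
      by_contra hcon
      push Not at hcon
      obtain ⟨h1, h2, h3⟩ := hcon
      apply hY0
      ext i j
      fin_cases i <;> fin_cases j
      · show Y 0 0 = 0
        linarith
      · exact h2
      · exact h3
      · show Y 1 1 = 0
        linarith
    have p1 : A 0 1 * Y 1 0 = Y 0 1 * A 1 0 := by linarith
    have p2 : (A 0 0 - A 1 1) * Y 0 1 = (Y 0 0 - Y 1 1) * A 0 1 := by linarith
    have p3 : (A 0 0 - A 1 1) * Y 1 0 = (Y 0 0 - Y 1 1) * A 1 0 := by linarith
    have q1 : B 0 1 * Y 1 0 = Y 0 1 * B 1 0 := by linarith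
    have q2 : (B 0 0 - B 1 1) * Y 0 1 = (Y 0 0 - Y 1 1) * B 0 1 := by linarith
    have q3 : (B 0 0 - B 1 1) * Y 1 0 = (Y 0 0 - Y 1 1) * B 1 0 := by linarith
    rcases hne with h | h | h
    · refine ⟨mul_left_cancel₀ h ?_, mul_left_cancel₀ h ?_, mul_left_cancel₀ h ?_⟩
      · linear_combination (-B 1 0) * p2 + (B 0 1) * p3 + (A 0 0 - A 1 1) * (-q1)
      · linear_combination (-(A 0 0 - A 1 1)) * q2 + (B 0 0 - B 1 1) * p2
      · linear_combination (-(A 0 0 - A 1 1)) * q3 + (B 0 0 - B 1 1) * p3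
    · refine ⟨mul_left_cancel₀ h ?_, mul_left_cancel₀ h ?_, mul_left_cancel₀ h ?_⟩
      · linear_combination (-A 0 1) * q1 + (B 0 1) * p1
      · linear_combination (B 0 1) * p2 - (A 0 1) * q2
      · linear_combination (-(A 0 0 - A 1 1)) * q1 + (B 0 1) * p3 - (A 1 0) * q2
    · refine ⟨mul_left_cancel₀ h ?_, mul_left_cancel₀ h ?_, mul_left_cancel₀ h ?_⟩
      · linear_combination (B 1 0) * p1 - (A 1 0) * q1
      · linear_combination (A 0 0 - A 1 1) * q1 + (B 1 0) * p2 - (A 0 1) * q3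
      · linear_combination (B 1 0) * p3 - (A 1 0) * q3
  obtain ⟨k1, k2, k3⟩ := key
  ext i j
  fin_cases i <;> fin_cases j <;>
    simp only [Fin.zero_eta, Fin.mk_one, Fin.isValue, Matrix.mul_apply, Fin.sum_univ_two]
  · linear_combination k1
  · linear_combination k2
  · linear_combination -k3
  · linear_combination -k1

/-- vectors in the kernel of a nonzero matrix are proportional -/
theorem ker_prop (Y : Mt) (hY0 : Y ≠ 0) (e v : Fin 2 → ℝ) (he0 : e ≠ 0) (he : Y.mulVec e = 0)
    (hv : Y.mulVec v = 0) : ∃ μ : ℝ, v = μ • e := by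
  have e0 := congrFun he 0
  have e1 := congrFun he 1
  have v0 := congrFun hv 0
  have v1 := congrFun hv 1
  simp only [Matrix.mulVec, dotProduct, Fin.sum_univ_two, Pi.zero_apply] at e0 e1 v0 v1
  have hc : e 0 * v 1 = e 1 * v 0 := by
    have hne : Y 0 0 ≠ 0 ∨ Y 0 1 ≠ 0 ∨ Y 1 0 ≠ 0 ∨ Y 1 1 ≠ 0 := by
      by_contra hcon
      push Not at hcon
      obtain ⟨h1, h2, h3, h4⟩ := hcon
      apply hY0
      ext i j
      fin_cases i <;> fin_cases j
      · exact h1
      · exact h2
      · exact h3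
      · exact h4
    rcases hne with h | h | h | h
    · exact mul_left_cancel₀ h (by linear_combination (v 1) * e0 - (e 1) * v0)
    · exact mul_left_cancel₀ h (by linear_combination (e 0) * v0 - (v 0) * e0)
    · exact mul_left_cancel₀ h (by linear_combination (v 1) * e1 - (e 1) * v1)
    · exact mul_left_cancel₀ h (by linear_combination (e 0) * v1 - (v 0) * e1)
  have hne : e 0 ≠ 0 ∨ e 1 ≠ 0 := by
    by_contra hcon
    push Not at hcon
    apply he0
    ext i
    fin_cases i
    · exact hcon.1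
    · exact hcon.2
  rcases hne with h | h
  · refine ⟨v 0 / e 0, ?_⟩
    ext i
    fin_cases i
    · show v 0 = v 0 / e 0 * e 0
      field_simp
    · show v 1 = v 0 / e 0 * e 1
      field_simp
      linarith
  · refine ⟨v 1 / e 1, ?_⟩
    ext i
    fin_cases i
    · show v 0 = v 1 / e 1 * e 0
      field_simp
      linarith
    · show v 1 = v 1 / e 1 * e 1
      field_simp

end I_INVL

open I_INVL in
theorem INVL_pf (h1 : S_NONC) : S_INVL := by
  intro O hO Y htr hY
  by_contra hY0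
  obtain ⟨c, hc, c', hc', hne⟩ := h1 O hO
  apply hne
  by_cases hdet : Y.det = 0
  · obtain ⟨e, he0, he⟩ := Matrix.exists_mulVec_eq_zero_iff.2 hdet
    have hev : ∀ g ∈ Gam O, ∃ μ : ℝ, ((g : SL2) : Mt).mulVec e = μ • e := by
      intro g hg
      obtain ⟨s, hs⟩ := hY g hg
      have hs0 : s ≠ 0 := by
        rintro rfl
        rw [zero_smul] at hs
        apply hY0
        have h3 := congrArg (fun Z => (((g⁻¹ : SL2)) : Mt) * Z) hs
        simp only [mul_zero] at h3
        rw [← Matrix.mul_assoc, ← Matrix.SpecialLinearGroup.coe_mul, inv_mul_cancel,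
          Matrix.SpecialLinearGroup.coe_one, Matrix.one_mul] at h3
        exact h3
      refine ker_prop Y hY0 e _ he0 he ?_
      have h3 := congrArg (fun Z : Mt => Z.mulVec e) hs
      simp only [Matrix.smul_mulVec] at h3
      rw [← Matrix.mulVec_mulVec, he, Matrix.mulVec_zero, ← Matrix.mulVec_mulVec] at h3
      exact (smul_eq_zero.1 h3.symm).resolve_left hs0
    obtain ⟨μ, hμ⟩ := hev c hc
    obtain ⟨μ', hμ'⟩ := hev c' hc'
    have h4 : (((c : SL2) : Mt) * ((c' : SL2) : Mt) - ((c' : SL2) : Mt) * ((c : SL2) : Mt)).mulVec e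
        = 0 := by
      rw [Matrix.sub_mulVec, ← Matrix.mulVec_mulVec, ← Matrix.mulVec_mulVec, hμ, hμ',
        Matrix.mulVec_smul, Matrix.mulVec_smul, hμ, hμ', smul_smul, smul_smul, mul_comm, sub_self]
    have h5 : ((c : SL2) : Mt) * ((c' : SL2) : Mt) - ((c' : SL2) : Mt) * ((c : SL2) : Mt) = 0 := by
      by_contra hne'
      exact hO.div _ (O.sub_mem (O.mul_mem hc.1 hc'.1) (O.mul_mem hc'.1 hc.1)) hne'
        (Matrix.exists_mulVec_eq_zero_iff.1 ⟨e, he0, h4⟩)
    have h6 : c * c' = c' * c := by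
      apply Subtype.ext
      rw [Matrix.SpecialLinearGroup.coe_mul, Matrix.SpecialLinearGroup.coe_mul]
      exact sub_eq_zero.1 h5
    exact (Commute.pow_pow (show Commute c c' from h6) 2 2).eq
  · have hsq : ∀ g ∈ Gam O, (((g ^ 2 : SL2)) : Mt) * Y = Y * (((g ^ 2 : SL2)) : Mt) := by
      intro g hg
      obtain ⟨s, hs⟩ := hY g hg
      have hs2 : s ^ 2 = 1 := by
        have h3 := congrArg Matrix.det hs
        rw [Matrix.det_smul, Matrix.det_mul, Matrix.det_mul, g.2, Fintype.card_fin, one_mul,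
          mul_one] at h3
        exact mul_right_cancel₀ hdet (by rw [one_mul]; exact h3.symm)
      rw [Matrix.SpecialLinearGroup.coe_pow, pow_two, Matrix.mul_assoc, hs, Matrix.mul_smul,
        ← Matrix.mul_assoc, hs, Matrix.smul_mul, smul_smul, ← pow_two, hs2, one_smul,
        Matrix.mul_assoc]
    have h3 := comm_of_comm Y _ _ hY0 htr (hsq c hc) (hsq c' hc')
    apply Subtype.ext
    rw [Matrix.SpecialLinearGroup.coe_mul, Matrix.SpecialLinearGroup.coe_mul]
    exact h3

end Pool.Agent.Work.MP_d2a4bb_nt.QA
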